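import Pool.Agent.Helper49K9.AD.Walk
import Pool.Agent.H984R3.Per.Basic

/-!
Discrete Dobrushin domains which are crossed by the column `x = 0` in one interval: the edges
outside are wired to the left of the column and closed to the right of it.
-/

set_option autoImplicit false

namespace Pool.Agent.Helper49K9.AD

open H974 H342P H984P H984N

/-- The random edges meet the column `x = 0` exactly between the heights `yb` and `ya`. -/
structure Ax (E : Finset Edg) (yb ya : ℤ) : Prop where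
  lt : yb < ya
  up : ∀ y : ℤ, ya ≤ y → ((0, y, false) : Edg) ∉ E
  up' : ∀ y : ℤ, ya < y → ((0, y, true) : Edg) ∉ E
  dn : ∀ y : ℤ, y < yb → ((0, y, false) : Edg) ∉ E
  dn' : ∀ y : ℤ, y < yb → ((0, y, true) : Edg) ∉ E
  mid : ∀ y : ℤ, yb ≤ y → y < ya → ((0, y, false) : Edg) ∈ E

/-- The edges outside `E` which are not to the right of the column. -/
def axW (E : Finset Edg) : Set Edg := {e | (src e).1 ≤ 0 ∧ (tgt e).1 ≤ 0 ∧ e ∉ E}

/-- The state is close to a random edge. -/
def Nr (E : Finset Edg) (σ : St) : Prop :=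
  ∃ e ∈ E, |σ.1.1 - e.1| ≤ 1 ∧ |σ.1.2 - e.2.1| ≤ 1

section

variable {E : Finset Edg} {yb ya : ℤ} (h : Ax E yb ya) {F : Finset Edg} (hF : F ⊆ E)

theorem ax_open {e : Edg} (h1 : (src e).1 ≤ 0) (h2 : (tgt e).1 ≤ 0) (h3 : e ∉ E) :
    e ∈ ((↑F : Set Edg) ∪ axW E) := Or.inr ⟨h1, h2, h3⟩

include hF in
theorem ax_closed {e : Edg} (h1 : 0 < (tgt e).1) (h3 : e ∉ E) :
    e ∉ ((↑F : Set Edg) ∪ axW E) := by
  rintro (h4 | h4)
  · exact h3 (hF (Finset.mem_coe.1 h4))
  · exact absurd h4.2.1 (by omega)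

include h hF in
theorem up_one (y : ℤ) (hy : ya < y) :
    orb (↑F ∪ axW E) ((0, y), .ne) 2 = ((0, y - 1), .ne) := by
  have e1 : nxt (↑F ∪ axW E) ((0, y), Q4.ne) = ((0, y), .se) := by
    rw [nxt_closed]
    · rfl
    · rw [ae_ne]
      exact ax_closed hF (by rw [tgt_true]; norm_num) (h.up' y hy)
  have e2 : nxt (↑F ∪ axW E) ((0, y), Q4.se) = ((0, y - 1), .ne) := by
    rw [nxt_open]
    · rfl
    · rw [ae_se]
      exact ax_open (by rw [src_mk]) (by rw [tgt_false]) (h.up (y - 1) (by omega))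
  rw [orb_succ, orb_succ, orb_zero, e1, e2]

include h hF in
theorem up_orb (n : ℕ) : orb (↑F ∪ axW E) ((0, ya + n), .ne) (2 * n) = ((0, ya), .ne) := by
  induction n with
  | zero => simp
  | succ n ih =>
    have e : 2 * (n + 1) = 2 * n + 2 := by ring
    rw [e, orb_add, up_one h hF (ya + ((n + 1 : ℕ) : ℤ)) (by push_cast; omega)]
    have e2 : ya + ((n + 1 : ℕ) : ℤ) - 1 = ya + n := by push_cast; ring
    rw [e2]
    exact ih

include h hF in
theorem dn_se (y : ℤ) (hy : y ≤ yb) :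
    nxt (↑F ∪ axW E) ((0, y), Q4.se) = ((0, y - 1), .ne) := by
  rw [nxt_open]
  · rfl
  · rw [ae_se]
    exact ax_open (by rw [src_mk]) (by rw [tgt_false]) (h.dn (y - 1) (by omega))

include h hF in
theorem dn_ne (y : ℤ) (hy : y < yb) :
    nxt (↑F ∪ axW E) ((0, y), Q4.ne) = ((0, y), .se) := by
  rw [nxt_closed]
  · rfl
  · rw [ae_ne]
    exact ax_closed hF (by rw [tgt_true]; norm_num) (h.dn' y hy)

include h hF in
theorem dn_orb (n : ℕ) : orb (↑F ∪ axW E) ((0, yb), .se) (2 * n) = ((0, yb - n), .se) := by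
  induction n with
  | zero => simp
  | succ n ih =>
    have e : 2 * (n + 1) = 2 + 2 * n := by ring
    rw [e, orb_add, ih, orb_succ, orb_succ, orb_zero, dn_se h hF _ (by omega),
      dn_ne h hF _ (by omega)]
    have e2 : yb - (n : ℤ) - 1 = yb - ((n + 1 : ℕ) : ℤ) := by push_cast; ring
    rw [e2]

include h hF in
theorem dn_orb' (n : ℕ) :
    orb (↑F ∪ axW E) ((0, yb), .se) (2 * n + 1) = ((0, yb - n - 1), .ne) := by
  rw [orb_succ, dn_orb h hF, dn_se h hF _ (by omega)]

/-- Iterates are injective. -/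
theorem orb_inj (C : Set Edg) (n : ℕ) {σ τ : St} (he : orb C σ n = orb C τ n) : σ = τ :=
  (nxt_bij C).1.iterate n he

include h hF in
/-- The first state is not periodic. -/
theorem ax_noper {P : ℕ} (hP : 0 < P) : orb (↑F ∪ axW E) ((0, ya), .ne) P ≠ ((0, ya), .ne) := by
  intro he
  have h1 := up_orb h hF P
  have h2 : orb (↑F ∪ axW E) ((0, ya + (P : ℤ)), Q4.ne) P = ((0, ya + (P : ℤ)), .ne) := by
    apply orb_inj (↑F ∪ axW E) (2 * P)
    rw [← orb_add, Nat.add_comm, orb_add, h1, he]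
  have h3 : orb (↑F ∪ axW E) ((0, ya + (P : ℤ)), Q4.ne) (2 * P) = ((0, ya + (P : ℤ)), .ne) := by
    rw [two_mul, orb_add, h2, h2]
  rw [h1] at h3
  have h4 := congrArg (fun σ : St => σ.1.2) h3
  simp only at h4
  omega

include h hF in
theorem ax_inj {i j : ℕ} (he : orb (↑F ∪ axW E) ((0, ya), .ne) i =
    orb (↑F ∪ axW E) ((0, ya), .ne) j) : i = j := by
  rcases Nat.lt_trichotomy i j with hij | hij | hij
  · exfalso
    apply ax_noper h hF (P := j - i) (by omega)
    apply orb_inj (↑F ∪ axW E) i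
    rw [← orb_add, show i + (j - i) = j by omega, he]
  · exact hij
  · exfalso
    apply ax_noper h hF (P := i - j) (by omega)
    apply orb_inj (↑F ∪ axW E) j
    rw [← orb_add, show j + (i - j) = i by omega, he]

theorem Nr_finite (E : Finset Edg) : {σ : St | Nr E σ}.Finite := by
  have : {σ : St | Nr E σ} ⊆ ⋃ e ∈ E,
      (((Set.Icc (e.1 - 1) (e.1 + 1)) ×ˢ (Set.Icc (e.2.1 - 1) (e.2.1 + 1))) ×ˢ
        (Set.univ : Set Q4)) := by
    rintro ⟨⟨x, y⟩, q⟩ ⟨e, he, h1, h2⟩
    rw [abs_le] at h1 h2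
    simp only [Set.mem_iUnion]
    refine ⟨e, he, ⟨⟨?_, ?_⟩, Set.mem_univ _⟩⟩
    · simp only [Set.mem_Icc] at *
      constructor <;> omega
    · simp only [Set.mem_Icc] at *
      constructor <;> omega
  refine Set.Finite.subset ?_ this
  apply Set.Finite.biUnion E.finite_toSet
  intro e _
  exact ((Set.finite_Icc _ _).prod (Set.finite_Icc _ _)).prod Set.finite_univ

/-- Invariant of the vertices of the path. -/
def I1 (E : Finset Edg) (v : Vtx) : Prop :=
  v.1 ≤ 0 ∨ ∃ e ∈ E, |v.1 - e.1| ≤ 1 ∧ |v.2 - e.2.1| ≤ 1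

/-- Invariant of the faces of the path. -/
def I2 (E : Finset Edg) (f : Vtx) : Prop :=
  0 ≤ f.1 ∨ ∃ e ∈ E, (f.1 ≤ e.1 ∧ e.1 ≤ f.1 + 1) ∧ (f.2 ≤ e.2.1 ∧ e.2.1 ≤ f.2 + 1)

theorem end_near (e : Edg) {v : Vtx} (hv : src e = v ∨ tgt e = v) :
    |v.1 - e.1| ≤ 1 ∧ |v.2 - e.2.1| ≤ 1 := by
  obtain ⟨x, y, b⟩ := e
  cases b
  · rcases hv with hv | hv <;> subst hv <;> simp
  · rcases hv with hv | hv <;> subst hv <;> simp

theorem mv_end (σ : St) : src (ae σ) = (mv σ).1 ∨ tgt (ae σ) = (mv σ).1 := by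
  obtain ⟨⟨x, y⟩, q⟩ := σ
  cases q
  · right; rw [ae_ne, mv_ne, tgt_true]
  · right; rw [ae_nw, mv_nw, tgt_false]
  · left; rw [ae_sw, mv_sw, src_mk]
  · left; rw [ae_se, mv_se, src_mk]

include hF in
theorem step_I1 (σ : St) (h1 : I1 E σ.1) : I1 E (nxt (↑F ∪ axW E) σ).1 := by
  by_cases ho : ae σ ∈ ((↑F : Set Edg) ∪ axW E)
  · rw [nxt_open ho]
    have h2 := mv_end σ
    rcases ho with ho | ho
    · right
      exact ⟨ae σ, hF (Finset.mem_coe.1 ho), end_near _ h2⟩
    · left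
      rcases h2 with h2 | h2
      · rw [← h2]; exact ho.1
      · rw [← h2]; exact ho.2.1
  · rw [nxt_closed ho]
    have : (rt σ).1 = σ.1 := by
      obtain ⟨v, q⟩ := σ
      cases q <;> rfl
    rw [this]
    exact h1

theorem face_mv (σ : St) : face (mv σ) = face σ := by
  obtain ⟨⟨x, y⟩, q⟩ := σ
  cases q <;> simp [face, mv]

theorem face_rt (σ : St) : ((face (rt σ)).1 ≤ (ae σ).1 ∧ (ae σ).1 ≤ (face (rt σ)).1 + 1) ∧
    ((face (rt σ)).2 ≤ (ae σ).2.1 ∧ (ae σ).2.1 ≤ (face (rt σ)).2 + 1) ∧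
    (tgt (ae σ)).1 ≤ (face (rt σ)).1 + 1 := by
  obtain ⟨⟨x, y⟩, q⟩ := σ
  cases q
  · rw [rt_ne, face_se, ae_ne, tgt_true]; simp
  · rw [rt_nw, face_ne, ae_nw, tgt_false]; simp
  · rw [rt_sw, face_nw, ae_sw, tgt_true]; simp
  · rw [rt_se, face_sw, ae_se, tgt_false]; simp

theorem step_I2 (σ : St) (h2 : I2 E (face σ)) : I2 E (face (nxt (↑F ∪ axW E) σ)) := by
  by_cases ho : ae σ ∈ ((↑F : Set Edg) ∪ axW E)
  · rw [nxt_open ho, face_mv]
    exact h2
  · rw [nxt_closed ho]
    obtain ⟨g1, g2, g3⟩ := face_rt σ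
    by_cases hE : ae σ ∈ E
    · exact Or.inr ⟨_, hE, g1, g2⟩
    · left
      by_contra hneg
      apply ho
      have h3 : (src (ae σ)).1 ≤ (tgt (ae σ)).1 := by
        obtain ⟨x, y, b⟩ := ae σ
        cases b <;> simp
      exact ax_open (by omega) (by omega) hE

include hF in
theorem orb_I {σ : St} (h1 : I1 E σ.1) (h2 : I2 E (face σ)) (k : ℕ) :
    I1 E (orb (↑F ∪ axW E) σ k).1 ∧ I2 E (face (orb (↑F ∪ axW E) σ k)) := by
  induction k with
  | zero => exact ⟨h1, h2⟩
  | succ k ih =>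
    rw [orb_succ]
    exact ⟨step_I1 hF _ ih.1, step_I2 _ ih.2⟩

/-- Far from the random edges, the states on the path are on the column. -/
theorem classify {σ : St} (h1 : I1 E σ.1) (h2 : I2 E (face σ)) (h3 : ¬ Nr E σ) :
    ∃ y : ℤ, σ = ((0, y), .ne) ∨ σ = ((0, y), .se) := by
  obtain ⟨⟨x, y⟩, q⟩ := σ
  rcases h1 with h1 | ⟨e, he, h4⟩
  swap
  · exact absurd ⟨e, he, h4⟩ h3
  rcases h2 with h2 | ⟨e, he, h4, h5⟩
  · refine ⟨y, ?_⟩
    cases q
    · left
      rw [face_ne] at h2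
      simp only at h1 h2
      have : x = 0 := by omega
      rw [this]
    · exfalso
      rw [face_nw] at h2
      simp only at h1 h2
      omega
    · exfalso
      rw [face_sw] at h2
      simp only at h1 h2
      omega
    · right
      rw [face_se] at h2
      simp only at h1 h2
      have : x = 0 := by omega
      rw [this]
  · exfalso
    apply h3
    refine ⟨e, he, ?_⟩
    cases q
    · rw [face_ne] at h4 h5
      simp only at h4 h5 ⊢
      rw [abs_le, abs_le]
      omega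
    · rw [face_nw] at h4 h5
      simp only at h4 h5 ⊢
      rw [abs_le, abs_le]
      omega
    · rw [face_sw] at h4 h5
      simp only at h4 h5 ⊢
      rw [abs_le, abs_le]
      omega
    · rw [face_se] at h4 h5
      simp only at h4 h5 ⊢
      rw [abs_le, abs_le]
      omega

include h in
theorem col_Nr {y : ℤ} (h1 : yb ≤ y) (h2 : y ≤ ya) (q : Q4) : Nr E ((0, y), q) := by
  have h3 := h.lt
  rcases h2.lt_or_eq with h4 | h4
  · refine ⟨(0, y, false), h.mid y h1 h4, ?_, ?_⟩ <;> simp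
  · refine ⟨(0, y - 1, false), h.mid (y - 1) (by omega) (by omega), ?_, ?_⟩ <;> simp

include h hF in
/-- If the path from the first state is far from the random edges, it has visited the last
state before. -/
theorem ax_key {k : ℕ} (hk : ¬ Nr E (orb (↑F ∪ axW E) ((0, ya), .ne) k)) :
    ∃ j < k, orb (↑F ∪ axW E) ((0, ya), .ne) j = ((0, yb), .se) := by
  obtain ⟨i1, i2⟩ := orb_I (σ := ((0, ya), Q4.ne)) hF (Or.inl le_rfl) (Or.inl le_rfl) k
  obtain ⟨y, hy⟩ := classify i1 i2 hk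
  have hlt := h.lt
  -- the state is not above
  have hnu : ¬ ya < y := by
    intro hya
    obtain ⟨n, hn⟩ := Int.eq_ofNat_of_zero_le (show 0 ≤ y - ya by omega)
    have hn1 : 0 < n := by omega
    have hy2 : y = ya + (n : ℤ) := by omega
    rcases hy with hy | hy
    · apply ax_noper h hF (P := 2 * n + k) (by omega)
      rw [orb_add, hy, hy2, up_orb h hF n]
    · -- previous state is `ne`
      have e1 : nxt (↑F ∪ axW E) ((0, y), Q4.ne) = ((0, y), .se) := by
        rw [nxt_closed]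
        · rfl
        · rw [ae_ne]
          exact ax_closed hF (by rw [tgt_true]; norm_num) (h.up' y hya)
      have e2 : orb (↑F ∪ axW E) ((0, y), Q4.ne) 1 = ((0, y), .se) := by
        rw [orb_succ, orb_zero, e1]
      apply ax_noper h hF (P := (2 * n - 1) + k) (by omega)
      rw [orb_add, hy, ← e2, ← orb_add, show 2 * n - 1 + 1 = 2 * n by omega, hy2,
        up_orb h hF n]
  have hnd : ¬ yb ≤ y := by
    intro hyb
    apply hk
    rcases hy with hy | hy
    · rw [hy]; exact col_Nr h hyb (by omega) _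
    · rw [hy]; exact col_Nr h hyb (by omega) _
  -- the state is below: it is on the orbit of the last state
  obtain ⟨n, hn⟩ := Int.eq_ofNat_of_zero_le (show 0 ≤ yb - y by omega)
  have hn1 : 0 < n := by omega
  obtain ⟨m, hm1, hm⟩ : ∃ m : ℕ, 0 < m ∧ orb (↑F ∪ axW E) ((0, yb), Q4.se) m =
      orb (↑F ∪ axW E) ((0, ya), .ne) k := by
    rcases hy with hy | hy
    · refine ⟨2 * (n - 1) + 1, by omega, ?_⟩
      rw [dn_orb' h hF, hy]
      have : yb - ((n - 1 : ℕ) : ℤ) - 1 = y := by omega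
      rw [this]
    · refine ⟨2 * n, by omega, ?_⟩
      rw [dn_orb h hF, hy]
      have : yb - (n : ℤ) = y := by omega
      rw [this]
  have hmk : m ≤ k := by
    by_contra hmk
    have h5 : orb (↑F ∪ axW E) ((0, yb), Q4.se) (m - k) = ((0, ya), .ne) := by
      apply orb_inj (↑F ∪ axW E) k
      rw [← orb_add, show k + (m - k) = m by omega, hm]
    have hcol : ∀ s : ℕ, (orb (↑F ∪ axW E) ((0, yb), Q4.se) s).1.2 ≤ yb := by
      intro s
      rcases Nat.even_or_odd' s with ⟨c, hc | hc⟩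
      · rw [hc, dn_orb h hF]
        simp only
        omega
      · rw [hc, dn_orb' h hF]
        simp only
        omega
    have h6 := hcol (m - k)
    rw [h5] at h6
    simp only at h6
    omega
  refine ⟨k - m, by omega, ?_⟩
  apply orb_inj (↑F ∪ axW E) m
  rw [← orb_add, show m + (k - m) = k by omega, hm]

include h hF in
theorem ax_ends : ∃ k, orb (↑F ∪ axW E) ((0, ya), .ne) k = ((0, yb), .se) := by
  by_contra hcon
  push Not at hcon
  have hall : ∀ k, Nr E (orb (↑F ∪ axW E) ((0, ya), .ne) k) := by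
    intro k
    by_contra hk
    obtain ⟨j, _, hj⟩ := ax_key h hF hk
    exact hcon j hj
  have hfin := Nr_finite E
  have : Set.Infinite (Set.range fun k : ℕ => orb (↑F ∪ axW E) ((0, ya), .ne) k) :=
    Set.infinite_range_of_injective fun i j he => ax_inj h hF he
  exact this (hfin.subset (by rintro _ ⟨k, rfl⟩; exact hall k))

end

/-- The discrete Dobrushin domain with random edges `E`, wired to the left and closed to the right
of the column `x = 0`. -/
def axDob (E : Finset Edg) (yb ya : ℤ) (h : Ax E yb ya) : Dob where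
  E := E
  W := axW E
  a := ((0, ya), .ne)
  b := ((0, yb), .se)
  disj := fun _ he hW => hW.2.2 he
  ends := fun _ hF => ax_ends h hF

theorem ax_near {E : Finset Edg} {yb ya : ℤ} (h : Ax E yb ya) {F : Finset Edg} (hF : F ⊆ E)
    {k : ℕ} (hk : k ≤ (axDob E yb ya h).len F) : Nr E ((axDob E yb ya h).walk F k) := by
  by_contra hneg
  obtain ⟨j, hj, hj2⟩ := ax_key h hF hneg
  have : (axDob E yb ya h).len F ≤ j := Nat.sInf_le hj2
  omega

end Pool.Agent.Helper49K9.AD
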