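import Pool.Agent.Helper49K9.AD.AxisC
import Pool.Agent.H984R4.NP.ModelLem

/-!
Approximation of the bounded domains which are crossed by the imaginary axis in one segment.
-/

set_option autoImplicit false

namespace Pool.Agent.Helper49K9.AD

open H974 H342P H984P H984N MeasureTheory TopologicalSpace Filter Topology Metric Set
open H934E (pt)
open H984N.ML

/-- A compact set has no points close to a half-plane but far from its part in the half-plane. -/
theorem half_close {S : Set ℂ} (hS : IsCompact S) {f : ℂ → ℝ} (hf : Continuous f) {ε : ℝ}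
    (hε : 0 < ε) : ∃ η > 0, ∀ y ∈ S, f y ≤ η → ∃ z ∈ S, f z ≤ 0 ∧ dist y z ≤ ε := by
  set T : Set ℂ := {y | y ∈ S ∧ ∀ z ∈ S, f z ≤ 0 → ε ≤ dist y z} with hT
  have hTc : IsCompact T := by
    have e : T = S ∩ ⋂ z ∈ S, {y | f z ≤ 0 → ε ≤ dist y z} := by
      ext y
      simp only [hT, Set.mem_ofPred_eq, Set.mem_inter_iff, Set.mem_iInter]
    rw [e]
    apply hS.inter_right
    apply isClosed_biInter
    intro z _
    by_cases hz : f z ≤ 0
    · have : {y : ℂ | f z ≤ 0 → ε ≤ dist y z} = {y | ε ≤ dist y z} := by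
        ext y; simp [hz]
      rw [this]
      exact isClosed_le continuous_const (continuous_id.dist continuous_const)
    · have : {y : ℂ | f z ≤ 0 → ε ≤ dist y z} = univ := by
        ext y; simp [hz]
      rw [this]
      exact isClosed_univ
  have hgood : ∀ y ∈ S, y ∉ T → ∃ z ∈ S, f z ≤ 0 ∧ dist y z ≤ ε := by
    intro y hy hyT
    by_contra hcon
    push Not at hcon
    exact hyT ⟨hy, fun z hz hfz => (hcon z hz hfz).le⟩
  rcases T.eq_empty_or_nonempty with hTe | hTne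
  · refine ⟨1, one_pos, fun y hy _ => hgood y hy ?_⟩
    rw [hTe]
    exact Set.notMem_empty y
  · obtain ⟨y0, hy0, hmin⟩ := hTc.exists_isMinOn hTne hf.continuousOn
    have hpos : 0 < f y0 := by
      by_contra hneg
      have := hy0.2 y0 hy0.1 (not_lt.1 hneg)
      rw [dist_self] at this
      linarith
    refine ⟨f y0 / 2, by positivity, fun y hy hfy => hgood y hy ?_⟩
    intro hyT
    have := hmin hyT
    simp only [Set.mem_ofPred_eq] at this
    linarith

/-- There is a point of the frontier between a point of `D` and a point outside. -/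
theorem exists_frontier {D : Set ℂ} {u w : ℂ} (hu : u ∉ D) (hw : w ∈ D) :
    ∃ y ∈ frontier D, dist y u ≤ dist w u := by
  have hpre : IsPreconnected (closedBall u (dist w u)) :=
    (convex_closedBall u (dist w u)).isPreconnected
  have hne : (closedBall u (dist w u) ∩ frontier D).Nonempty := by
    by_contra hcon
    rw [Set.not_nonempty_iff_eq_empty] at hcon
    have h1 : closedBall u (dist w u) ⊆ interior D ∪ (closure D)ᶜ := by
      intro x hx
      by_cases hx1 : x ∈ interior D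
      · exact Or.inl hx1
      · right
        intro hx2
        have : x ∈ closedBall u (dist w u) ∩ frontier D := ⟨hx, hx2, hx1⟩
        rw [hcon] at this
        exact this
    have h2 : (closedBall u (dist w u) ∩ interior D).Nonempty := by
      refine ⟨w, mem_closedBall.2 le_rfl, ?_⟩
      rcases h1 (mem_closedBall.2 (le_refl (dist w u))) with h | h
      · exact h
      · exact absurd (subset_closure hw) h
    have h3 : (closedBall u (dist w u) ∩ (closure D)ᶜ).Nonempty := by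
      refine ⟨u, mem_closedBall_self dist_nonneg, ?_⟩
      rcases h1 (mem_closedBall_self (dist_nonneg (x := w) (y := u))) with h | h
      · exact absurd (interior_subset h) hu
      · exact h
    obtain ⟨x, _, hx1, hx2⟩ := hpre _ _ isOpen_interior isClosed_closure.isOpen_compl h1 h2 h3
    exact hx2 (subset_closure (interior_subset hx1))
  obtain ⟨y, hy, hy2⟩ := hne
  exact ⟨y, hy2, mem_closedBall.1 hy⟩

theorem ax_pt_re (δ : ℝ) (v : Vtx) : (pt δ v).re = δ * v.1 := rfl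

theorem ax_pt_im (δ : ℝ) (v : Vtx) : (pt δ v).im = δ * (v.2 + 1) := rfl

/-- The edges with both ends in `D` -/
def eset (D : Set ℂ) (δ : ℝ) : Set Edg := {e | pt δ (src e) ∈ D ∧ pt δ (tgt e) ∈ D}

theorem eset_finite {D : Set ℂ} (hD : Bornology.IsBounded D) {δ : ℝ} (hδ : 0 < δ) :
    (eset D δ).Finite := by
  obtain ⟨R, hR⟩ := hD.subset_closedBall (0 : ℂ)
  set N : ℤ := ⌈R / δ⌉ + 1 with hN
  have hfin : (((Set.Icc (-N) N) ×ˢ ((Set.Icc (-N) N) ×ˢ (Set.univ : Set Bool))) :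
      Set Edg).Finite := (Set.finite_Icc _ _).prod ((Set.finite_Icc _ _).prod Set.finite_univ)
  refine hfin.subset ?_
  rintro ⟨x, y, b⟩ ⟨h1, _⟩
  rw [src_mk] at h1
  have h2 := hR h1
  rw [mem_closedBall, dist_zero_right] at h2
  have hx : |δ * (x : ℝ)| ≤ R := (Complex.abs_re_le_norm (pt δ (x, y))).trans h2
  have hy : |δ * ((y : ℝ) + 1)| ≤ R := (Complex.abs_im_le_norm (pt δ (x, y))).trans h2
  have hc : R / δ ≤ (⌈R / δ⌉ : ℝ) := Int.le_ceil _
  have conv : ∀ r : ℝ, |δ * r| ≤ R → |r| ≤ (⌈R / δ⌉ : ℝ) := by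
    intro r hr
    rw [abs_mul, abs_of_pos hδ] at hr
    have : |r| ≤ R / δ := by
      rw [le_div_iff₀ hδ]
      linarith
    exact this.trans hc
  have hx' := abs_le.1 (conv _ hx)
  have hy' := abs_le.1 (conv _ hy)
  have a1 : -⌈R / δ⌉ ≤ x := by exact_mod_cast hx'.1
  have a2 : x ≤ ⌈R / δ⌉ := by exact_mod_cast hx'.2
  have a3 : -⌈R / δ⌉ ≤ y + 1 := by exact_mod_cast hy'.1
  have a4 : y + 1 ≤ ⌈R / δ⌉ := by exact_mod_cast hy'.2
  refine ⟨⟨?_, ?_⟩, ⟨?_, ?_⟩, Set.mem_univ _⟩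
  · show -N ≤ x
    omega
  · show x ≤ N
    omega
  · show -N ≤ y
    omega
  · show y ≤ N
    omega

section

variable {D : Set ℂ} {y1 y2 : ℝ}

theorem pt_axis (hax : ∀ y : ℝ, (⟨0, y⟩ : ℂ) ∈ D ↔ y1 < y ∧ y < y2) {δ : ℝ} (hδ : 0 < δ) (y : ℤ) :
    pt δ (0, y) ∈ D ↔ ⌊y1 / δ⌋ ≤ y ∧ y ≤ ⌈y2 / δ⌉ - 2 := by
  have e : pt δ (0, y) = (⟨0, δ * (y + 1)⟩ : ℂ) := by
    unfold pt
    simp
  rw [e, hax]
  constructor
  · rintro ⟨h1, h2⟩
    constructor
    · have : y1 / δ < ((y + 1 : ℤ) : ℝ) := by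
        rw [div_lt_iff₀ hδ]
        push_cast
        linarith
      have := Int.floor_lt.2 this
      omega
    · have : ((y + 1 : ℤ) : ℝ) < y2 / δ := by
        rw [lt_div_iff₀ hδ]
        push_cast
        linarith
      have := Int.lt_ceil.2 this
      omega
  · rintro ⟨h1, h2⟩
    constructor
    · have : y1 / δ < ((y + 1 : ℤ) : ℝ) := Int.floor_lt.1 (by omega)
      rw [div_lt_iff₀ hδ] at this
      push_cast at this
      linarith
    · have : ((y + 1 : ℤ) : ℝ) < y2 / δ := Int.lt_ceil.1 (by omega)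
      rw [lt_div_iff₀ hδ] at this
      push_cast at this
      linarith

theorem ax_geo (hD : Bornology.IsBounded D) (hax : ∀ y : ℝ, (⟨0, y⟩ : ℂ) ∈ D ↔ y1 < y ∧ y < y2)
    {δ : ℝ} (hδ : 0 < δ) (h3 : 3 * δ < y2 - y1) :
    Ax (eset_finite hD hδ).toFinset ⌊y1 / δ⌋ (⌈y2 / δ⌉ - 2) where
  lt := by
    have a1 : (⌊y1 / δ⌋ : ℝ) ≤ y1 / δ := Int.floor_le _
    have a2 : y2 / δ ≤ (⌈y2 / δ⌉ : ℝ) := Int.le_ceil _
    have a3 : y1 / δ + 3 < y2 / δ := by
      rw [div_add' _ _ _ hδ.ne', div_lt_div_iff_of_pos_right hδ]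
      linarith
    have : ((⌊y1 / δ⌋ : ℤ) : ℝ) < ((⌈y2 / δ⌉ - 2 : ℤ) : ℝ) := by
      push_cast
      linarith
    exact_mod_cast this
  up := by
    intro y hy he
    rw [Set.Finite.mem_toFinset] at he
    have h2 := he.2
    rw [tgt_false, pt_axis hax hδ] at h2
    omega
  up' := by
    intro y hy he
    rw [Set.Finite.mem_toFinset] at he
    have h1 := he.1
    rw [src_mk, pt_axis hax hδ] at h1
    omega
  dn := by
    intro y hy he
    rw [Set.Finite.mem_toFinset] at he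
    have h1 := he.1
    rw [src_mk, pt_axis hax hδ] at h1
    omega
  dn' := by
    intro y hy he
    rw [Set.Finite.mem_toFinset] at he
    have h1 := he.1
    rw [src_mk, pt_axis hax hδ] at h1
    omega
  mid := by
    intro y hy1 hy2
    rw [Set.Finite.mem_toFinset]
    refine ⟨?_, ?_⟩
    · rw [src_mk, pt_axis hax hδ]
      omega
    · rw [tgt_false, pt_axis hax hδ]
      omega

open Classical in
/-- The approximation at mesh `δ` -/
noncomputable def geo (hD : Bornology.IsBounded D)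
    (hax : ∀ y : ℝ, (⟨0, y⟩ : ℂ) ∈ D ↔ y1 < y ∧ y < y2) (δ : ℝ) : Dob :=
  if h : 0 < δ ∧ 3 * δ < y2 - y1 then
    axDob (eset_finite hD h.1).toFinset ⌊y1 / δ⌋ (⌈y2 / δ⌉ - 2) (ax_geo hD hax h.1 h.2)
  else ⟨∅, ∅, ((0, 0), .ne), ((0, 0), .ne), fun _ _ h => h, fun _ _ => ⟨0, rfl⟩⟩

theorem geo_eq (hD : Bornology.IsBounded D)
    (hax : ∀ y : ℝ, (⟨0, y⟩ : ℂ) ∈ D ↔ y1 < y ∧ y < y2) {δ : ℝ} (hδ : 0 < δ)
    (h3 : 3 * δ < y2 - y1) : geo hD hax δ =
      axDob (eset_finite hD hδ).toFinset ⌊y1 / δ⌋ (⌈y2 / δ⌉ - 2) (ax_geo hD hax hδ h3) := by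
  unfold geo
  rw [dif_pos ⟨hδ, h3⟩]

/-- Distance between the position of a state and a lattice point. -/
theorem ax_pos_pt {δ : ℝ} (hδ : 0 < δ) (σ : St) {v : Vtx} {m : ℤ} (h1 : |σ.1.1 - v.1| ≤ m)
    (h2 : |σ.1.2 - v.2| ≤ m) : dist (pos δ σ) (pt δ v) ≤ (2 * m + 1) * δ := by
  have h1' : |(σ.1.1 : ℝ) - v.1| ≤ m := by exact_mod_cast h1
  have h2' : |(σ.1.2 : ℝ) - v.2| ≤ m := by exact_mod_cast h2
  have g1 := qx_le σ.2
  have g2 := qy_le σ.2
  rw [abs_le] at h1' h2' g1 g2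
  have k1 : |(pos δ σ).re - (pt δ v).re| ≤ (m + 1/2) * δ := by
    rw [pos_re, ax_pt_re, ← mul_sub, abs_mul, abs_of_pos hδ, mul_comm]
    apply mul_le_mul_of_nonneg_right _ hδ.le
    rw [abs_le]
    constructor <;> linarith
  have k2 : |(pos δ σ).im - (pt δ v).im| ≤ (m + 1/2) * δ := by
    rw [pos_im, ax_pt_im, ← mul_sub, abs_mul, abs_of_pos hδ, mul_comm]
    apply mul_le_mul_of_nonneg_right _ hδ.le
    rw [abs_le]
    constructor <;> linarith
  refine (dist_le_of k1 k2).trans (le_of_eq ?_)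
  ring

theorem ax_pt_pt {δ : ℝ} (hδ : 0 < δ) {u v : Vtx} {m : ℤ} (h1 : |u.1 - v.1| ≤ m)
    (h2 : |u.2 - v.2| ≤ m) : dist (pt δ u) (pt δ v) ≤ 2 * m * δ := by
  have h1' : |(u.1 : ℝ) - v.1| ≤ m := by exact_mod_cast h1
  have h2' : |(u.2 : ℝ) - v.2| ≤ m := by exact_mod_cast h2
  rw [abs_le] at h1' h2'
  have k1 : |(pt δ u).re - (pt δ v).re| ≤ m * δ := by
    rw [ax_pt_re, ax_pt_re, ← mul_sub, abs_mul, abs_of_pos hδ, mul_comm]
    apply mul_le_mul_of_nonneg_right _ hδ.le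
    rw [abs_le]
    constructor <;> linarith
  have k2 : |(pt δ u).im - (pt δ v).im| ≤ m * δ := by
    rw [ax_pt_im, ax_pt_im, ← mul_sub, abs_mul, abs_of_pos hδ, mul_comm]
    apply mul_le_mul_of_nonneg_right _ hδ.le
    rw [abs_le]
    constructor <;> linarith
  refine (dist_le_of k1 k2).trans (le_of_eq ?_)
  ring

/-- Around a visited state next to a non-random edge there is a point of the frontier. -/
theorem ax_frontier {δ : ℝ} (hδ : 0 < δ) {E : Finset Edg} (hE : ∀ e, e ∈ E ↔ e ∈ eset D δ)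
    {σ : St} (hN : Nr E σ) (hno : ae σ ∉ E) : ∃ u : Vtx, (src (ae σ) = u ∨ tgt (ae σ) = u) ∧
      ∃ y ∈ frontier D, dist y (pt δ u) ≤ 4 * δ ∧ dist (pos δ σ) (pt δ u) ≤ 3 * δ := by
  obtain ⟨u, hu, huD⟩ : ∃ u : Vtx, (src (ae σ) = u ∨ tgt (ae σ) = u) ∧ pt δ u ∉ D := by
    by_contra hcon
    push Not at hcon
    apply hno
    rw [hE]
    exact ⟨hcon _ (Or.inl rfl), hcon _ (Or.inr rfl)⟩
  obtain ⟨e, he, h1, h2⟩ := hN
  have heD : pt δ (src e) ∈ D := ((hE e).1 he).1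
  have e1 : src e = (e.1, e.2.1) := by
    obtain ⟨x, y, b⟩ := e
    rfl
  have huv : |u.1 - σ.1.1| ≤ 1 ∧ |u.2 - σ.1.2| ≤ 1 := by
    obtain ⟨⟨x, y⟩, q⟩ := σ
    cases q
    · rw [ae_ne, src_mk, tgt_true] at hu
      rcases hu with hu | hu <;> subst hu <;> simp
    · rw [ae_nw, src_mk, tgt_false] at hu
      rcases hu with hu | hu <;> subst hu <;> simp
    · rw [ae_sw, src_mk, tgt_true] at hu
      rcases hu with hu | hu <;> subst hu <;> simp
    · rw [ae_se, src_mk, tgt_false] at hu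
      rcases hu with hu | hu <;> subst hu <;> simp
  have h3 : |(src e).1 - u.1| ≤ 2 ∧ |(src e).2 - u.2| ≤ 2 := by
    rw [e1]
    obtain ⟨g1, g2⟩ := huv
    rw [abs_le] at *
    constructor
    · constructor <;> simp only <;> omega
    · rw [abs_le] at *
      constructor <;> simp only <;> omega
  obtain ⟨y, hy, hy2⟩ := exists_frontier huD heD
  refine ⟨u, hu, y, hy, ?_, ?_⟩
  · refine hy2.trans ((ax_pt_pt hδ h3.1 h3.2).trans (le_of_eq ?_))
    push_cast
    ring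
  · have g1 : |σ.1.1 - u.1| ≤ 1 := by rw [abs_sub_comm]; exact huv.1
    have g2 : |σ.1.2 - u.2| ≤ 1 := by rw [abs_sub_comm]; exact huv.2
    refine (ax_pos_pt hδ σ g1 g2).trans (le_of_eq ?_)
    push_cast
    ring

theorem ax_wired {δ : ℝ} (hδ : 0 < δ) {E : Finset Edg} (hE : ∀ e, e ∈ E ↔ e ∈ eset D δ)
    {σ : St} (hN : Nr E σ) (hW : ae σ ∈ axW E) {η ε : ℝ} (hη : 4 * δ ≤ η) (hε : 7 * δ ≤ ε / 2)
    (hclose : ∀ y ∈ frontier D, y.re ≤ η → ∃ z ∈ frontier D, z.re ≤ 0 ∧ dist y z ≤ ε / 2) :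
    ∃ z ∈ {z | z ∈ frontier D ∧ z.re ≤ 0}, dist (pos δ σ) z ≤ ε := by
  obtain ⟨hW1, hW2, hW3⟩ := hW
  obtain ⟨u, hu, y, hy, hy2, hy3⟩ := ax_frontier hδ hE hN hW3
  have hu0 : u.1 ≤ 0 := by
    rcases hu with hu | hu
    · rw [← hu]; exact hW1
    · rw [← hu]; exact hW2
  have hre : y.re ≤ η := by
    have g1 := le_dist_re y (pt δ u)
    rw [ax_pt_re, abs_le] at g1
    have g2 : δ * (u.1 : ℝ) ≤ 0 := by
      have : (u.1 : ℝ) ≤ 0 := by exact_mod_cast hu0
      nlinarith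
    linarith [g1.2]
  obtain ⟨z, hz, hz0, hz2⟩ := hclose y hy hre
  refine ⟨z, ⟨hz, hz0⟩, ?_⟩
  have := dist_triangle4 (pos δ σ) (pt δ u) y z
  rw [dist_comm (pt δ u) y] at this
  linarith

theorem ax_free {δ : ℝ} (hδ : 0 < δ) {E : Finset Edg} (hE : ∀ e, e ∈ E ↔ e ∈ eset D δ)
    {σ : St} (hN : Nr E σ) (hnE : ae σ ∉ E) (hW : ae σ ∉ axW E) {η ε : ℝ} (hη : 4 * δ ≤ η)
    (hε : 7 * δ ≤ ε / 2)
    (hclose : ∀ y ∈ frontier D, -y.re ≤ η → ∃ z ∈ frontier D, -z.re ≤ 0 ∧ dist y z ≤ ε / 2) :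
    ∃ z ∈ {z | z ∈ frontier D ∧ 0 ≤ z.re}, dist (pos δ σ) z ≤ ε := by
  obtain ⟨u, hu, y, hy, hy2, hy3⟩ := ax_frontier hδ hE hN hnE
  have htgt : 0 < (tgt (ae σ)).1 := by
    by_contra hneg
    apply hW
    have h3 : ∀ e : Edg, (src e).1 ≤ (tgt e).1 := by
      rintro ⟨x, y, b⟩
      cases b <;> simp
    exact ⟨(h3 _).trans (not_lt.1 hneg), not_lt.1 hneg, hnE⟩
  have hu0 : 0 ≤ u.1 := by
    have h3 : ∀ e : Edg, (tgt e).1 ≤ (src e).1 + 1 := by
      rintro ⟨x, y, b⟩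
      cases b <;> simp
    rcases hu with hu | hu
    · rw [← hu]
      have := h3 (ae σ)
      omega
    · rw [← hu]
      exact htgt.le
  have hre : -y.re ≤ η := by
    have g1 := le_dist_re y (pt δ u)
    rw [ax_pt_re, abs_le] at g1
    have g2 : 0 ≤ δ * (u.1 : ℝ) := by
      have : (0 : ℝ) ≤ u.1 := by exact_mod_cast hu0
      positivity
    linarith [g1.1]
  obtain ⟨z, hz, hz0, hz2⟩ := hclose y hy hre
  refine ⟨z, ⟨hz, by linarith⟩, ?_⟩
  have := dist_triangle4 (pos δ σ) (pt δ u) y z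
  rw [dist_comm (pt δ u) y] at this
  linarith

/-- **Existence of approximations.** -/
theorem exists_approx (hDo : IsOpen D) (hD : Bornology.IsBounded D) (hy : y1 < y2)
    (hax : ∀ y : ℝ, (⟨0, y⟩ : ℂ) ∈ D ↔ y1 < y ∧ y < y2) {δ : ℕ → ℝ} (hδ : ∀ i, 0 < δ i)
    (hlim : Tendsto δ atTop (𝓝 0)) : ∃ 𝒟 : ℕ → Dob,
      Approx D ⟨0, y2⟩ ⟨0, y1⟩ 𝒟 δ ∧
      Arcs {z | z ∈ frontier D ∧ z.re ≤ 0} {z | z ∈ frontier D ∧ 0 ≤ z.re} 𝒟 δ := by
  have hev : ∀ c : ℝ, 0 < c → ∀ᶠ i in atTop, δ i < c := fun c hc => hlim.eventually_lt_const hc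
  have hfc : IsCompact (frontier D) :=
    isCompact_of_isClosed_isBounded isClosed_frontier (hD.closure.subset frontier_subset_closure)
  have hbig := hev ((y2 - y1) / 3) (by linarith)
  have hmem : ∀ i, ∀ e : Edg, e ∈ (eset_finite hD (hδ i)).toFinset ↔ e ∈ eset D (δ i) :=
    fun i e => Set.Finite.mem_toFinset _
  refine ⟨fun i => geo hD hax (δ i), ⟨hδ, hlim, ?_, ?_, ?_, ?_⟩, ⟨?_, ?_⟩⟩
  · -- inner
    intro K hK hKD
    obtain ⟨ε, hε, hsub⟩ := hK.exists_thickening_subset_open hDo hKD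
    filter_upwards [hbig, hev (ε / 4) (by positivity)] with i h1 h2 e he
    rw [geo_eq hD hax (hδ i) (by linarith)]
    show e ∈ (eset_finite hD (hδ i)).toFinset
    rw [hmem]
    have hd : dist (pt (δ i) (src e)) (pt (δ i) (tgt e)) ≤ 2 * δ i := by
      obtain ⟨x, y, b⟩ := e
      have := ax_pt_pt (hδ i) (u := src (x, y, b)) (v := tgt (x, y, b)) (m := 1)
        (by cases b <;> simp) (by cases b <;> simp)
      refine this.trans (le_of_eq ?_)
      push_cast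
      ring
    rcases he with he | he
    · refine ⟨hKD he, hsub ?_⟩
      rw [mem_thickening_iff]
      exact ⟨_, he, by rw [dist_comm]; linarith⟩
    · refine ⟨hsub ?_, hKD he⟩
      rw [mem_thickening_iff]
      exact ⟨_, he, by linarith⟩
  · -- near
    intro ε hε
    filter_upwards [hbig, hev (ε / 3) (by positivity)] with i h1 h2
    rw [geo_eq hD hax (hδ i) (by linarith)]
    intro F hF k hk
    obtain ⟨e, he, g1, g2⟩ := ax_near _ hF hk
    have heD := ((hmem i e).1 he).1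
    have e1 : src e = (e.1, e.2.1) := by
      obtain ⟨x, y, b⟩ := e
      rfl
    refine ⟨_, heD, ?_⟩
    rw [e1]
    refine (ax_pos_pt (hδ i) _ (m := 1) (by exact_mod_cast g1) (by exact_mod_cast g2)).trans ?_
    push_cast
    linarith
  · -- start
    rw [Metric.tendsto_nhds]
    intro ε hε
    filter_upwards [hbig, hev (ε / 6) (by positivity)] with i h1 h2
    rw [geo_eq hD hax (hδ i) (by linarith)]
    show dist (pos (δ i) ((0, ⌈y2 / δ i⌉ - 2), .ne)) _ < ε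
    have hd := hδ i
    have c1 : y2 / δ i ≤ (⌈y2 / δ i⌉ : ℝ) := Int.le_ceil _
    have c2 : (⌈y2 / δ i⌉ : ℝ) < y2 / δ i + 1 := Int.ceil_lt_add_one _
    have m1 := mul_le_mul_of_nonneg_left c1 hd.le
    have m2 := mul_le_mul_of_nonneg_left c2.le hd.le
    have e2 : δ i * (y2 / δ i) = y2 := by field_simp
    have k1 : |(pos (δ i) ((0, ⌈y2 / δ i⌉ - 2), Q4.ne)).re - (⟨0, y2⟩ : ℂ).re| ≤ δ i := by
      rw [pos_re]
      show |δ i * (((0 : ℤ) : ℝ) + 1 / 4) - 0| ≤ δ i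
      push_cast
      rw [abs_le]
      constructor <;> nlinarith
    have k2 : |(pos (δ i) ((0, ⌈y2 / δ i⌉ - 2), Q4.ne)).im - (⟨0, y2⟩ : ℂ).im| ≤ 3 * δ i := by
      rw [pos_im]
      show |δ i * (((⌈y2 / δ i⌉ - 2 : ℤ) : ℝ) + 1 + 1 / 4) - y2| ≤ 3 * δ i
      push_cast
      rw [abs_le]
      constructor <;> nlinarith
    have := dist_le_of k1 k2
    linarith
  · -- stop
    rw [Metric.tendsto_nhds]
    intro ε hε
    filter_upwards [hbig, hev (ε / 6) (by positivity)] with i h1 h2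
    rw [geo_eq hD hax (hδ i) (by linarith)]
    show dist (pos (δ i) ((0, ⌊y1 / δ i⌋), .se)) _ < ε
    have hd := hδ i
    have c1 : (⌊y1 / δ i⌋ : ℝ) ≤ y1 / δ i := Int.floor_le _
    have c2 : y1 / δ i < (⌊y1 / δ i⌋ : ℝ) + 1 := Int.lt_floor_add_one _
    have m1 := mul_le_mul_of_nonneg_left c1 hd.le
    have m2 := mul_le_mul_of_nonneg_left c2.le hd.le
    have e2 : δ i * (y1 / δ i) = y1 := by field_simp
    have k1 : |(pos (δ i) ((0, ⌊y1 / δ i⌋), Q4.se)).re - (⟨0, y1⟩ : ℂ).re| ≤ δ i := by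
      rw [pos_re]
      show |δ i * (((0 : ℤ) : ℝ) + 1 / 4) - 0| ≤ δ i
      push_cast
      rw [abs_le]
      constructor <;> nlinarith
    have k2 : |(pos (δ i) ((0, ⌊y1 / δ i⌋), Q4.se)).im - (⟨0, y1⟩ : ℂ).im| ≤ 3 * δ i := by
      rw [pos_im]
      show |δ i * (((⌊y1 / δ i⌋ : ℤ) : ℝ) + 1 + -1 / 4) - y1| ≤ 3 * δ i
      rw [abs_le]
      constructor <;> nlinarith
    have := dist_le_of k1 k2
    linarith
  · -- wired
    intro ε hε
    obtain ⟨η, hη, hclose⟩ := half_close hfc (f := fun z => z.re) Complex.continuous_re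
      (show 0 < ε / 2 by positivity)
    filter_upwards [hbig, hev (ε / 14) (by positivity), hev (η / 4) (by positivity)]
      with i h1 h2 h3
    rw [geo_eq hD hax (hδ i) (by linarith)]
    intro F hF k hk hW
    exact ax_wired (hδ i) (hmem i) (ax_near _ hF hk.le) hW (by linarith) (by linarith) hclose
  · -- free
    intro ε hε
    obtain ⟨η, hη, hclose⟩ := half_close hfc (f := fun z => -z.re) Complex.continuous_re.neg
      (show 0 < ε / 2 by positivity)
    filter_upwards [hbig, hev (ε / 14) (by positivity), hev (η / 4) (by positivity)]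
      with i h1 h2 h3
    rw [geo_eq hD hax (hδ i) (by linarith)]
    intro F hF k hk hE hW
    exact ax_free (hδ i) (hmem i) (ax_near _ hF hk.le) hE hW (by linarith) (by linarith) hclose

end

end Pool.Agent.Helper49K9.AD
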