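import Pool.Agent.Helper49K9.AD.Lim

/-!
The boundary: fixed points are not visited, dimension of the part of the trace on the boundary,
and Jordan domains.
-/

set_option autoImplicit false

namespace Pool.Agent.Helper49K9.AD

open H974 H342P H984P H984N MeasureTheory TopologicalSpace Filter Topology Metric Set
open Pool.Agent.H389R2.CD (ArS)
open scoped ENNReal NNReal

/-- A point whose small neighbourhoods are hit with small probability is not visited. -/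
theorem notMem_of {μ : ProbabilityMeasure (NonemptyCompacts ℂ)} {x : ℂ} {C ρ η : ℝ}
    (hη : 0 < η) (hρ : 0 < ρ)
    (h : ∀ s : ℝ, 0 < s → s ≤ ρ → (μ : Measure (NonemptyCompacts ℂ))
      {K | ((K : Set ℂ) ∩ ball x s).Nonempty} ≤ ENNReal.ofReal (C * (s / ρ) ^ η)) :
    ∀ᵐ K : NonemptyCompacts ℂ ∂(μ : Measure (NonemptyCompacts ℂ)), x ∉ (K : Set ℂ) := by
  rw [ae_iff, ← nonpos_iff_eq_zero]
  have h1 : Tendsto (fun s : ℝ => ENNReal.ofReal (C * (s / ρ) ^ η)) (𝓝[>] 0) (𝓝 0) := by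
    rw [← ENNReal.ofReal_zero]
    apply ENNReal.tendsto_ofReal
    have h2 : Tendsto (fun s : ℝ => C * (s / ρ) ^ η) (𝓝 0) (𝓝 (C * (0 / ρ) ^ η)) := by
      apply Tendsto.const_mul
      exact (tendsto_id.div_const ρ).rpow_const (Or.inr hη.le)
    rw [zero_div, Real.zero_rpow hη.ne', mul_zero] at h2
    exact h2.mono_left nhdsWithin_le_nhds
  refine ge_of_tendsto h1 ?_
  filter_upwards [Ioc_mem_nhdsGT hρ] with s hs
  refine le_trans (measure_mono ?_) (h s hs.1 hs.2)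
  intro K hK
  rw [Set.mem_ofPred_eq, not_not] at hK
  exact ⟨x, hK, mem_ball_self hs.1⟩

section

variable {D : Set ℂ} {a b : ℂ} {𝒟 : ℕ → Dob} {δ : ℕ → ℝ}
  {μ : ProbabilityMeasure (NonemptyCompacts ℂ)}

/-- dimension of the part away from a closed set, from a one-point estimate -/
theorem dim_away (hμ : Tendsto (fun i => (𝒟 i).law (δ i)) atTop (𝓝 μ)) {C η : ℝ} (hC : 0 < C)
    {B : Set ℂ} (hB : IsClosed B)
    (h : ∀ (z : ℂ) (ρ s : ℝ), 0 < s → s ≤ ρ → (∀ x ∈ B, x ∉ ball z ρ) →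
      ∀ᶠ i in atTop, ph (𝒟 i) (δ i) z s ≤ C * (s / ρ) ^ η)
    {S : Set ℂ} {d : ℝ} (hS : Cover S d) :
    ∀ᵐ K : NonemptyCompacts ℂ ∂(μ : Measure (NonemptyCompacts ℂ)),
      dimH ((K : Set ℂ) ∩ (S \ B)) ≤ ENNReal.ofReal (d - η) := by
  have h1 : ∀ᵐ K : NonemptyCompacts ℂ ∂(μ : Measure (NonemptyCompacts ℂ)), ∀ m : ℕ,
      dimH ((K : Set ℂ) ∩ {x ∈ S | ∀ y ∈ B, y ∉ ball x (2 * (1 / ((m:ℝ) + 1)))}) ≤
        ENNReal.ofReal (d - η) := by
    rw [ae_all_iff]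
    intro m
    have hm : (0:ℝ) < 1 / ((m:ℝ) + 1) := by positivity
    refine upper_cov (μs := fun i => (𝒟 i).law (δ i)) hμ (s := d) (η := η)
      (C := C * (1 / (1 / ((m:ℝ) + 1))) ^ η) (r0 := 1 / ((m:ℝ) + 1)) (by positivity) hm
      (hS.mono fun x hx => hx.1) ?_
    intro z r hr hr0 hne
    obtain ⟨w, hw, hwS, hwB⟩ := hne
    have h4 := h z (1 / ((m:ℝ) + 1)) r hr hr0 (by
      intro y hy hyz
      apply hwB y hy
      rw [mem_ball] at hw hyz ⊢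
      have := dist_triangle y z w
      rw [dist_comm z w] at this
      linarith)
    refine (h4.mono ?_).frequently
    intro i hi
    refine (law_ph i hi).trans (ENNReal.ofReal_le_ofReal (le_of_eq ?_))
    rw [div_eq_mul_one_div r, Real.mul_rpow hr.le (by positivity)]
    ring
  filter_upwards [h1] with K hK
  have hcov : (K : Set ℂ) ∩ (S \ B) ⊆ ⋃ m : ℕ,
      (K : Set ℂ) ∩ {x ∈ S | ∀ y ∈ B, y ∉ ball x (2 * (1 / ((m:ℝ) + 1)))} := by
    rintro x ⟨hxK, hxS, hxB⟩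
    obtain ⟨ε, hε, hball⟩ := Metric.isOpen_iff.1 hB.isOpen_compl x hxB
    obtain ⟨m, hm⟩ := exists_nat_one_div_lt (show 0 < ε / 2 by positivity)
    refine Set.mem_iUnion.2 ⟨m, hxK, hxS, ?_⟩
    intro y hy hyx
    exact hball (ball_subset_ball (by linarith) hyx) hy
  refine (dimH_mono hcov).trans ?_
  rw [dimH_iUnion]
  exact iSup_le fun m => hK m

end

/-- A connected subset of a Jordan curve which contains two points contains one of two
intermediate points. -/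
theorem jordan_sep {γ : ℝ → ℂ} (hγ : Continuous γ) (hper : γ 1 = γ 0)
    (hinj : Set.InjOn γ (Set.Ico 0 1)) {t : ℝ} (ht0 : 0 < t) (ht1 : t < 1) {K : Set ℂ}
    (hK : IsPreconnected K) (hKγ : K ⊆ γ '' Icc 0 1) (h0 : γ 0 ∈ K) (h1 : γ t ∈ K) :
    γ (t / 2) ∈ K ∨ γ ((1 + t) / 2) ∈ K := by
  set C1 := γ '' Icc (t / 2) ((1 + t) / 2) with hC1
  set C2 := γ '' (Icc 0 (t / 2) ∪ Icc ((1 + t) / 2) 1) with hC2
  have c1 : IsClosed C1 := (isCompact_Icc.image hγ).isClosed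
  have c2 : IsClosed C2 := ((isCompact_Icc.union isCompact_Icc).image hγ).isClosed
  have hsub : K ⊆ C1 ∪ C2 := by
    intro x hx
    obtain ⟨u, hu, rfl⟩ := hKγ hx
    rcases lt_or_ge u (t / 2) with h | h
    · right; exact ⟨u, Or.inl ⟨hu.1, h.le⟩, rfl⟩
    · rcases lt_or_ge u ((1 + t) / 2) with h' | h'
      · left; exact ⟨u, ⟨h, h'.le⟩, rfl⟩
      · right; exact ⟨u, Or.inr ⟨h', hu.2⟩, rfl⟩
  obtain ⟨x, hx, ⟨u, hu, hux⟩, ⟨v, hv, hvx⟩⟩ := isPreconnected_closed_iff.1 hK C1 C2 c1 c2 hsub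
    ⟨γ t, h1, t, ⟨by linarith, by linarith⟩, rfl⟩
    ⟨γ 0, h0, 0, Or.inl ⟨le_rfl, by linarith⟩, rfl⟩
  have hu01 : u ∈ Ico (0:ℝ) 1 := ⟨by linarith [hu.1], by linarith [hu.2]⟩
  have huv : γ u = γ v := by rw [hux, hvx]
  rcases hv with hv | hv
  · have hv01 : v ∈ Ico (0:ℝ) 1 := ⟨hv.1, by linarith [hv.2]⟩
    have := hinj hu01 hv01 huv
    have h3 : u = t / 2 := le_antisymm (by rw [this]; exact hv.2) hu.1
    left
    rw [← h3, hux]
    exact hx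
  · rcases hv.2.lt_or_eq with h | h
    · have hv01 : v ∈ Ico (0:ℝ) 1 := ⟨by linarith [hv.1], h⟩
      have := hinj hu01 hv01 huv
      have h3 : u = (1 + t) / 2 := le_antisymm hu.2 (by rw [this]; exact hv.1)
      right
      rw [← h3, hux]
      exact hx
    · exfalso
      rw [h, hper] at huv
      have := hinj hu01 ⟨le_rfl, one_pos⟩ huv
      linarith [hu.1]

section

variable {D : Set ℂ} {𝒟 : ℕ → Dob} {δ : ℕ → ℝ} {γ : ℝ → ℂ} {t : ℝ}
  {μ : ProbabilityMeasure (NonemptyCompacts ℂ)}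

theorem wired_arc_closed (hγ : Continuous γ) (t : ℝ) : IsClosed (γ '' Icc 0 t) :=
  (isCompact_Icc.image hγ).isClosed

theorem free_arc_closed (hγ : Continuous γ) (t : ℝ) : IsClosed (γ '' Icc t 1) :=
  (isCompact_Icc.image hγ).isClosed

theorem arcs_inter (hper : γ 1 = γ 0) (hinj : Set.InjOn γ (Set.Ico 0 1)) (ht0 : 0 < t)
    (ht1 : t < 1) {x : ℂ} (h1 : x ∈ γ '' Icc 0 t) (h2 : x ∈ γ '' Icc t 1) : x = γ 0 ∨ x = γ t := by
  obtain ⟨u, hu, rfl⟩ := h1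
  obtain ⟨v, hv, hvx⟩ := h2
  have hu01 : u ∈ Ico (0:ℝ) 1 := ⟨hu.1, by linarith [hu.2]⟩
  rcases hv.2.lt_or_eq with h | h
  · have hv01 : v ∈ Ico (0:ℝ) 1 := ⟨by linarith [hv.1], h⟩
    have := hinj hv01 hu01 hvx
    right
    have h3 : u = t := le_antisymm hu.2 (by rw [← this]; exact hv.1)
    rw [h3]
  · left
    rw [← hvx, h, hper]

/-- Fixed points of the closure of a Jordan domain are not visited. -/
theorem jordan_point {C2 : ℝ} (hC2 : 0 < C2) (hA : AnnUp C2) (hAr : ArS) (hDo : IsOpen D)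
    (hγ : Continuous γ) (hper : γ 1 = γ 0) (hinj : Set.InjOn γ (Set.Ico 0 1))
    (hfr : frontier D = γ '' Icc 0 1) (ht0 : 0 < t) (ht1 : t < 1)
    (hap : Approx D (γ 0) (γ t) 𝒟 δ) (har : Arcs (γ '' Icc 0 t) (γ '' Icc t 1) 𝒟 δ)
    (hμ : Tendsto (fun i => (𝒟 i).law (δ i)) atTop (𝓝 μ)) {x : ℂ} (hx0 : x ≠ γ 0)
    (hxt : x ≠ γ t) :
    ∀ᵐ K : NonemptyCompacts ℂ ∂(μ : Measure (NonemptyCompacts ℂ)), x ∉ (K : Set ℂ) := by
  obtain ⟨Cw, hCw, hw⟩ := hit_w hAr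
  obtain ⟨Cf, hCf, hf⟩ := hit_f hAr
  by_cases hxB : x ∈ γ '' Icc t 1
  · have hxA : x ∉ γ '' Icc 0 t := by
      intro h
      rcases arcs_inter hper hinj ht0 ht1 h hxB with h' | h'
      · exact hx0 h'
      · exact hxt h'
    obtain ⟨ε, hε, hball⟩ := Metric.isOpen_iff.1 (wired_arc_closed hγ t).isOpen_compl x hxA
    refine notMem_of (C := Cf) (η := (5:ℝ)/48) (by norm_num) hε fun s hs hsρ => ?_
    refine lim_ph hμ ?_
    refine hf D (γ 0) (γ t) 𝒟 δ _ _ hap har x ε s hs hsρ ?_ ?_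
    · exact fun h => hball h ⟨0, ⟨le_rfl, ht0.le⟩, rfl⟩
    · exact fun y hy h => hball h hy
  · obtain ⟨ε, hε, hball⟩ := Metric.isOpen_iff.1 (free_arc_closed hγ t).isOpen_compl x hxB
    refine notMem_of (C := Cw) (η := (5:ℝ)/48) (by norm_num) hε fun s hs hsρ => ?_
    refine lim_ph hμ ?_
    refine hw D (γ 0) (γ t) 𝒟 δ _ _ hap har x ε s hs hsρ ?_ ?_
    · exact fun h => hball h ⟨1, ⟨ht1.le, le_rfl⟩, hper⟩
    · exact fun y hy h => hball h hy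

/-- The trace enters the domain. -/
theorem jordan_enter {C2 : ℝ} (hC2 : 0 < C2) (hA : AnnUp C2) (hAr : ArS) (hDo : IsOpen D)
    (hγ : Continuous γ) (hper : γ 1 = γ 0) (hinj : Set.InjOn γ (Set.Ico 0 1))
    (hfr : frontier D = γ '' Icc 0 1) (ht0 : 0 < t) (ht1 : t < 1)
    (hap : Approx D (γ 0) (γ t) 𝒟 δ) (har : Arcs (γ '' Icc 0 t) (γ '' Icc t 1) 𝒟 δ)
    (hμ : Tendsto (fun i => (𝒟 i).law (δ i)) atTop (𝓝 μ)) :
    ∀ᵐ K : NonemptyCompacts ℂ ∂(μ : Measure (NonemptyCompacts ℂ)),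
      ((K : Set ℂ) ∩ D).Nonempty := by
  have i01 : (0:ℝ) ∈ Ico (0:ℝ) 1 := ⟨le_rfl, one_pos⟩
  have it : t ∈ Ico (0:ℝ) 1 := ⟨ht0.le, ht1⟩
  have i1 : t / 2 ∈ Ico (0:ℝ) 1 := ⟨by linarith, by linarith⟩
  have i2 : (1 + t) / 2 ∈ Ico (0:ℝ) 1 := ⟨by linarith, by linarith⟩
  have h1 := jordan_point hC2 hA hAr hDo hγ hper hinj hfr ht0 ht1 hap har hμ
    (x := γ (t / 2)) (fun h => by have := hinj i1 i01 h; linarith)
    (fun h => by have := hinj i1 it h; linarith)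
  have h2 := jordan_point hC2 hA hAr hDo hγ hper hinj hfr ht0 ht1 hap har hμ
    (x := γ ((1 + t) / 2)) (fun h => by have := hinj i2 i01 h; linarith)
    (fun h => by have := hinj i2 it h; linarith)
  filter_upwards [h1, h2, lim_connected hμ, lim_closure hap hμ, lim_a hap hμ, lim_b hap hμ]
    with K k1 k2 k3 k4 k5 k6
  by_contra hne
  have hsub : (K : Set ℂ) ⊆ γ '' Icc 0 1 := by
    intro x hx
    rw [← hfr, frontier, mem_diff, hDo.interior_eq]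
    exact ⟨k4 hx, fun h => hne ⟨x, hx, h⟩⟩
  rcases jordan_sep hγ hper hinj ht0 ht1 k3.isPreconnected hsub k5 k6 with h | h
  · exact k1 h
  · exact k2 h

/-- The dimension of the part of the trace on the boundary. -/
theorem jordan_bdry (hAr : ArS) (hγ : Continuous γ) (hper : γ 1 = γ 0)
    (hinj : Set.InjOn γ (Set.Ico 0 1)) (ht0 : 0 < t) (ht1 : t < 1)
    (hap : Approx D (γ 0) (γ t) 𝒟 δ) (har : Arcs (γ '' Icc 0 t) (γ '' Icc t 1) 𝒟 δ)
    (hμ : Tendsto (fun i => (𝒟 i).law (δ i)) atTop (𝓝 μ)) {S : Set ℂ} {d : ℝ} (hS : Cover S d) :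
    ∀ᵐ K : NonemptyCompacts ℂ ∂(μ : Measure (NonemptyCompacts ℂ)),
      dimH ((K : Set ℂ) ∩ S) ≤ ENNReal.ofReal (d - 5/48) := by
  obtain ⟨Cw, hCw, hw⟩ := hit_w hAr
  obtain ⟨Cf, hCf, hf⟩ := hit_f hAr
  have h1 := dim_away hμ hCw (free_arc_closed hγ t) (η := (5:ℝ)/48)
    (fun z ρ s hs hsρ hz => hw D (γ 0) (γ t) 𝒟 δ _ _ hap har z ρ s hs hsρ
      (hz _ ⟨1, ⟨ht1.le, le_rfl⟩, hper⟩) hz) hS
  have h2 := dim_away hμ hCf (wired_arc_closed hγ t) (η := (5:ℝ)/48)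
    (fun z ρ s hs hsρ hz => hf D (γ 0) (γ t) 𝒟 δ _ _ hap har z ρ s hs hsρ
      (hz _ ⟨0, ⟨le_rfl, ht0.le⟩, rfl⟩) hz) hS
  filter_upwards [h1, h2] with K k1 k2
  have hsub : (K : Set ℂ) ∩ S ⊆ ((K : Set ℂ) ∩ (S \ γ '' Icc t 1)) ∪
      (((K : Set ℂ) ∩ (S \ γ '' Icc 0 t)) ∪ ({γ 0} ∪ {γ t})) := by
    rintro x ⟨hxK, hxS⟩
    by_cases hB : x ∈ γ '' Icc t 1
    · right
      by_cases hA : x ∈ γ '' Icc 0 t
      · right
        rcases arcs_inter hper hinj ht0 ht1 hA hB with h | h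
        · left; exact h
        · right; exact h
      · left; exact ⟨hxK, hxS, hA⟩
    · left; exact ⟨hxK, hxS, hB⟩
  refine (dimH_mono hsub).trans ?_
  rw [dimH_union, dimH_union, dimH_union, dimH_singleton, dimH_singleton]
  exact max_le k1 (max_le k2 (max_le bot_le bot_le))

end

end Pool.Agent.Helper49K9.AD
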