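import Pool.Agent.Helper49K9.AD.Hit
import Pool.Agent.H984R4.NP.EnLimit

/-!
Geometry of the approximation, and hitting probabilities of balls.
-/

set_option autoImplicit false

namespace Pool.Agent.Helper49K9.AD

open H974 H342P H984P H984N Finset MeasureTheory TopologicalSpace Filter Topology Metric
open H934E (pt)

/-- The lattice vertex close to `z`. -/
noncomputable def cz (δ : ℝ) (z : ℂ) : Vtx := (⌊z.re / δ⌋, ⌊z.im / δ⌋ - 1)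

theorem cz_near {δ : ℝ} (hδ : 0 < δ) {z : ℂ} {R : ℤ} {v : Vtx} (h : Bo (cz δ z) R v) :
    dist (pt δ v) z ≤ 2 * δ * (R + 1) := by
  have e1 : z.re / δ * δ = z.re := div_mul_cancel₀ _ hδ.ne'
  have e2 : z.im / δ * δ = z.im := div_mul_cancel₀ _ hδ.ne'
  have f1 := Int.floor_le (z.re / δ)
  have f2 := Int.lt_floor_add_one (z.re / δ)
  have f3 := Int.floor_le (z.im / δ)
  have f4 := Int.lt_floor_add_one (z.im / δ)
  unfold Bo inR cz at h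
  obtain ⟨⟨h1, h2⟩, h3, h4⟩ := h
  have h1' : ((⌊z.re / δ⌋ - R : ℤ) : ℝ) ≤ v.1 := by exact_mod_cast h1
  have h2' : (v.1 : ℝ) ≤ ((⌊z.re / δ⌋ + R : ℤ) : ℝ) := by exact_mod_cast h2
  have h3' : ((⌊z.im / δ⌋ - 1 - R : ℤ) : ℝ) ≤ v.2 := by exact_mod_cast h3
  have h4' : (v.2 : ℝ) ≤ ((⌊z.im / δ⌋ - 1 + R : ℤ) : ℝ) := by exact_mod_cast h4
  push_cast at h1' h2' h3' h4'
  rw [Complex.dist_eq]
  refine (Complex.norm_le_abs_re_add_abs_im _).trans ?_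
  rw [Complex.sub_re, Complex.sub_im]
  unfold pt
  simp only
  have g1 : |δ * (v.1:ℝ) - z.re| ≤ δ * (R + 1) := by
    rw [abs_le]
    constructor <;> nlinarith
  have g2 : |δ * ((v.2:ℝ) + 1) - z.im| ≤ δ * (R + 1) := by
    rw [abs_le]
    constructor <;> nlinarith
  linarith

theorem cz_Bo {δ : ℝ} (hδ : 0 < δ) {z : ℂ} {R : ℤ} {v : Vtx} {t : ℝ} (h : dist (pt δ v) z ≤ t)
    (hR : t / δ + 1 ≤ R) : Bo (cz δ z) R v := by
  have e1 : z.re / δ * δ = z.re := div_mul_cancel₀ _ hδ.ne'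
  have e2 : z.im / δ * δ = z.im := div_mul_cancel₀ _ hδ.ne'
  have e3 : t / δ * δ = t := div_mul_cancel₀ _ hδ.ne'
  have f1 := Int.floor_le (z.re / δ)
  have f2 := Int.lt_floor_add_one (z.re / δ)
  have f3 := Int.floor_le (z.im / δ)
  have f4 := Int.lt_floor_add_one (z.im / δ)
  have g1 := ML.le_dist_re (pt δ v) z
  have g2 := ML.le_dist_im (pt δ v) z
  have g3 := g1.trans h
  have g4 := g2.trans h
  unfold pt at g3 g4
  simp only at g3 g4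
  rw [abs_le] at g3 g4
  have k1 : (v.1:ℝ) - z.re / δ ≤ t / δ := by
    rw [← mul_le_mul_iff_of_pos_right hδ]
    nlinarith
  have k2 : z.re / δ - (v.1:ℝ) ≤ t / δ := by
    rw [← mul_le_mul_iff_of_pos_right hδ]
    nlinarith
  have k3 : (v.2:ℝ) + 1 - z.im / δ ≤ t / δ := by
    rw [← mul_le_mul_iff_of_pos_right hδ]
    nlinarith
  have k4 : z.im / δ - ((v.2:ℝ) + 1) ≤ t / δ := by
    rw [← mul_le_mul_iff_of_pos_right hδ]
    nlinarith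
  unfold Bo inR cz
  simp only
  have m1 : ((⌊z.re / δ⌋ - R : ℤ) : ℝ) ≤ (v.1 : ℝ) := by push_cast; linarith
  have m2 : (v.1 : ℝ) ≤ ((⌊z.re / δ⌋ + R : ℤ) : ℝ) := by push_cast; linarith
  have m3 : ((⌊z.im / δ⌋ - 1 - R : ℤ) : ℝ) ≤ (v.2 : ℝ) := by push_cast; linarith
  have m4 : (v.2 : ℝ) ≤ ((⌊z.im / δ⌋ - 1 + R : ℤ) : ℝ) := by push_cast; linarith
  exact ⟨⟨by exact_mod_cast m1, by exact_mod_cast m2⟩, by exact_mod_cast m3, by exact_mod_cast m4⟩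

theorem pos_pt {δ : ℝ} (hδ : 0 ≤ δ) (σ : St) : dist (pos δ σ) (pt δ σ.1) ≤ δ / 2 := by
  rw [Complex.dist_eq]
  refine (Complex.norm_le_abs_re_add_abs_im _).trans ?_
  rw [Complex.sub_re, Complex.sub_im, ML.pos_re, ML.pos_im]
  unfold pt
  simp only
  have h1 := abs_le.1 (ML.qx_le σ.2)
  have h2 := abs_le.1 (ML.qy_le σ.2)
  have g1 : |δ * ((σ.1.1:ℝ) + ML.qx σ.2) - δ * (σ.1.1:ℝ)| ≤ δ / 4 := by
    rw [abs_le]
    constructor <;> nlinarith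
  have g2 : |δ * ((σ.1.2:ℝ) + 1 + ML.qy σ.2) - δ * ((σ.1.2:ℝ) + 1)| ≤ δ / 4 := by
    rw [abs_le]
    constructor <;> nlinarith
  linarith

/-! ### The trace -/

theorem mem_trace (𝒟 : Dob) (δ : ℝ) (F : Finset Edg) {k : ℕ} (hk : k ≤ 𝒟.len F) :
    pos δ (𝒟.walk F k) ∈ (𝒟.trace δ F : Set ℂ) := by
  show pos δ (𝒟.walk F k) ∈ Set.range (𝒟.curve δ F)
  unfold Dob.curve
  set N := 𝒟.len F with hN
  rcases Nat.eq_zero_or_pos N with h0 | h0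
  · have : k = 0 := by omega
    subst this
    exact ⟨0, pl_zero _ _⟩
  · have hN0 : (0:ℝ) < N := by exact_mod_cast h0
    rcases hk.lt_or_eq with h | h
    · have hkN : (k:ℝ) ≤ N := by exact_mod_cast hk
      refine ⟨⟨(k:ℝ) / N, by positivity, by rw [div_le_one hN0]; exact hkN⟩, ?_⟩
      have e1 : (k:ℝ) / N * N = k := div_mul_cancel₀ _ hN0.ne'
      rw [pl_seg h (by simp only; rw [e1]) (by simp only; rw [e1]; linarith)]
      simp only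
      rw [e1]
      simp
    · rw [h]
      exact ⟨1, pl_one _ _⟩

theorem near_trace (𝒟 : Dob) {δ : ℝ} (hδ : 0 ≤ δ) (F : Finset Edg) {z : ℂ}
    (hz : z ∈ (𝒟.trace δ F : Set ℂ)) :
    ∃ k ≤ 𝒟.len F, dist z (pos δ (𝒟.walk F k)) ≤ δ / 2 := by
  obtain ⟨s, rfl⟩ := hz
  refine pl_close (p := fun k => pos δ (𝒟.walk F k)) (by linarith) ?_ s
  intro k _
  show dist (pos δ (𝒟.walk F k)) (pos δ (𝒟.walk F (k + 1))) ≤ δ / 2
  rw [walk_succ]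
  exact pos_nxt hδ _ _

theorem trace_hit (𝒟 : Dob) {δ : ℝ} (hδ : 0 < δ) (F : Finset Edg) {z : ℂ} {s : ℝ} {r : ℤ}
    (hr : s / δ + 2 ≤ r) (h : ((𝒟.trace δ F : Set ℂ) ∩ ball z s).Nonempty) :
    ∃ k ≤ 𝒟.len F, Bo (cz δ z) r (𝒟.walk F k).1 := by
  obtain ⟨w, hw, hw2⟩ := h
  obtain ⟨k, hk, hk2⟩ := near_trace 𝒟 hδ.le F hw
  refine ⟨k, hk, cz_Bo hδ (t := s + δ) ?_ ?_⟩
  · have h1 := pos_pt hδ.le (𝒟.walk F k)
    rw [mem_ball] at hw2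
    have h2 := dist_triangle4 (pt δ (𝒟.walk F k).1) (pos δ (𝒟.walk F k)) w z
    rw [dist_comm (pt δ (𝒟.walk F k).1) (pos δ (𝒟.walk F k)), dist_comm (pos δ (𝒟.walk F k)) w] at h2
    linarith
  · rw [add_div, div_self hδ.ne']
    linarith

/-! ### Scales -/

theorem scales {s ρ δ : ℝ} (hδ : 0 < δ) (hδs : 8 * δ ≤ s) (hsρ : 64 * s ≤ ρ) :
    ∃ r R : ℕ, 3 * (r + 1) ≤ R ∧ s / δ + 2 ≤ ((r:ℤ):ℝ) ∧ 2 * δ * ((R:ℝ) + 4) ≤ ρ / 2 ∧
      ((r + 1 : ℕ) : ℝ) / R ≤ 16 * (s / ρ) := by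
  have q1 : 8 ≤ s / δ := by rw [le_div_iff₀ hδ]; exact hδs
  have q2 : 64 * (s / δ) ≤ ρ / δ := by
    rw [← mul_div_assoc]; exact div_le_div_of_nonneg_right hsρ hδ.le
  have hs : 0 < s := by linarith
  have hρ : 0 < ρ := by linarith
  have r1 : (⌈s / δ⌉₊ : ℝ) < s / δ + 1 := Nat.ceil_lt_add_one (by positivity)
  have r2 : s / δ ≤ (⌈s / δ⌉₊ : ℝ) := Nat.le_ceil _
  have e1 : ρ / (4 * δ) = (ρ / δ) / 4 := by rw [div_div]; congr 1; ring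
  have n1 : (⌊ρ / (4 * δ)⌋₊ : ℝ) ≤ ρ / (4 * δ) := Nat.floor_le (by positivity)
  have n2 : ρ / (4 * δ) < (⌊ρ / (4 * δ)⌋₊ : ℝ) + 1 := Nat.lt_floor_add_one _
  have hn3 : 5 ≤ ⌊ρ / (4 * δ)⌋₊ := by
    rw [Nat.le_floor_iff (by positivity)]
    push_cast
    linarith
  have nR : ((⌊ρ / (4 * δ)⌋₊ - 5 : ℕ) : ℝ) = (⌊ρ / (4 * δ)⌋₊ : ℝ) - 5 := by
    rw [Nat.cast_sub hn3]; norm_num
  have hRpos : (0:ℝ) < ((⌊ρ / (4 * δ)⌋₊ - 5 : ℕ) : ℝ) := by rw [nR]; linarith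
  refine ⟨⌈s / δ⌉₊ + 2, ⌊ρ / (4 * δ)⌋₊ - 5, ?_, ?_, ?_, ?_⟩
  · have : ((3 * (⌈s / δ⌉₊ + 2 + 1) : ℕ) : ℝ) ≤ ((⌊ρ / (4 * δ)⌋₊ - 5 : ℕ) : ℝ) := by
      rw [nR]
      push_cast
      linarith
    exact_mod_cast this
  · push_cast
    linarith
  · rw [nR]
    have : 2 * δ * ((⌊ρ / (4 * δ)⌋₊ : ℝ) - 5 + 4) ≤ 2 * δ * (ρ / (4 * δ)) :=
      mul_le_mul_of_nonneg_left (by linarith) (by positivity)
    refine this.trans (le_of_eq ?_)
    field_simp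
    ring
  · rw [div_le_iff₀ hRpos, nR]
    have e2 : s / δ + 4 ≤ 2 * (s / δ) := by linarith
    have e3 : ρ / δ / 8 ≤ (⌊ρ / (4 * δ)⌋₊ : ℝ) - 5 := by
      have : 64 * 8 ≤ ρ / δ := by linarith
      linarith
    have e4 : 16 * (s / ρ) * (ρ / δ / 8) = 2 * (s / δ) := by
      field_simp
      ring
    calc ((⌈s / δ⌉₊ + 2 + 1 : ℕ) : ℝ) ≤ s / δ + 4 := by push_cast; linarith
      _ ≤ 2 * (s / δ) := e2
      _ = 16 * (s / ρ) * (ρ / δ / 8) := e4.symm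
      _ ≤ 16 * (s / ρ) * ((⌊ρ / (4 * δ)⌋₊ : ℝ) - 5) :=
          mul_le_mul_of_nonneg_left e3 (by positivity)

theorem pow16 {x y η : ℝ} (hx : 0 ≤ x) (hη : 0 < η) (hη1 : η ≤ 1) (hy : 0 ≤ y)
    (h : x ≤ 16 * y) : x ^ η ≤ 16 * y ^ η := by
  calc x ^ η ≤ (16 * y) ^ η := Real.rpow_le_rpow hx h hη.le
    _ = 16 ^ η * y ^ η := Real.mul_rpow (by norm_num) hy
    _ ≤ 16 * y ^ η := by
        apply mul_le_mul_of_nonneg_right _ (Real.rpow_nonneg hy _)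
        calc (16:ℝ) ^ η ≤ 16 ^ (1:ℝ) := Real.rpow_le_rpow_of_exponent_le (by norm_num) hη1
          _ = 16 := Real.rpow_one _

theorem triv64 {s ρ η : ℝ} (hs : 0 < s) (hsρ : s ≤ ρ) (hη : 0 < η) (hη1 : η ≤ 1)
    (h : ¬ 64 * s ≤ ρ) : 1 ≤ 64 * (s / ρ) ^ η := by
  push Not at h
  have hρ : 0 < ρ := by linarith
  have e1 : (1 : ℝ) / 64 ≤ s / ρ := by
    rw [div_le_div_iff₀ (by norm_num) hρ]; linarith
  have e2 : (1 : ℝ) / 64 ≤ (s / ρ) ^ η := by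
    calc (1 : ℝ) / 64 ≤ s / ρ := e1
      _ = (s / ρ) ^ (1 : ℝ) := (Real.rpow_one _).symm
      _ ≤ (s / ρ) ^ η := by
        apply Real.rpow_le_rpow_of_exponent_ge (by positivity) _ hη1
        rw [div_le_one hρ]; exact hsρ
  linarith

/-- The event that the trace meets a ball. -/
noncomputable def ph (𝒟 : Dob) (δ : ℝ) (z : ℂ) (s : ℝ) : ℝ :=
  P 𝒟.E (fun F => ((𝒟.trace δ F : Set ℂ) ∩ ball z s).Nonempty)

section

variable {D : Set ℂ} {a b : ℂ} {𝒟 : ℕ → Dob} {δ : ℕ → ℝ}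

/-- The starting point is not close to `z`. -/
theorem start_far {i : ℕ} (hδ : 0 < δ i) {z : ℂ} {ρ : ℝ} {R : ℕ}
    (hR : 2 * δ i * ((R:ℝ) + 4) ≤ ρ / 2)
    (h1 : dist (pos (δ i) (𝒟 i).a) a < ρ / 8) (h2 : δ i < ρ / 8) (ha : a ∉ ball z ρ) :
    ¬ Bo (cz (δ i) z) (R + 1) (𝒟 i).a.1 := by
  intro h
  apply ha
  have h3 := cz_near hδ h
  have h4 := pos_pt hδ.le (𝒟 i).a
  rw [mem_ball]
  have h5 := dist_triangle4 a (pos (δ i) (𝒟 i).a) (pt (δ i) (𝒟 i).a.1) z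
  rw [dist_comm a (pos (δ i) (𝒟 i).a)] at h5
  push_cast at h3
  nlinarith

/-- **Interior estimate.** -/
theorem hit_int {C2 : ℝ} (hC2 : 0 < C2) (hA : AnnUp C2) : ∀ (D : Set ℂ) (a b : ℂ)
    (𝒟 : ℕ → Dob) (δ : ℕ → ℝ), Approx D a b 𝒟 δ → a ∉ D → ∀ (z : ℂ) (ρ s : ℝ), 0 < s → s ≤ ρ →
    ball z ρ ⊆ D → ∀ᶠ i in atTop, ph (𝒟 i) (δ i) z s ≤ (16 * C2 + 64) * (s / ρ) ^ (1/4 : ℝ) := by
  intro D a b 𝒟 δ hap haD z ρ s hs hsρ hball
  have hρ : 0 < ρ := by linarith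
  have hx : 0 ≤ (s / ρ) ^ (1/4 : ℝ) := by positivity
  by_cases h64 : 64 * s ≤ ρ
  swap
  · apply Eventually.of_forall
    intro i
    have h1 := triv64 (η := 1/4) hs hsρ (by norm_num) (by norm_num) h64
    have h2 : ph (𝒟 i) (δ i) z s ≤ 1 := Pr_le_one two_ok _ _
    nlinarith
  have hK : closedBall z (3 * ρ / 4) ⊆ D := (closedBall_subset_ball (by linarith)).trans hball
  have haz : a ∉ ball z ρ := fun h => haD (hball h)
  filter_upwards [hap.inner _ (isCompact_closedBall z _) hK,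
    hap.mesh.eventually_lt_const (show (0:ℝ) < s / 8 by positivity),
    (Metric.tendsto_nhds.1 hap.start) (ρ / 8) (by positivity)] with i h1 h2 h3
  have hδ := hap.pos i
  obtain ⟨r, R, k1, k2, k3, k4⟩ := scales hδ (by linarith : 8 * δ i ≤ s) h64
  have hI : In (𝒟 i) (cz (δ i) z) (R + 2) := by
    intro e he
    apply h1
    have key : ∀ v : Vtx, Bo (cz (δ i) z) (R + 2) v → pt (δ i) v ∈ closedBall z (3 * ρ / 4) := by
      intro v hv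
      rw [mem_closedBall]
      have := cz_near hδ hv
      push_cast at this
      nlinarith
    exact he.imp (key _) (key _)
  have h0 := start_far hδ (z := z) k3 h3 (by linarith) haz
  have h4 := hit_bulk hA (r := r) (R := R) (by omega) hI h0
  have h5 : ph (𝒟 i) (δ i) z s ≤ P (𝒟 i).E (fun F => ∃ k ≤ (𝒟 i).len F,
      Bo (cz (δ i) z) r ((𝒟 i).walk F k).1) :=
    Pr_mono two_ok fun F _ hF => trace_hit (𝒟 i) hδ F k2 hF
  have h6 := pow16 (η := 1/4) (by positivity) (by norm_num) (by norm_num)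
    (by positivity : 0 ≤ s / ρ) k4
  have h7 : C2 * (((r + 1 : ℕ) : ℝ) / R) ^ (1/4 : ℝ) ≤ C2 * (16 * (s / ρ) ^ (1/4 : ℝ)) :=
    mul_le_mul_of_nonneg_left h6 hC2.le
  nlinarith

/-- **Boundary estimate**, far from the free arc. -/
theorem hit_w (hAr : Pool.Agent.H389R2.CD.ArS) : ∃ C : ℝ, 0 < C ∧ ∀ (D : Set ℂ) (a b : ℂ)
    (𝒟 : ℕ → Dob) (δ : ℕ → ℝ) (A B : Set ℂ), Approx D a b 𝒟 δ → Arcs A B 𝒟 δ →
    ∀ (z : ℂ) (ρ s : ℝ), 0 < s → s ≤ ρ → a ∉ ball z ρ → (∀ x ∈ B, x ∉ ball z ρ) →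
    ∀ᶠ i in atTop, ph (𝒟 i) (δ i) z s ≤ C * (s / ρ) ^ ((5:ℝ) / 48) := by
  obtain ⟨C1, hC1, hC⟩ := one_darm hAr
  refine ⟨16 * C1 + 64, by positivity, ?_⟩
  intro D a b 𝒟 δ A B hap har z ρ s hs hsρ haz hBz
  have hρ : 0 < ρ := by linarith
  have hx : 0 ≤ (s / ρ) ^ ((5:ℝ) / 48) := by positivity
  by_cases h64 : 64 * s ≤ ρ
  swap
  · apply Eventually.of_forall
    intro i
    have h1 := triv64 (η := (5:ℝ)/48) hs hsρ (by norm_num) (by norm_num) h64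
    have h2 : ph (𝒟 i) (δ i) z s ≤ 1 := Pr_le_one two_ok _ _
    nlinarith
  filter_upwards [har.free (ρ / 8) (by positivity),
    hap.mesh.eventually_lt_const (show (0:ℝ) < s / 8 by positivity),
    (Metric.tendsto_nhds.1 hap.start) (ρ / 8) (by positivity)] with i h1 h2 h3
  have hδ := hap.pos i
  obtain ⟨r, R, k1, k2, k3, k4⟩ := scales hδ (by linarith : 8 * δ i ≤ s) h64
  have h0 := start_far hδ (z := z) k3 h3 (by linarith) haz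
  have hI : ∀ F ⊆ (𝒟 i).E, ∀ k < (𝒟 i).len F, Bo (cz (δ i) z) (R + 2) ((𝒟 i).walk F k).1 →
      ae ((𝒟 i).walk F k) ∈ (𝒟 i).E ∨ ae ((𝒟 i).walk F k) ∈ (𝒟 i).W := by
    intro F hF k hk hbo
    by_contra hcon
    push Not at hcon
    obtain ⟨x, hxB, hx2⟩ := h1 F hF k hk hcon.1 hcon.2
    apply hBz x hxB
    rw [mem_ball]
    have h4 := cz_near hδ hbo
    have h5 := pos_pt hδ.le ((𝒟 i).walk F k)
    have h6 := dist_triangle4 x (pos (δ i) ((𝒟 i).walk F k)) (pt (δ i) ((𝒟 i).walk F k).1) z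
    rw [dist_comm x (pos (δ i) ((𝒟 i).walk F k))] at h6
    push_cast at h4
    nlinarith
  have h4 := hit_wired hC (r := r) (R := R) k1 h0 hI
  have h5 : ph (𝒟 i) (δ i) z s ≤ P (𝒟 i).E (fun F => ∃ k ≤ (𝒟 i).len F,
      Bo (cz (δ i) z) r ((𝒟 i).walk F k).1) :=
    Pr_mono two_ok fun F _ hF => trace_hit (𝒟 i) hδ F k2 hF
  have h6 := pow16 (η := (5:ℝ)/48) (by positivity) (by norm_num) (by norm_num)
    (by positivity : 0 ≤ s / ρ) k4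
  have h7 : C1 * (((r + 1 : ℕ) : ℝ) / R) ^ ((5:ℝ)/48) ≤ C1 * (16 * (s / ρ) ^ ((5:ℝ)/48)) :=
    mul_le_mul_of_nonneg_left h6 hC1.le
  nlinarith

/-- **Boundary estimate**, far from the wired arc. -/
theorem hit_f (hAr : Pool.Agent.H389R2.CD.ArS) : ∃ C : ℝ, 0 < C ∧ ∀ (D : Set ℂ) (a b : ℂ)
    (𝒟 : ℕ → Dob) (δ : ℕ → ℝ) (A B : Set ℂ), Approx D a b 𝒟 δ → Arcs A B 𝒟 δ →
    ∀ (z : ℂ) (ρ s : ℝ), 0 < s → s ≤ ρ → a ∉ ball z ρ → (∀ x ∈ A, x ∉ ball z ρ) →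
    ∀ᶠ i in atTop, ph (𝒟 i) (δ i) z s ≤ C * (s / ρ) ^ ((5:ℝ) / 48) := by
  obtain ⟨C1, hC1, hC⟩ := one_arm hAr
  refine ⟨16 * C1 + 64, by positivity, ?_⟩
  intro D a b 𝒟 δ A B hap har z ρ s hs hsρ haz hAz
  have hρ : 0 < ρ := by linarith
  have hx : 0 ≤ (s / ρ) ^ ((5:ℝ) / 48) := by positivity
  by_cases h64 : 64 * s ≤ ρ
  swap
  · apply Eventually.of_forall
    intro i
    have h1 := triv64 (η := (5:ℝ)/48) hs hsρ (by norm_num) (by norm_num) h64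
    have h2 : ph (𝒟 i) (δ i) z s ≤ 1 := Pr_le_one two_ok _ _
    nlinarith
  filter_upwards [har.wired (ρ / 8) (by positivity),
    hap.mesh.eventually_lt_const (show (0:ℝ) < s / 8 by positivity),
    (Metric.tendsto_nhds.1 hap.start) (ρ / 8) (by positivity)] with i h1 h2 h3
  have hδ := hap.pos i
  obtain ⟨r, R, k1, k2, k3, k4⟩ := scales hδ (by linarith : 8 * δ i ≤ s) h64
  have h0 := start_far hδ (z := z) k3 h3 (by linarith) haz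
  have hI : ∀ F ⊆ (𝒟 i).E, ∀ k < (𝒟 i).len F, Bo (cz (δ i) z) (R + 2) ((𝒟 i).walk F k).1 →
      ae ((𝒟 i).walk F k) ∉ (𝒟 i).W := by
    intro F hF k hk hbo hcon
    obtain ⟨x, hxA, hx2⟩ := h1 F hF k hk hcon
    apply hAz x hxA
    rw [mem_ball]
    have h4 := cz_near hδ hbo
    have h5 := pos_pt hδ.le ((𝒟 i).walk F k)
    have h6 := dist_triangle4 x (pos (δ i) ((𝒟 i).walk F k)) (pt (δ i) ((𝒟 i).walk F k).1) z
    rw [dist_comm x (pos (δ i) ((𝒟 i).walk F k))] at h6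
    push_cast at h4
    nlinarith
  have h4 := hit_free hC (r := r) (R := R) k1 h0 hI
  have h5 : ph (𝒟 i) (δ i) z s ≤ P (𝒟 i).E (fun F => ∃ k ≤ (𝒟 i).len F,
      Bo (cz (δ i) z) r ((𝒟 i).walk F k).1) :=
    Pr_mono two_ok fun F _ hF => trace_hit (𝒟 i) hδ F k2 hF
  have h6 := pow16 (η := (5:ℝ)/48) (by positivity) (by norm_num) (by norm_num)
    (by positivity : 0 ≤ s / ρ) k4
  have h7 : C1 * (((r + 1 : ℕ) : ℝ) / R) ^ ((5:ℝ)/48) ≤ C1 * (16 * (s / ρ) ^ ((5:ℝ)/48)) :=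
    mul_le_mul_of_nonneg_left h6 hC1.le
  nlinarith

end

end Pool.Agent.Helper49K9.AD
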