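import Pool.Agent.H389R2.CD.Fin

/-!
Upper bound for the dimension of a limit of random compact sets, from a covering bound and a
one-point estimate; connectedness of limits.
-/

set_option autoImplicit false

namespace Pool.Agent.Helper49K9.AD

open MeasureTheory TopologicalSpace Filter Topology Metric Set
open Pool.Agent.H389R2.Dim
open scoped ENNReal NNReal

/-- `A` is covered by at most `M r ^ (-s)` balls of radius `r`, for all `0 < r ≤ 1`. -/
def Cover (A : Set ℂ) (s : ℝ) : Prop := ∃ M : ℝ, 0 ≤ M ∧ ∀ r : ℝ, 0 < r → r ≤ 1 →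
  ∃ T : Finset ℂ, (T.card : ℝ) ≤ M * r ^ (-s) ∧ A ⊆ ⋃ x ∈ T, ball x r

theorem Cover.mono {A A' : Set ℂ} {s : ℝ} (h : A' ⊆ A) (hA : Cover A s) : Cover A' s := by
  obtain ⟨M, hM, h1⟩ := hA
  refine ⟨M, hM, fun r hr hr1 => ?_⟩
  obtain ⟨T, hT, hT2⟩ := h1 r hr hr1
  exact ⟨T, hT, h.trans hT2⟩

theorem ediam_ball_le' (z : ℂ) {r : ℝ} (_hr : 0 < r) :
    ediam (ball z r) ≤ ENNReal.ofReal (2 * r) := by
  apply ediam_le
  intro x hx y hy
  rw [edist_dist]
  apply ENNReal.ofReal_le_ofReal
  rw [mem_ball] at hx hy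
  have := dist_triangle x z y
  rw [dist_comm z y] at this
  linarith

theorem upper_cov {μs : ℕ → ProbabilityMeasure (NonemptyCompacts ℂ)}
    {μ : ProbabilityMeasure (NonemptyCompacts ℂ)} (hμ : Tendsto μs atTop (𝓝 μ)) {A : Set ℂ}
    {s η C r0 : ℝ} (hC : 0 < C) (hr0 : 0 < r0) (hcov : Cover A s)
    (h : ∀ z : ℂ, ∀ r : ℝ, 0 < r → r ≤ r0 → (ball z r ∩ A).Nonempty → ∃ᶠ n in atTop,
      (μs n : Measure (NonemptyCompacts ℂ)) {K | ((K : Set ℂ) ∩ ball z r).Nonempty} ≤
        ENNReal.ofReal (C * r ^ η)) :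
    ∀ᵐ K : NonemptyCompacts ℂ ∂(μ : Measure (NonemptyCompacts ℂ)),
      dimH ((K : Set ℂ) ∩ A) ≤ ENNReal.ofReal (s - η) := by
  classical
  obtain ⟨M, hM, hcov⟩ := hcov
  have main : ∀ t : ℝ, s - η < t → 0 < t → ∀ᵐ K : NonemptyCompacts ℂ
      ∂(μ : Measure (NonemptyCompacts ℂ)), dimH ((K : Set ℂ) ∩ A) ≤ ENNReal.ofReal t := by
    intro t ht ht0
    set r1 : ℝ := min r0 1 with hr1
    have hr10 : 0 < r1 := lt_min hr0 one_pos
    set q : ℕ → ℝ := fun m => r1 * (1 / 2 : ℝ) ^ m with hq
    have hq0 : ∀ m, 0 < q m := fun m => by rw [hq]; positivity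
    have hqs : ∀ m, q m ≤ r1 := by
      intro m
      rw [hq]
      have : (1 / 2 : ℝ) ^ m ≤ 1 := pow_le_one₀ (by norm_num) (by norm_num)
      nlinarith
    have hqlim : Tendsto q atTop (𝓝 0) := by
      have := (tendsto_pow_atTop_nhds_zero_of_lt_one (r := (1 / 2 : ℝ)) (by norm_num)
        (by norm_num)).const_mul r1
      rwa [mul_zero] at this
    choose! T hT1 hT2 using fun m => hcov (q m) (hq0 m) ((hqs m).trans (min_le_right _ _))
    set U : ∀ m, {x // x ∈ T m} → Set ℂ := fun m x =>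
      if (ball (x : ℂ) (q m) ∩ A).Nonempty then ball (x : ℂ) (q m) else ∅ with hU
    have hUd : ∀ m x, ediam (U m x) ≤ ENNReal.ofReal (2 * q m) := by
      intro m x
      rw [hU]
      simp only
      split_ifs
      · exact ediam_ball_le' _ (hq0 m)
      · rw [ediam_empty]; exact bot_le
    refine upper_of_tendsto ht0 hμ U ?_ (fun m => ENNReal.ofReal (2 * q m)) ?_ hUd ?_
      (fun m _ => ENNReal.ofReal (C * (q m) ^ η)) ?_ ?_
    · intro m x
      rw [hU]
      simp only
      split_ifs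
      · exact isOpen_ball
      · exact isOpen_empty
    · have := (hqlim.const_mul 2)
      rw [mul_zero] at this
      rw [← ENNReal.ofReal_zero]
      exact ENNReal.tendsto_ofReal this
    · intro m z hz
      obtain ⟨x, hx, hzx⟩ := Set.mem_iUnion₂.mp (hT2 m hz)
      refine Set.mem_iUnion.mpr ⟨⟨x, hx⟩, ?_⟩
      rw [hU]
      simp only
      rw [if_pos ⟨z, hzx, hz⟩]
      exact hzx
    · intro m x
      by_cases h1 : (ball (x : ℂ) (q m) ∩ A).Nonempty
      · refine (h x (q m) (hq0 m) ((hqs m).trans (min_le_left _ _)) h1).mono ?_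
        intro n hn
        rw [hU]
        simp only
        rw [if_pos h1]
        exact hn
      · apply Frequently.of_forall
        intro n
        rw [hU]
        simp only
        rw [if_neg h1]
        have : {K : NonemptyCompacts ℂ | ((K : Set ℂ) ∩ (∅ : Set ℂ)).Nonempty} = ∅ := by
          ext K
          simp
        rw [this, measure_empty]
        exact bot_le
    · have hbound : ∀ m, ∑ x : {x // x ∈ T m}, ediam (U m x) ^ t *
          ENNReal.ofReal (C * (q m) ^ η) ≤
          ENNReal.ofReal (M * (2 ^ t * C) * (q m) ^ (t - (s - η))) := by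
        intro m
        have hm := hq0 m
        have h1 : ∀ x ∈ (Finset.univ : Finset {x // x ∈ T m}), ediam (U m x) ^ t *
            ENNReal.ofReal (C * (q m) ^ η) ≤
            ENNReal.ofReal ((2 * q m) ^ t * (C * (q m) ^ η)) := by
          intro x _
          rw [ENNReal.ofReal_mul (p := (2 * q m) ^ t) (by positivity)]
          refine mul_le_mul' ?_ le_rfl
          rw [← ENNReal.ofReal_rpow_of_pos (by positivity)]
          exact ENNReal.rpow_le_rpow (hUd m x) ht0.le
        refine (Finset.sum_le_sum h1).trans ?_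
        rw [Finset.sum_const, Finset.card_univ, Fintype.card_coe, nsmul_eq_mul,
          ← ENNReal.ofReal_natCast, ← ENNReal.ofReal_mul (by positivity)]
        apply ENNReal.ofReal_le_ofReal
        calc ((T m).card : ℝ) * ((2 * q m) ^ t * (C * (q m) ^ η))
            ≤ (M * (q m) ^ (-s)) * ((2 * q m) ^ t * (C * (q m) ^ η)) :=
              mul_le_mul_of_nonneg_right (hT1 m) (by positivity)
          _ = M * (2 ^ t * C) * ((q m) ^ (-s) * (q m) ^ t * (q m) ^ η) := by
              rw [Real.mul_rpow (by norm_num) hm.le]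
              ring
          _ = _ := by
              congr 1
              rw [← Real.rpow_add hm, ← Real.rpow_add hm]
              congr 1
              ring
      have hl : Tendsto (fun m => ENNReal.ofReal
          (M * (2 ^ t * C) * (q m) ^ (t - (s - η)))) atTop (𝓝 0) := by
        rw [← ENNReal.ofReal_zero]
        apply ENNReal.tendsto_ofReal
        have h2 : Tendsto (fun m => (q m) ^ (t - (s - η))) atTop (𝓝 0) := by
          have := hqlim.rpow_const (p := t - (s - η)) (Or.inr (by linarith))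
          rwa [Real.zero_rpow (by linarith)] at this
        have := h2.const_mul (M * (2 ^ t * C))
        rwa [mul_zero] at this
      exact tendsto_of_tendsto_of_tendsto_of_le_of_le tendsto_const_nhds hl
        (fun _ => bot_le) hbound
  have hall : ∀ᵐ K : NonemptyCompacts ℂ ∂(μ : Measure (NonemptyCompacts ℂ)),
      ∀ m : ℕ, dimH ((K : Set ℂ) ∩ A) ≤ ENNReal.ofReal (max (s - η) 0 + 1 / ((m : ℝ) + 1)) := by
    rw [ae_all_iff]
    intro m
    have h0 : (0 : ℝ) < 1 / ((m : ℝ) + 1) := by positivity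
    apply main
    · have := le_max_left (s - η) 0
      linarith
    · have := le_max_right (s - η) 0
      linarith
  filter_upwards [hall] with K hK
  have e : ENNReal.ofReal (s - η) = ENNReal.ofReal (max (s - η) 0) := by
    rcases le_total (s - η) 0 with h1 | h1
    · rw [max_eq_right h1, ENNReal.ofReal_of_nonpos h1, ENNReal.ofReal_zero]
    · rw [max_eq_left h1]
  rw [e]
  have h1 : Tendsto (fun m : ℕ => ENNReal.ofReal (max (s - η) 0 + 1 / ((m : ℝ) + 1))) atTop
      (𝓝 (ENNReal.ofReal (max (s - η) 0))) := by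
    apply ENNReal.tendsto_ofReal
    have := (tendsto_one_div_add_atTop_nhds_zero_nat (𝕜 := ℝ)).const_add (max (s - η) 0)
    rwa [add_zero] at this
  exact ge_of_tendsto' h1 hK

/-- Bounded sets are covered with exponent `2`. -/
theorem cover_bounded {A : Set ℂ} (hA : Bornology.IsBounded A) : Cover A 2 := by
  classical
  obtain ⟨M0, hM0⟩ := isBounded_iff_forall_norm_le.1 hA
  set M : ℝ := max M0 1 with hM
  have hM1 : 1 ≤ M := le_max_right _ _
  refine ⟨(4 * M + 3) ^ 2, by positivity, fun r hr hr1 => ?_⟩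
  set q : ℝ := r / 2 with hq
  have hq0 : 0 < q := by positivity
  set N : ℕ := ⌈2 * M / q⌉₊ + 1 with hN
  refine ⟨(Finset.range N ×ˢ Finset.range N).image
    (fun i => (⟨-M + (i.1 : ℕ) * q, -M + (i.2 : ℕ) * q⟩ : ℂ)), ?_, ?_⟩
  · have h1 : (((Finset.range N ×ˢ Finset.range N).image
      (fun i => (⟨-M + (i.1 : ℕ) * q, -M + (i.2 : ℕ) * q⟩ : ℂ))).card : ℝ) ≤ (N : ℝ) * N := by
      have := Finset.card_image_le (s := Finset.range N ×ˢ Finset.range N)
        (f := fun i => (⟨-M + (i.1 : ℕ) * q, -M + (i.2 : ℕ) * q⟩ : ℂ))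
      rw [Finset.card_product, Finset.card_range] at this
      exact_mod_cast this
    refine h1.trans ?_
    have h2 : (N : ℝ) ≤ (4 * M + 3) / r := by
      rw [hN]
      push_cast
      have h3 : (⌈2 * M / q⌉₊ : ℝ) < 2 * M / q + 1 := Nat.ceil_lt_add_one (by positivity)
      have h4 : 1 ≤ 1 / r := by rw [le_div_iff₀ hr]; linarith
      have h5 : 2 * M / q = 4 * M / r := by rw [hq]; field_simp; ring
      have h6 : (4 * M + 3) / r = 4 * M / r + 3 * (1 / r) := by ring
      rw [h6]
      linarith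
    have h3 : (4 * M + 3) ^ 2 * r ^ (-2 : ℝ) = ((4 * M + 3) / r) * ((4 * M + 3) / r) := by
      rw [Real.rpow_neg hr.le, Real.rpow_two]
      field_simp
    rw [h3]
    have : (0 : ℝ) ≤ N := Nat.cast_nonneg _
    exact mul_le_mul h2 h2 this (this.trans h2)
  · intro z hz
    have h1 := (hM0 z hz).trans (le_max_left M0 1)
    rw [← hM] at h1
    have h2 := abs_le.1 ((Complex.abs_re_le_norm z).trans h1)
    have h3 := abs_le.1 ((Complex.abs_im_le_norm z).trans h1)
    have key : ∀ x : ℝ, -M ≤ x → x ≤ M → ∃ i ∈ Finset.range N, |x - (-M + (i : ℕ) * q)| < q := by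
      intro x hx1 hx2
      have h3 : 0 ≤ (x + M) / q := div_nonneg (by linarith) hq0.le
      have h4 : ⌊(x + M) / q⌋₊ < N := by
        have h5 : ⌊(x + M) / q⌋₊ ≤ ⌈2 * M / q⌉₊ := by
          refine (Nat.floor_le_floor ?_).trans (Nat.floor_le_ceil _)
          exact div_le_div_of_nonneg_right (by linarith) hq0.le
        omega
      refine ⟨_, Finset.mem_range.2 h4, ?_⟩
      have h6 := Nat.floor_le h3
      have h7 := Nat.lt_floor_add_one ((x + M) / q)
      rw [le_div_iff₀ hq0] at h6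
      rw [div_lt_iff₀ hq0] at h7
      rw [abs_lt]
      constructor <;> nlinarith
    obtain ⟨i, hi, hi2⟩ := key z.re h2.1 h2.2
    obtain ⟨j, hj, hj2⟩ := key z.im h3.1 h3.2
    refine Set.mem_iUnion₂.2 ⟨_, Finset.mem_image_of_mem _ (Finset.mem_product.2 ⟨hi, hj⟩ :
      (i, j) ∈ Finset.range N ×ˢ Finset.range N), ?_⟩
    rw [mem_ball, Complex.dist_eq]
    refine (Complex.norm_le_abs_re_add_abs_im _).trans_lt ?_
    rw [Complex.sub_re, Complex.sub_im]
    simp only
    have : r = q + q := by rw [hq]; ring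
    linarith

/-! ### Connected limits -/

theorem isOpen_disconnected :
    IsOpen {K : NonemptyCompacts ℂ | ¬ IsPreconnected (K : Set ℂ)} := by
  rw [isOpen_iff_mem_nhds]
  intro K hK
  rw [Set.mem_ofPred_eq, isPreconnected_iff_subset_of_fully_disjoint_closed K.isCompact.isClosed] at hK
  push Not at hK
  obtain ⟨u, v, hu, hv, hsub, hdis, hKu, hKv⟩ := hK
  obtain ⟨U, V, hU, hV, huU, hvV, hUV⟩ := normal_separation hu hv hdis
  have h1 : IsOpen {L : NonemptyCompacts ℂ | (L : Set ℂ) ⊆ U ∪ V} :=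
    NonemptyCompacts.isOpen_subsets_of_isOpen (hU.union hV)
  have h2 : IsOpen {L : NonemptyCompacts ℂ | ((L : Set ℂ) ∩ U).Nonempty} :=
    NonemptyCompacts.isOpen_inter_nonempty_of_isOpen hU
  have h3 : IsOpen {L : NonemptyCompacts ℂ | ((L : Set ℂ) ∩ V).Nonempty} :=
    NonemptyCompacts.isOpen_inter_nonempty_of_isOpen hV
  refine Filter.mem_of_superset (((h1.inter h2).inter h3).mem_nhds ⟨⟨?_, ?_⟩, ?_⟩) ?_
  · exact hsub.trans (Set.union_subset_union huU hvV)
  · obtain ⟨x, hx, hxv⟩ := Set.not_subset.1 hKv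
    refine ⟨x, hx, huU ?_⟩
    rcases hsub hx with h | h
    · exact h
    · exact absurd h hxv
  · obtain ⟨x, hx, hxu⟩ := Set.not_subset.1 hKu
    refine ⟨x, hx, hvV ?_⟩
    rcases hsub hx with h | h
    · exact absurd h hxu
    · exact h
  · rintro L ⟨⟨hL1, hL2⟩, hL3⟩ hpre
    obtain ⟨x, -, hx1, hx2⟩ := hpre U V hU hV hL1 hL2 hL3
    exact Set.disjoint_left.1 hUV hx1 hx2

end Pool.Agent.Helper49K9.AD
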