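import Pool.Agent.H984R4.NP.PL
import Pool.Agent.H984R4.NP.ModelLem
import Pool.Agent.H389R2.CD.Fin

/-!
# The exploration path in arbitrary domains

Discrete Dobrushin domains, their exploration path, the law of its trace, and the approximation of
a domain of the plane by discrete Dobrushin domains.
-/

set_option autoImplicit false

namespace Pool.Agent.Helper49K9.AD

open H974 H984P H984N MeasureTheory TopologicalSpace Filter Topology

/-- A discrete Dobrushin domain: the edges of `E` are random, the edges of `W` are wired (always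
open), all other edges are closed. The exploration path starts at the state `a` and reaches the
state `b`, whatever the configuration. -/
structure Dob where
  E : Finset Edg
  W : Set Edg
  a : St
  b : St
  disj : ∀ e ∈ E, e ∉ W
  ends : ∀ F ⊆ E, ∃ k, orb (↑F ∪ W) a k = b

namespace Dob

variable (𝒟 : Dob)

/-- The open edges, with the boundary condition. -/
def cfg (F : Finset Edg) : Set Edg := ↑F ∪ 𝒟.W

/-- The exploration path. -/
noncomputable def walk (F : Finset Edg) (k : ℕ) : St := orb (𝒟.cfg F) 𝒟.a k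

/-- Its number of steps. -/
noncomputable def len (F : Finset Edg) : ℕ := sInf {k | 𝒟.walk F k = 𝒟.b}

/-- The exploration path as a polygonal curve through the midpoints `pos δ σ` of the edges of the
medial lattice. -/
noncomputable def curve (δ : ℝ) (F : Finset Edg) : C(unitInterval, ℂ) :=
  pl (𝒟.len F) (fun k => pos δ (𝒟.walk F k))

/-- The trace of the exploration path. -/
noncomputable def trace (δ : ℝ) (F : Finset Edg) : NonemptyCompacts ℂ :=
  ⟨⟨Set.range (𝒟.curve δ F), isCompact_range (𝒟.curve δ F).continuous⟩, Set.range_nonempty _⟩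

/-- The law of the trace at mesh `δ`: all sets `F ⊆ E` of open edges are equally likely. -/
noncomputable def law (δ : ℝ) : ProbabilityMeasure (NonemptyCompacts ℂ) :=
  Pool.Agent.H389R2.CD.lawP 𝒟.E (𝒟.trace δ)

end Dob

/-- The discrete Dobrushin domains `𝒟 i`, at mesh `δ i`, approximate the domain `D` with the
boundary points `a` and `b`:
* `inner`: every edge with an end in a compact subset of `D` is random, if `i` is large;
* `near`: the exploration path stays close to `D`;
* `start`, `stop`: its ends tend to `a` and `b`. -/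
structure Approx (D : Set ℂ) (a b : ℂ) (𝒟 : ℕ → Dob) (δ : ℕ → ℝ) : Prop where
  pos : ∀ i, 0 < δ i
  mesh : Tendsto δ atTop (𝓝 0)
  inner : ∀ K : Set ℂ, IsCompact K → K ⊆ D → ∀ᶠ i in atTop, ∀ e : Edg,
    (H934E.pt (δ i) (src e) ∈ K ∨ H934E.pt (δ i) (tgt e) ∈ K) → e ∈ (𝒟 i).E
  near : ∀ ε : ℝ, 0 < ε → ∀ᶠ i in atTop, ∀ F ⊆ (𝒟 i).E, ∀ k ≤ (𝒟 i).len F,
    ∃ z ∈ D, dist (H984N.pos (δ i) ((𝒟 i).walk F k)) z ≤ ε
  start : Tendsto (fun i => H984N.pos (δ i) (𝒟 i).a) atTop (𝓝 a)
  stop : Tendsto (fun i => H984N.pos (δ i) (𝒟 i).b) atTop (𝓝 b)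

/-- Wired edges are examined only close to `A`, and closed edges which are not random only close
to `B`. -/
structure Arcs (A B : Set ℂ) (𝒟 : ℕ → Dob) (δ : ℕ → ℝ) : Prop where
  wired : ∀ ε : ℝ, 0 < ε → ∀ᶠ i in atTop, ∀ F ⊆ (𝒟 i).E, ∀ k < (𝒟 i).len F,
    ae ((𝒟 i).walk F k) ∈ (𝒟 i).W → ∃ z ∈ A, dist (H984N.pos (δ i) ((𝒟 i).walk F k)) z ≤ ε
  free : ∀ ε : ℝ, 0 < ε → ∀ᶠ i in atTop, ∀ F ⊆ (𝒟 i).E, ∀ k < (𝒟 i).len F,
    ae ((𝒟 i).walk F k) ∉ (𝒟 i).E → ae ((𝒟 i).walk F k) ∉ (𝒟 i).W →
      ∃ z ∈ B, dist (H984N.pos (δ i) ((𝒟 i).walk F k)) z ≤ ε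

end Pool.Agent.Helper49K9.AD
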