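import Mathlib

/-!
Intersections of a random set with a fixed set: if the random set meets small discs of radius `r`
with probability at most `C r ^ η`, its intersection with a fixed set of dimension `s` has
dimension at most `s - η`. (The starting file `Pool.Agent.H443R3.BT.FS` with a general exponent.)
-/

set_option autoImplicit false

namespace Pool.Agent.Helper49K9.AD.FS

open MeasureTheory Metric Set Filter Topology
open scoped ENNReal NNReal

variable {Ω : Type*} [MeasurableSpace Ω] {μ : Measure Ω} {K : Ω → Set ℂ} {B : Set ℂ} {C : ℝ≥0∞}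
  {r0 η : ℝ}

/-- the event that the random set meets a closed disc -/
def Hit (K : Ω → Set ℂ) (z : ℂ) (r : ℝ) : Set Ω := {ω | (K ω ∩ closedBall z r).Nonempty}

theorem hit_zero (hη : 0 < η) (hr0 : 0 < r0) (hC : C ≠ ∞)
    (hb : ∀ z ∈ B, ∀ r, 0 < r → r ≤ r0 → μ (Hit K z r) ≤ C * ENNReal.ofReal r ^ η)
    {z : ℂ} (hz : z ∈ B) : μ (Hit K z 0) = 0 := by
  have ht : Tendsto (fun r : ℝ => C * ENNReal.ofReal r ^ η) (𝓝[>] 0) (𝓝 0) := by
    have h1 : Tendsto (fun r : ℝ => C * ENNReal.ofReal r ^ η) (𝓝 0)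
        (𝓝 (C * ENNReal.ofReal 0 ^ η)) := by
      apply ENNReal.Tendsto.const_mul _ (Or.inr hC)
      exact (ENNReal.continuous_rpow_const.comp ENNReal.continuous_ofReal).tendsto 0
    rw [ENNReal.ofReal_zero, ENNReal.zero_rpow_of_pos hη, mul_zero] at h1
    exact h1.mono_left nhdsWithin_le_nhds
  apply le_antisymm _ zero_le
  refine ge_of_tendsto ht ?_
  filter_upwards [Ioc_mem_nhdsGT hr0] with r hr
  refine (measure_mono ?_).trans (hb z hz r hr.1 hr.2)
  rintro ω ⟨y, h1, h2⟩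
  exact ⟨y, h1, closedBall_subset_closedBall hr.1.le h2⟩

/-- the bound in terms of the extended diameter -/
theorem hit_ediam (hη : 0 < η) (hr0 : 0 < r0) (hC : C ≠ ∞)
    (hb : ∀ z ∈ B, ∀ r, 0 < r → r ≤ r0 → μ (Hit K z r) ≤ C * ENNReal.ofReal r ^ η)
    {z : ℂ} (hz : z ∈ B) {d : ℝ≥0∞} (hd : d ≤ ENNReal.ofReal r0) :
    μ (Hit K z d.toReal) ≤ C * d ^ η := by
  have hd' : d ≠ ∞ := (hd.trans_lt ENNReal.ofReal_lt_top).ne
  rcases eq_or_ne d 0 with rfl | h0
  · rw [ENNReal.toReal_zero, hit_zero hη hr0 hC hb hz]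
    exact zero_le
  · have h1 : 0 < d.toReal := ENNReal.toReal_pos h0 hd'
    have h2 : d.toReal ≤ r0 := ENNReal.toReal_le_of_le_ofReal hr0.le hd
    have := hb z hz d.toReal h1 h2
    rwa [ENNReal.ofReal_toReal hd'] at this

/-- good coverings -/
theorem cover {s : ℝ} (hB : μH[s] B = 0) {r ε : ℝ≥0∞} (hr : 0 < r) (hε : 0 < ε) :
    ∃ t : ℕ → Set ℂ, B ⊆ ⋃ n, t n ∧ (∀ n, ediam (t n) ≤ r) ∧
      ∑' n, ⨆ _ : (t n).Nonempty, ediam (t n) ^ s < ε := by
  rw [Measure.hausdorffMeasure_apply] at hB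
  have h1 := (ENNReal.iSup_eq_zero.mp hB) r
  have h2 := (ENNReal.iSup_eq_zero.mp h1) hr
  have h3 : (⨅ (t : ℕ → Set ℂ) (_ : B ⊆ ⋃ n, t n) (_ : ∀ n, ediam (t n) ≤ r),
      ∑' n, ⨆ _ : (t n).Nonempty, ediam (t n) ^ s) < ε := by rw [h2]; exact hε
  rw [iInf_lt_iff] at h3
  obtain ⟨t, ht⟩ := h3
  rw [iInf_lt_iff] at ht
  obtain ⟨ht1, ht⟩ := ht
  rw [iInf_lt_iff] at ht
  obtain ⟨ht2, ht⟩ := ht
  exact ⟨t, ht1, ht2, ht⟩

open Classical in
/-- a point of `B` in `t`, if any -/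
noncomputable def ctr (B t : Set ℂ) : ℂ := if h : (B ∩ t).Nonempty then h.some else 0

open Classical in
/-- the event that the random set meets the disc around `t` -/
noncomputable def Ev (K : Ω → Set ℂ) (B t : Set ℂ) : Set Ω :=
  if (B ∩ t).Nonempty then Hit K (ctr B t) (ediam t).toReal else ∅

theorem ctr_mem {B t : Set ℂ} (h : (B ∩ t).Nonempty) : ctr B t ∈ B ∩ t := by
  unfold ctr
  rw [dif_pos h]
  exact h.some_mem

omit [MeasurableSpace Ω] in
theorem mem_Ev {t : Set ℂ} (ht : ediam t ≠ ∞) {ω : Ω} (h : (K ω ∩ B ∩ t).Nonempty) :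
    ω ∈ Ev K B t := by
  obtain ⟨y, ⟨h1, h2⟩, h3⟩ := h
  have hne : (B ∩ t).Nonempty := ⟨y, h2, h3⟩
  unfold Ev
  rw [if_pos hne]
  refine ⟨y, h1, ?_⟩
  rw [mem_closedBall, dist_edist]
  exact ENNReal.toReal_mono ht (edist_le_ediam_of_mem h3 (ctr_mem hne).2)

theorem Ev_le (hη : 0 < η) (hr0 : 0 < r0) (hC : C ≠ ∞)
    (hb : ∀ z ∈ B, ∀ r, 0 < r → r ≤ r0 → μ (Hit K z r) ≤ C * ENNReal.ofReal r ^ η)
    {t : Set ℂ} (ht : ediam t ≤ ENNReal.ofReal r0) :
    μ (Ev K B t) ≤ ⨆ _ : t.Nonempty, C * ediam t ^ η := by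
  unfold Ev
  split_ifs with h
  · have hne : t.Nonempty := ⟨_, (ctr_mem h).2⟩
    rw [iSup_pos hne]
    exact hit_ediam hη hr0 hC hb (ctr_mem h).1 ht
  · simp

/-- Sets with small measure are not hit. -/
theorem polar (hη : 0 < η) (hr0 : 0 < r0) (hC : C ≠ ∞)
    (hb : ∀ z ∈ B, ∀ r, 0 < r → r ≤ r0 → μ (Hit K z r) ≤ C * ENNReal.ofReal r ^ η)
    (hB : μH[η] B = 0) : ∀ᵐ ω ∂μ, K ω ∩ B = ∅ := by
  have key : ∀ ε : ℝ≥0∞, 0 < ε → μ {ω | ¬ K ω ∩ B = ∅} ≤ C * ε := by
    intro ε hε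
    obtain ⟨t, h1, h2, h3⟩ := cover hB (r := ENNReal.ofReal r0) (by simpa using hr0) hε
    have hsub : {ω | ¬ K ω ∩ B = ∅} ⊆ ⋃ n, Ev K B (t n) := by
      intro ω hω
      obtain ⟨y, hy⟩ := Set.nonempty_iff_ne_empty.mpr hω
      obtain ⟨n, hn⟩ := mem_iUnion.mp (h1 hy.2)
      exact mem_iUnion.mpr ⟨n, mem_Ev ((h2 n).trans_lt ENNReal.ofReal_lt_top).ne
        ⟨y, hy, hn⟩⟩
    calc μ {ω | ¬ K ω ∩ B = ∅} ≤ μ (⋃ n, Ev K B (t n)) := measure_mono hsub
      _ ≤ ∑' n, μ (Ev K B (t n)) := measure_iUnion_le _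
      _ ≤ ∑' n, C * ⨆ _ : (t n).Nonempty, ediam (t n) ^ η := by
          apply ENNReal.tsum_le_tsum
          intro n
          refine (Ev_le hη hr0 hC hb (h2 n)).trans ?_
          apply iSup_le
          intro hne
          rw [iSup_pos hne]
      _ = C * ∑' n, ⨆ _ : (t n).Nonempty, ediam (t n) ^ η := ENNReal.tsum_mul_left
      _ ≤ C * ε := by gcongr
  rw [ae_iff]
  apply le_antisymm _ zero_le
  have ht : Tendsto (fun ε : ℝ≥0∞ => C * ε) (𝓝[>] 0) (𝓝 0) := by
    have h1 : Tendsto (fun ε : ℝ≥0∞ => C * ε) (𝓝 0) (𝓝 (C * 0)) :=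
      ENNReal.Tendsto.const_mul tendsto_id (Or.inr hC)
    rw [mul_zero] at h1
    exact h1.mono_left nhdsWithin_le_nhds
  refine ge_of_tendsto ht ?_
  filter_upwards [self_mem_nhdsWithin] with ε hε
  exact key ε hε

/-- The measure of the intersection. -/
theorem inter_zero (hη : 0 < η) (hr0 : 0 < r0) (hC : C ≠ ∞) (hm : ∀ z r, MeasurableSet (Hit K z r))
    (hb : ∀ z ∈ B, ∀ r, 0 < r → r ≤ r0 → μ (Hit K z r) ≤ C * ENNReal.ofReal r ^ η)
    {s : ℝ} (hs : η < s) (hB : μH[s] B = 0) : ∀ᵐ ω ∂μ, μH[s - η] (K ω ∩ B) = 0 := by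
  have hpos : ∀ m : ℕ, (0 : ℝ≥0∞) < min (ENNReal.ofReal r0) (((m : ℝ≥0∞) + 1)⁻¹) := by
    intro m
    apply lt_min
    · simpa using hr0
    · rw [ENNReal.inv_pos]
      exact (ENNReal.add_lt_top.mpr ⟨ENNReal.natCast_lt_top m, ENNReal.one_lt_top⟩).ne
  choose t h1 h2 h3 using fun m : ℕ => cover hB (hpos m)
    (show (0 : ℝ≥0∞) < (1/2) ^ m from ENNReal.pow_pos (by simp) m)
  have hEvm : ∀ m n, MeasurableSet (Ev K B (t m n)) := by
    intro m n
    unfold Ev
    split_ifs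
    · exact hm _ _
    · exact MeasurableSet.empty
  set G : ℕ → Ω → ℝ≥0∞ := fun m ω =>
    ∑' n, (Ev K B (t m n)).indicator (fun _ => ediam (t m n) ^ (s - η)) ω with hG
  have hGm : ∀ m, Measurable (G m) := fun m =>
    Measurable.ennreal_tsum fun n => measurable_const.indicator (hEvm m n)
  have hd : ∀ m n, ediam (t m n) ≤ ENNReal.ofReal r0 := fun m n =>
    (h2 m n).trans (min_le_left _ _)
  have hint : ∀ m, ∫⁻ ω, G m ω ∂μ ≤ C * (1/2) ^ m := by
    intro m
    rw [hG]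
    show ∫⁻ ω, ∑' n, (Ev K B (t m n)).indicator (fun _ => ediam (t m n) ^ (s - η)) ω ∂μ ≤ _
    rw [lintegral_tsum fun n => (measurable_const.indicator (hEvm m n)).aemeasurable]
    calc ∑' n, ∫⁻ ω, (Ev K B (t m n)).indicator (fun _ => ediam (t m n) ^ (s - η)) ω ∂μ
        ≤ ∑' n, C * ⨆ _ : (t m n).Nonempty, ediam (t m n) ^ s := by
          apply ENNReal.tsum_le_tsum
          intro n
          rw [lintegral_indicator_const (hEvm m n)]
          calc ediam (t m n) ^ (s - η) * μ (Ev K B (t m n))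
              ≤ ediam (t m n) ^ (s - η) * ⨆ _ : (t m n).Nonempty, C * ediam (t m n) ^ η :=
                by gcongr; exact Ev_le hη hr0 hC hb (hd m n)
            _ ≤ C * ⨆ _ : (t m n).Nonempty, ediam (t m n) ^ s := by
                by_cases hne : (t m n).Nonempty
                · rw [iSup_pos hne, iSup_pos hne]
                  have e : ediam (t m n) ^ s =
                      ediam (t m n) ^ (s - η) * ediam (t m n) ^ η := by
                    rw [← ENNReal.rpow_add_of_nonneg _ _ (by linarith) hη.le]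
                    congr 1
                    ring
                  rw [e]
                  apply le_of_eq
                  ring
                · simp [hne]
      _ = C * ∑' n, ⨆ _ : (t m n).Nonempty, ediam (t m n) ^ s := ENNReal.tsum_mul_left
      _ ≤ C * (1/2) ^ m := by
          have := h3 m
          gcongr
  have htot : ∫⁻ ω, ∑' m, G m ω ∂μ ≠ ∞ := by
    rw [lintegral_tsum fun m => (hGm m).aemeasurable]
    have h4 : ∑' m, ∫⁻ ω, G m ω ∂μ ≤ ∑' m : ℕ, C * (1/2) ^ m := ENNReal.tsum_le_tsum hint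
    refine (h4.trans_lt ?_).ne
    rw [ENNReal.tsum_mul_left, ENNReal.tsum_geometric]
    apply ENNReal.mul_lt_top hC.lt_top
    rw [ENNReal.inv_lt_top]
    simp
  have hae := ae_lt_top (Measurable.ennreal_tsum hGm) htot
  filter_upwards [hae] with ω hω
  have hlim : Tendsto (fun m => G m ω) atTop (𝓝 0) :=
    ENNReal.tendsto_atTop_zero_of_tsum_ne_top hω.ne
  apply le_antisymm _ zero_le
  classical
  set t' : ℕ → ℕ → Set ℂ := fun m n => if (K ω ∩ B ∩ t m n).Nonempty then t m n else ∅ with ht'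
  have hr : Tendsto (fun m : ℕ => ((m : ℝ≥0∞) + 1)⁻¹) atTop (𝓝 0) := by
    have h5 : Tendsto (fun m : ℕ => (m : ℝ≥0∞) + 1) atTop (𝓝 ∞) :=
      tendsto_nhds_top_mono ENNReal.tendsto_nat_nhds_top
        (Eventually.of_forall fun m => le_self_add)
    have h6 := ENNReal.tendsto_inv_iff.mpr h5
    rw [ENNReal.inv_top] at h6
    exact h6
  have hle := Measure.hausdorffMeasure_le_liminf_tsum (s - η) (K ω ∩ B) (l := atTop)
    (fun m : ℕ => ((m : ℝ≥0∞) + 1)⁻¹) hr t' (Eventually.of_forall fun m n => by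
      show ediam (if (K ω ∩ B ∩ t m n).Nonempty then t m n else ∅) ≤ _
      split_ifs
      · exact (h2 m n).trans (min_le_right _ _)
      · simp) (Eventually.of_forall fun m => by
      intro y hy
      obtain ⟨n, hn⟩ := mem_iUnion.mp (h1 m hy.2)
      refine mem_iUnion.mpr ⟨n, ?_⟩
      show y ∈ (if (K ω ∩ B ∩ t m n).Nonempty then t m n else ∅)
      rw [if_pos ⟨y, hy, hn⟩]
      exact hn)
  refine hle.trans ?_
  have hle2 : ∀ m, ∑' n, ediam (t' m n) ^ (s - η) ≤ G m ω := by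
    intro m
    apply ENNReal.tsum_le_tsum
    intro n
    show ediam (if (K ω ∩ B ∩ t m n).Nonempty then t m n else ∅) ^ (s - η) ≤ _
    split_ifs with h
    · rw [indicator_of_mem (mem_Ev ((hd m n).trans_lt ENNReal.ofReal_lt_top).ne h)]
    · rw [ediam_empty, ENNReal.zero_rpow_of_pos (by linarith)]
      exact zero_le
  calc liminf (fun m => ∑' n, ediam (t' m n) ^ (s - η)) atTop
      ≤ liminf (fun m => G m ω) atTop := by
        apply liminf_le_liminf (Eventually.of_forall hle2)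
    _ = 0 := hlim.liminf_eq

end Pool.Agent.Helper49K9.AD.FS
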