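import Pool.Agent.Helper49K9.AD.Bdry
import Pool.Agent.Helper49K9.AD.FixA

/-!
Fixed sets and the limits of the trace of the exploration path in arbitrary domains.
-/

set_option autoImplicit false

namespace Pool.Agent.Helper49K9.AD

open H974 H342P H984P H984N MeasureTheory TopologicalSpace Filter Topology Metric Set
open Pool.Agent.H389R2.CD (ArS)
open scoped ENNReal NNReal

/-- One-point estimates at the points of a fixed set give the size of the intersection. -/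
theorem fixed_gen {μ : Measure (NonemptyCompacts ℂ)} {η : ℝ} (hη : 0 < η)
    {S : Set ℂ} {Sn : ℕ → Set ℂ} (hS : S = ⋃ n, Sn n)
    (hb : ∀ n, ∃ C r0 : ℝ, 0 < r0 ∧ 0 ≤ C ∧ ∀ z ∈ Sn n, ∀ r : ℝ, 0 < r → r ≤ r0 →
      μ {K | ((K : Set ℂ) ∩ ball z r).Nonempty} ≤ ENNReal.ofReal (C * r ^ η)) :
    (μH[η] S = 0 → ∀ᵐ K : NonemptyCompacts ℂ ∂μ, (K : Set ℂ) ∩ S = ∅) ∧
      ∀ᵐ K : NonemptyCompacts ℂ ∂μ, dimH ((K : Set ℂ) ∩ S) ≤ dimH S - ENNReal.ofReal η := by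
  have hm : ∀ z r, MeasurableSet (FS.Hit (fun K : NonemptyCompacts ℂ => (K : Set ℂ)) z r) :=
    fun z r => (NonemptyCompacts.isClosed_inter_nonempty_of_isClosed
      Metric.isClosed_closedBall).measurableSet
  have hb' : ∀ n, ∃ (C : ℝ≥0∞) (r0 : ℝ), 0 < r0 ∧ C ≠ ∞ ∧ ∀ z ∈ Sn n, ∀ r : ℝ, 0 < r → r ≤ r0 →
      μ (FS.Hit (fun K : NonemptyCompacts ℂ => (K : Set ℂ)) z r) ≤ C * ENNReal.ofReal r ^ η := by
    intro n
    obtain ⟨C, r0, hr0, hC, h⟩ := hb n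
    refine ⟨ENNReal.ofReal (C * 2 ^ η), r0 / 2, by positivity, ENNReal.ofReal_ne_top, ?_⟩
    intro z hz r hr hr2
    have h1 := h z hz (2 * r) (by positivity) (by linarith)
    refine (measure_mono ?_).trans (h1.trans (le_of_eq ?_))
    · rintro K ⟨y, hy1, hy2⟩
      refine ⟨y, hy1, ?_⟩
      rw [mem_closedBall] at hy2
      rw [mem_ball]
      linarith
    · rw [ENNReal.ofReal_rpow_of_pos hr, ← ENNReal.ofReal_mul (by positivity),
        Real.mul_rpow (by norm_num) hr.le]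
      congr 1
      ring
  have hpol : μH[η] S = 0 → ∀ᵐ K : NonemptyCompacts ℂ ∂μ, (K : Set ℂ) ∩ S = ∅ := by
    intro h0
    have h1 : ∀ᵐ K : NonemptyCompacts ℂ ∂μ, ∀ n : ℕ, (K : Set ℂ) ∩ Sn n = ∅ := by
      rw [ae_all_iff]
      intro n
      obtain ⟨C, r0, hr0, hC, h⟩ := hb' n
      refine FS.polar hη hr0 hC h ?_
      have hsub : Sn n ⊆ S := by rw [hS]; exact subset_iUnion _ _
      exact measure_mono_null hsub h0
    filter_upwards [h1] with K hK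
    rw [hS, Set.inter_iUnion]
    exact Set.iUnion_eq_empty.mpr hK
  refine ⟨hpol, ?_⟩
  have eη : (ENNReal.ofReal η) = ((Real.toNNReal η : ℝ≥0) : ℝ≥0∞) := rfl
  rcases lt_or_ge (dimH S) (ENNReal.ofReal η) with h | h
  · have h0 : μH[η] S = 0 := by
      rw [eη] at h
      have := hausdorffMeasure_of_dimH_lt h
      rwa [Real.coe_toNNReal _ hη.le] at this
    filter_upwards [hpol h0] with K hK
    rw [hK, dimH_empty]
    exact zero_le
  · have h1 : ∀ᵐ K : NonemptyCompacts ℂ ∂μ,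
        ∀ (n : ℕ) (s : ℚ), η < (s : ℝ) → dimH S < ENNReal.ofReal s →
          μH[(s : ℝ) - η] ((K : Set ℂ) ∩ Sn n) = 0 := by
      rw [ae_all_iff]
      intro n
      rw [ae_all_iff]
      intro s
      by_cases h3 : η < (s : ℝ)
      · by_cases h4 : dimH S < ENNReal.ofReal s
        · have h5 : μH[(s : ℝ)] (Sn n) = 0 := by
            have hsub : Sn n ⊆ S := by rw [hS]; exact subset_iUnion _ _
            have h6 : dimH (Sn n) < ((Real.toNNReal s : ℝ≥0) : ℝ≥0∞) :=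
              (dimH_mono hsub).trans_lt h4
            have h7 := hausdorffMeasure_of_dimH_lt h6
            rwa [Real.coe_toNNReal _ (by linarith)] at h7
          obtain ⟨C, r0, hr0, hC, h'⟩ := hb' n
          filter_upwards [FS.inter_zero hη hr0 hC hm h' h3 h5] with K hK
          intro _ _
          exact hK
        · exact Eventually.of_forall fun K _ h => absurd h h4
      · exact Eventually.of_forall fun K h => absurd h h3
    filter_upwards [h1] with K k1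
    apply ENNReal.le_sub_of_add_le_right ENNReal.ofReal_ne_top
    apply le_of_forall_gt_imp_ge_of_dense
    intro x hx
    obtain ⟨q, -, hq1, hq2⟩ := ENNReal.lt_iff_exists_rat_btwn.mp hx
    have hq4 : η < (q : ℝ) := by
      by_contra hcon
      have h5 : ((Real.toNNReal q : ℝ≥0) : ℝ≥0∞) ≤ ENNReal.ofReal η :=
        ENNReal.ofReal_le_ofReal (not_lt.mp hcon)
      exact absurd (hq1.trans_le h5) (not_lt.mpr h)
    have hsub : dimH ((K : Set ℂ) ∩ S) ≤ ENNReal.ofReal ((q : ℝ) - η) := by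
      rw [hS, Set.inter_iUnion, dimH_iUnion]
      apply iSup_le
      intro n
      have h6 := k1 n q hq4 hq1
      apply dimH_le_of_hausdorffMeasure_ne_top (d := Real.toNNReal ((q : ℝ) - η))
      rw [Real.coe_toNNReal _ (by linarith), h6]
      exact ENNReal.zero_ne_top
    calc dimH ((K : Set ℂ) ∩ S) + ENNReal.ofReal η
        ≤ ENNReal.ofReal ((q : ℝ) - η) + ENNReal.ofReal η := by gcongr
      _ = ENNReal.ofReal q := by
          rw [← ENNReal.ofReal_add (by linarith) hη.le]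
          congr 1
          ring
      _ ≤ x := hq2.le

section

variable {D : Set ℂ} {a b : ℂ} {𝒟 : ℕ → Dob} {δ : ℕ → ℝ}
  {μ : ProbabilityMeasure (NonemptyCompacts ℂ)}

/-- Fixed subsets of the domain. -/
theorem fixed_int {C2 : ℝ} (hC2 : 0 < C2) (hA : AnnUp C2) (hDo : IsOpen D)
    (hap : Approx D a b 𝒟 δ) (haD : a ∉ D)
    (hμ : Tendsto (fun i => (𝒟 i).law (δ i)) atTop (𝓝 μ)) {S : Set ℂ} (hS : S ⊆ D) :
    (μH[1/4] S = 0 → ∀ᵐ K : NonemptyCompacts ℂ ∂(μ : Measure (NonemptyCompacts ℂ)),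
      (K : Set ℂ) ∩ S = ∅) ∧
    ∀ᵐ K : NonemptyCompacts ℂ ∂(μ : Measure (NonemptyCompacts ℂ)),
      dimH ((K : Set ℂ) ∩ S) ≤ dimH S - ENNReal.ofReal (1/4) := by
  refine fixed_gen (η := 1/4) (by norm_num)
    (Sn := fun n : ℕ => {z | z ∈ S ∧ ball z (1 / ((n:ℝ) + 1)) ⊆ D}) ?_ ?_
  · ext z
    rw [mem_iUnion]
    constructor
    · intro hz
      obtain ⟨ε, hε, hball⟩ := Metric.isOpen_iff.1 hDo z (hS hz)
      obtain ⟨m, hm⟩ := exists_nat_one_div_lt hε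
      exact ⟨m, hz, (ball_subset_ball hm.le).trans hball⟩
    · rintro ⟨n, h, -⟩
      exact h
  · intro n
    have hn : (0:ℝ) < 1 / ((n:ℝ) + 1) := by positivity
    refine ⟨(16 * C2 + 64) * (1 / (1 / ((n:ℝ) + 1))) ^ (1/4 : ℝ), 1 / ((n:ℝ) + 1), hn,
      by positivity, ?_⟩
    rintro z ⟨-, hz⟩ r hr hr0
    have h1 := hit_int hC2 hA D a b 𝒟 δ hap haD z (1 / ((n:ℝ) + 1)) r hr hr0 hz
    refine (lim_ph hμ h1).trans (ENNReal.ofReal_le_ofReal (le_of_eq ?_))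
    rw [div_eq_mul_one_div r, Real.mul_rpow hr.le (by positivity)]
    ring

/-- Fixed sets away from a closed set, from a one-point estimate. -/
theorem fixed_away (hμ : Tendsto (fun i => (𝒟 i).law (δ i)) atTop (𝓝 μ)) {C η : ℝ} (hC : 0 < C)
    (hη : 0 < η) {B : Set ℂ} (hB : IsClosed B)
    (h : ∀ (z : ℂ) (ρ s : ℝ), 0 < s → s ≤ ρ → (∀ x ∈ B, x ∉ ball z ρ) →
      ∀ᶠ i in atTop, ph (𝒟 i) (δ i) z s ≤ C * (s / ρ) ^ η) {S : Set ℂ} (hS : Disjoint S B) :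
    (μH[η] S = 0 → ∀ᵐ K : NonemptyCompacts ℂ ∂(μ : Measure (NonemptyCompacts ℂ)),
      (K : Set ℂ) ∩ S = ∅) ∧
    ∀ᵐ K : NonemptyCompacts ℂ ∂(μ : Measure (NonemptyCompacts ℂ)),
      dimH ((K : Set ℂ) ∩ S) ≤ dimH S - ENNReal.ofReal η := by
  refine fixed_gen hη
    (Sn := fun n : ℕ => {z | z ∈ S ∧ ∀ x ∈ B, x ∉ ball z (1 / ((n:ℝ) + 1))}) ?_ ?_
  · ext z
    rw [mem_iUnion]
    constructor
    · intro hz
      obtain ⟨ε, hε, hball⟩ := Metric.isOpen_iff.1 hB.isOpen_compl z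
        (Set.disjoint_left.1 hS hz)
      obtain ⟨m, hm⟩ := exists_nat_one_div_lt hε
      exact ⟨m, hz, fun x hx hxz => hball (ball_subset_ball hm.le hxz) hx⟩
    · rintro ⟨n, h, -⟩
      exact h
  · intro n
    have hn : (0:ℝ) < 1 / ((n:ℝ) + 1) := by positivity
    refine ⟨C * (1 / (1 / ((n:ℝ) + 1))) ^ η, 1 / ((n:ℝ) + 1), hn, by positivity, ?_⟩
    rintro z ⟨-, hz⟩ r hr hr0
    have h1 := h z (1 / ((n:ℝ) + 1)) r hr hr0 hz
    refine (lim_ph hμ h1).trans (ENNReal.ofReal_le_ofReal (le_of_eq ?_))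
    rw [div_eq_mul_one_div r, Real.mul_rpow hr.le (by positivity)]
    ring

end

section

variable {D : Set ℂ} {𝒟 : ℕ → Dob} {δ : ℕ → ℝ} {γ : ℝ → ℂ} {t : ℝ}
  {μ : ProbabilityMeasure (NonemptyCompacts ℂ)}

/-- Fixed sets and Jordan domains. -/
theorem fixed_jordan (hAr : ArS) (hγ : Continuous γ) (hper : γ 1 = γ 0)
    (hinj : Set.InjOn γ (Set.Ico 0 1)) (ht0 : 0 < t) (ht1 : t < 1)
    (hap : Approx D (γ 0) (γ t) 𝒟 δ) (har : Arcs (γ '' Icc 0 t) (γ '' Icc t 1) 𝒟 δ)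
    (hμ : Tendsto (fun i => (𝒟 i).law (δ i)) atTop (𝓝 μ)) (S : Set ℂ) :
    (μH[5/48] S = 0 → ∀ᵐ K : NonemptyCompacts ℂ ∂(μ : Measure (NonemptyCompacts ℂ)),
      (K : Set ℂ) ∩ S ⊆ {γ 0, γ t}) ∧
    ∀ᵐ K : NonemptyCompacts ℂ ∂(μ : Measure (NonemptyCompacts ℂ)),
      dimH ((K : Set ℂ) ∩ S) ≤ dimH S - ENNReal.ofReal (5/48) := by
  obtain ⟨Cw, hCw, hw⟩ := hit_w hAr
  obtain ⟨Cf, hCf, hf⟩ := hit_f hAr
  have h1 := fixed_away (S := S \ γ '' Icc t 1) hμ hCw (η := (5:ℝ)/48) (by norm_num)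
    (free_arc_closed hγ t)
    (fun z ρ s hs hsρ hz => hw D (γ 0) (γ t) 𝒟 δ _ _ hap har z ρ s hs hsρ
      (hz _ ⟨1, ⟨ht1.le, le_rfl⟩, hper⟩) hz) disjoint_sdiff_left
  have h2 := fixed_away (S := S \ γ '' Icc 0 t) hμ hCf (η := (5:ℝ)/48) (by norm_num)
    (wired_arc_closed hγ t)
    (fun z ρ s hs hsρ hz => hf D (γ 0) (γ t) 𝒟 δ _ _ hap har z ρ s hs hsρ
      (hz _ ⟨0, ⟨le_rfl, ht0.le⟩, rfl⟩) hz) disjoint_sdiff_left
  have hcov : ∀ K : Set ℂ, K ∩ S ⊆ (K ∩ (S \ γ '' Icc t 1)) ∪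
      ((K ∩ (S \ γ '' Icc 0 t)) ∪ {γ 0, γ t}) := by
    rintro K x ⟨hxK, hxS⟩
    by_cases hB : x ∈ γ '' Icc t 1
    · right
      by_cases hA : x ∈ γ '' Icc 0 t
      · right
        rcases arcs_inter hper hinj ht0 ht1 hA hB with h | h
        · exact Or.inl h
        · exact Or.inr h
      · left; exact ⟨hxK, hxS, hA⟩
    · left; exact ⟨hxK, hxS, hB⟩
  constructor
  · intro h0
    filter_upwards [h1.1 (measure_mono_null sdiff_subset h0),
      h2.1 (measure_mono_null sdiff_subset h0)] with K k1 k2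
    refine (hcov K).trans ?_
    rw [k1, k2, empty_union, empty_union]
  · filter_upwards [h1.2, h2.2] with K k1 k2
    refine (dimH_mono (hcov K)).trans ?_
    rw [dimH_union, dimH_union]
    have e1 : dimH (S \ γ '' Icc t 1) - ENNReal.ofReal (5/48) ≤ dimH S - ENNReal.ofReal (5/48) :=
      tsub_le_tsub_right (dimH_mono sdiff_subset) _
    have e2 : dimH (S \ γ '' Icc 0 t) - ENNReal.ofReal (5/48) ≤ dimH S - ENNReal.ofReal (5/48) :=
      tsub_le_tsub_right (dimH_mono sdiff_subset) _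
    have e3 : dimH ({γ 0, γ t} : Set ℂ) = 0 := ((Set.finite_singleton _).insert _).dimH_zero
    refine max_le (k1.trans e1) (max_le (k2.trans e2) ?_)
    rw [e3]
    exact zero_le

end

end Pool.Agent.Helper49K9.AD
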