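import Pool.Agent.Helper49K9.AD.Prob

/-!
Hitting probabilities of boxes: in the bulk, and at the boundary.
-/

set_option autoImplicit false

namespace Pool.Agent.Helper49K9.AD

open H974 H342P H984P H984N Finset
open Pool.Agent.H389R2.CD (ArS Ex1 pr_Ex1 Ex1_of_reach barm_le)

theorem one_arm (hAr : ArS) : ∃ C : ℝ, 0 < C ∧ ∀ (S : Finset Edg) (c : Vtx) (r R : ℕ),
    1 ≤ r → 3 * r ≤ R →
    P S (fun F => H12S.Crs c.1 c.2 r R (↑F : Set Edg)) ≤ C * ((r : ℝ) / R) ^ ((5:ℝ) / 48) := by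
  obtain ⟨C, hC, hb⟩ := barm_le hAr
  refine ⟨C, hC, fun S c r R hr hR => ?_⟩
  refine le_trans ?_ (hb r R hr hR)
  refine le_trans ?_ (pr_Ex1 S c r R)
  refine Pr_mono two_ok ?_
  rintro F _ ⟨x, y, hx, hy, h⟩
  exact Ex1_of_reach (A := ∅) (by omega) (by simp) hx hy (by rwa [Set.union_empty])

theorem one_darm (hAr : ArS) : ∃ C : ℝ, 0 < C ∧ ∀ (S : Finset Edg) (c : Vtx) (r R : ℕ),
    1 ≤ r → 3 * r ≤ R →
    P S (fun F => H12S.DCrs c.1 c.2 r R (↑(S \ F) : Set Edg)) ≤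
      C * ((r : ℝ) / R) ^ ((5:ℝ) / 48) := by
  obtain ⟨C, hC, h⟩ := one_arm hAr
  refine ⟨C, hC, fun S c r R hr hR => ?_⟩
  have e1 : P S (fun F => H12S.DCrs c.1 c.2 r R (↑(S \ F) : Set Edg)) =
      P S (fun F => H12S.DCrs c.1 c.2 r R (↑F : Set Edg)) := by
    have := Pr_compl (fun _ : Edg => (1/2:ℝ)) S (fun F => H12S.DCrs c.1 c.2 r R (↑F : Set Edg))
    rw [show (fun e : Edg => 1 - (fun _ : Edg => (1/2:ℝ)) e) = fun _ => (1/2:ℝ) by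
      funext e; norm_num] at this
    exact this.symm
  have e2 : P S (fun F => H12S.DCrs c.1 c.2 r R (↑F : Set Edg)) =
      P (dmp S) (fun F => H12S.Crs c.1 c.2 r R (↑F : Set Edg)) := by
    show Pr (fun _ => (1/2:ℝ)) S _ = Pr (fun _ => (1/2:ℝ)) (dmp S) _
    rw [pr_dmp]
    apply Pr_congr
    intro F _
    rw [coe_dmp]
    unfold H12S.DCrs H12S.Crs
    simp only [reach_dl]
  rw [e1, e2]
  exact h _ _ _ _ hr hR

/-- Hitting a box in the bulk. -/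
theorem hit_bulk {C2 : ℝ} (hA : AnnUp C2) {𝒟 : Dob} {c : Vtx} {r R : ℕ} (hrR : r + 2 ≤ R)
    (hI : In 𝒟 c (R + 2)) (h0 : ¬ Bo c (R + 1) 𝒟.a.1) :
    P 𝒟.E (fun F => ∃ k ≤ 𝒟.len F, Bo c r (𝒟.walk F k).1) ≤
      C2 * (((r + 1 : ℕ) : ℝ) / R) ^ (1/4 : ℝ) := by
  set X := 𝒟.E \ RE (c.1 - r) (c.1 + r) (c.2 - r) (c.2 + r) with hX
  have h1 := two_pr hA (X := X) (S := 𝒟.E) Finset.sdiff_subset c (r := r + 1) (R := R)
    (by omega) (by omega)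
  refine le_trans (Pr_mono two_ok ?_) h1
  rintro F hF ⟨k, _, hk⟩
  have h3 := vis_ann (𝒟 := 𝒟) (F := F) hk hrR h0 hI
  unfold two_An
  have e1 : F ∩ X = F \ RE (c.1 - r) (c.1 + r) (c.2 - r) (c.2 + r) := by
    rw [hX]
    ext e
    simp only [Finset.mem_inter, Finset.mem_sdiff]
    constructor
    · rintro ⟨a1, a2, a3⟩
      exact ⟨a1, a3⟩
    · rintro ⟨a1, a3⟩
      exact ⟨a1, hF a1, a3⟩
  rw [e1]
  exact h3

/-- Hitting a box close to the wired arc. -/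
theorem hit_wired {C : ℝ} (hC : ∀ (S : Finset Edg) (c : Vtx) (r R : ℕ), 1 ≤ r → 3 * r ≤ R →
      P S (fun F => H12S.DCrs c.1 c.2 r R (↑(S \ F) : Set Edg)) ≤
        C * ((r : ℝ) / R) ^ ((5:ℝ) / 48)) {𝒟 : Dob} {c : Vtx} {r R : ℕ} (hrR : 3 * (r + 1) ≤ R)
    (h0 : ¬ Bo c (R + 1) 𝒟.a.1)
    (hI : ∀ F ⊆ 𝒟.E, ∀ k < 𝒟.len F, Bo c (R + 2) (𝒟.walk F k).1 →
      ae (𝒟.walk F k) ∈ 𝒟.E ∨ ae (𝒟.walk F k) ∈ 𝒟.W) :
    P 𝒟.E (fun F => ∃ k ≤ 𝒟.len F, Bo c r (𝒟.walk F k).1) ≤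
      C * (((r + 1 : ℕ) : ℝ) / R) ^ ((5:ℝ) / 48) := by
  refine le_trans (Pr_mono two_ok ?_) (hC 𝒟.E c (r + 1) R (by omega) hrR)
  rintro F hF ⟨k, hk, hk2⟩
  obtain ⟨j, hj, h1, h2, h3⟩ := last_exit (R := R + 1) h0 (hk2.mono (by omega))
  have hW : ∀ s, j ≤ s → s < k → ae (𝒟.walk F s) ∈ ((↑𝒟.E : Set Edg) ∪ 𝒟.W) := by
    intro s hs hsk
    apply hI F hF s (by omega)
    rcases Nat.lt_or_ge j s with h | h
    · exact (h3 s h hsk.le).mono (by omega)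
    · have : s = j := by omega
      rw [this]
      exact h2.mono (by omega)
  obtain ⟨-, g2⟩ := arms_gen hj.le hW
  have hf := arms_face (𝒟.walk F j)
  have hfk := arms_face (𝒟.walk F k)
  unfold Bo inR at h1 hk2
  refine ⟨face (𝒟.walk F k), face (𝒟.walk F j), ?_, ?_, ?_⟩
  · unfold inR
    push_cast
    omega
  · omega
  · refine DReach.mono ?_ g2.symm
    rintro e ⟨he, he2⟩
    rw [Finset.coe_sdiff]
    rcases he with he | he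
    · exact ⟨he, fun h => he2 (Or.inl h)⟩
    · exact absurd (Or.inr he) he2

/-- Hitting a box close to the free arc. -/
theorem hit_free {C : ℝ} (hC : ∀ (S : Finset Edg) (c : Vtx) (r R : ℕ), 1 ≤ r → 3 * r ≤ R →
      P S (fun F => H12S.Crs c.1 c.2 r R (↑F : Set Edg)) ≤
        C * ((r : ℝ) / R) ^ ((5:ℝ) / 48)) {𝒟 : Dob} {c : Vtx} {r R : ℕ} (hrR : 3 * (r + 1) ≤ R)
    (h0 : ¬ Bo c (R + 1) 𝒟.a.1)
    (hI : ∀ F ⊆ 𝒟.E, ∀ k < 𝒟.len F, Bo c (R + 2) (𝒟.walk F k).1 →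
      ae (𝒟.walk F k) ∉ 𝒟.W) :
    P 𝒟.E (fun F => ∃ k ≤ 𝒟.len F, Bo c r (𝒟.walk F k).1) ≤
      C * (((r + 1 : ℕ) : ℝ) / R) ^ ((5:ℝ) / 48) := by
  refine le_trans (Pr_mono two_ok ?_) (hC 𝒟.E c (r + 1) R (by omega) hrR)
  rintro F hF ⟨k, hk, hk2⟩
  obtain ⟨j, hj, h1, h2, h3⟩ := last_exit (R := R + 1) h0 (hk2.mono (by omega))
  have hW : ∀ s, j ≤ s → s < k → ae (𝒟.walk F s) ∈ (𝒟.W)ᶜ := by
    intro s hs hsk
    apply hI F hF s (by omega)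
    rcases Nat.lt_or_ge j s with h | h
    · exact (h3 s h hsk.le).mono (by omega)
    · have : s = j := by omega
      rw [this]
      exact h2.mono (by omega)
  obtain ⟨g1, -⟩ := arms_gen hj.le hW
  unfold Bo inR at h1 hk2
  refine ⟨(𝒟.walk F k).1, (𝒟.walk F j).1, ?_, ?_, ?_⟩
  · unfold inR
    push_cast
    omega
  · omega
  · refine Reach.mono ?_ g1.symm
    rintro e ⟨he | he, he2⟩
    · exact he
    · exact absurd he he2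

end Pool.Agent.Helper49K9.AD
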