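import Pool.Agent.Helper49K9.AD.Low
import Pool.Agent.Helper49K9.AD.Cov

/-!
Weak limits of the law of the trace of the exploration path in arbitrary domains.
-/

set_option autoImplicit false

namespace Pool.Agent.Helper49K9.AD

open H974 H342P H984P H984N MeasureTheory TopologicalSpace Filter Topology Metric Set
open H934E (pt)
open Pool.Agent.H389R2.CD (lawP lawP_apply precompact lim_open_le lim_closed_ge lim_subset lower_inter
  isClosed_good_inter ArS)
open Pool.Agent.H389R2.Dim (Good)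
open scoped ENNReal NNReal

section

variable {D : Set ℂ} {a b : ℂ} {𝒟 : ℕ → Dob} {δ : ℕ → ℝ}

/-- The trace stays close to `D`. -/
theorem trace_close (hap : Approx D a b 𝒟 δ) {ε : ℝ} (hε : 0 < ε) :
    ∀ᶠ i in atTop, ∀ F ⊆ (𝒟 i).E, ((𝒟 i).trace (δ i) F : Set ℂ) ⊆ cthickening ε D := by
  filter_upwards [hap.near (ε / 2) (by positivity),
    hap.mesh.eventually_lt_const (show (0:ℝ) < ε by positivity)] with i h1 h2 F hF w hw
  have hδ := hap.pos i
  obtain ⟨k, hk, hk2⟩ := near_trace (𝒟 i) hδ.le F hw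
  obtain ⟨z, hz, hz2⟩ := h1 F hF k hk
  apply mem_cthickening_of_dist_le w z ε D hz
  have := dist_triangle w (pos (δ i) ((𝒟 i).walk F k)) z
  linarith

theorem exists_limit (hD : Bornology.IsBounded D) (hap : Approx D a b 𝒟 δ) :
    ∃ φ : ℕ → ℕ, StrictMono φ ∧ ∃ μ : ProbabilityMeasure (NonemptyCompacts ℂ),
      Tendsto (fun i => (𝒟 (φ i)).law (δ (φ i))) atTop (𝓝 μ) := by
  have hB : IsCompact (cthickening 1 D) :=
    isCompact_of_isClosed_isBounded isClosed_cthickening hD.cthickening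
  obtain ⟨N, hN⟩ := eventually_atTop.1 (trace_close hap one_pos)
  exact precompact (S := fun i => (𝒟 i).E) (K := fun i => (𝒟 i).trace (δ i)) hB
    (N := N) (fun i hi F hF => hN i hi F hF)

variable {μ : ProbabilityMeasure (NonemptyCompacts ℂ)}

/-- One-point estimate in the limit. -/
theorem lim_ph (hμ : Tendsto (fun i => (𝒟 i).law (δ i)) atTop (𝓝 μ)) {z : ℂ} {s q : ℝ}
    (h : ∀ᶠ i in atTop, ph (𝒟 i) (δ i) z s ≤ q) :
    (μ : Measure (NonemptyCompacts ℂ)) {K | ((K : Set ℂ) ∩ ball z s).Nonempty} ≤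
      ENNReal.ofReal q :=
  lim_open_le (S := fun i => (𝒟 i).E) (K := fun i => (𝒟 i).trace (δ i)) hμ
    (NonemptyCompacts.isOpen_inter_nonempty_of_isOpen isOpen_ball) h

theorem law_ph (i : ℕ) {z : ℂ} {s q : ℝ} (h : ph (𝒟 i) (δ i) z s ≤ q) :
    ((𝒟 i).law (δ i) : Measure (NonemptyCompacts ℂ)) {K | ((K : Set ℂ) ∩ ball z s).Nonempty} ≤
      ENNReal.ofReal q := by
  have hm : MeasurableSet {K : NonemptyCompacts ℂ | ((K : Set ℂ) ∩ ball z s).Nonempty} :=
    (NonemptyCompacts.isOpen_inter_nonempty_of_isOpen isOpen_ball).measurableSet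
  have e := lawP_apply (𝒟 i).E ((𝒟 i).trace (δ i)) hm
  refine (le_of_eq e).trans (ENNReal.ofReal_le_ofReal ?_)
  exact h

/-- The limit is contained in the closure of `D`. -/
theorem lim_closure (hap : Approx D a b 𝒟 δ)
    (hμ : Tendsto (fun i => (𝒟 i).law (δ i)) atTop (𝓝 μ)) :
    ∀ᵐ K : NonemptyCompacts ℂ ∂(μ : Measure (NonemptyCompacts ℂ)), (K : Set ℂ) ⊆ closure D := by
  have h : ∀ᵐ K : NonemptyCompacts ℂ ∂(μ : Measure (NonemptyCompacts ℂ)),
      ∀ m : ℕ, (K : Set ℂ) ⊆ cthickening (1 / ((m:ℝ) + 1)) D := by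
    rw [ae_all_iff]
    intro m
    exact lim_subset (S := fun i => (𝒟 i).E) (K := fun i => (𝒟 i).trace (δ i)) hμ
      isClosed_cthickening (trace_close hap (by positivity))
  filter_upwards [h] with K hK x hx
  rw [closure_eq_iInter_cthickening' D (Set.range fun m : ℕ => 1 / ((m:ℝ) + 1))]
  · simp only [Set.mem_iInter]
    rintro _ ⟨m, rfl⟩
    exact hK m hx
  · intro ε hε
    obtain ⟨n, hn⟩ := exists_nat_one_div_lt hε
    exact ⟨_, ⟨n, rfl⟩, by positivity, hn.le⟩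

/-- The limit is connected. -/
theorem lim_connected (hμ : Tendsto (fun i => (𝒟 i).law (δ i)) atTop (𝓝 μ)) :
    ∀ᵐ K : NonemptyCompacts ℂ ∂(μ : Measure (NonemptyCompacts ℂ)), IsConnected (K : Set ℂ) := by
  have h1 := lim_open_le (S := fun i => (𝒟 i).E) (K := fun i => (𝒟 i).trace (δ i)) hμ
    isOpen_disconnected (q := 0) (by
      apply Eventually.of_forall
      intro i
      have : Pr Pool.Agent.H160R2.CV.P (𝒟 i).E (fun F => (𝒟 i).trace (δ i) F ∈
          {K : NonemptyCompacts ℂ | ¬ IsPreconnected (K : Set ℂ)}) =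
          Pr Pool.Agent.H160R2.CV.P (𝒟 i).E (fun _ => False) := by
        apply Pr_congr
        intro F hF
        rw [iff_false]
        intro h
        apply h
        exact isPreconnected_range ((𝒟 i).curve (δ i) F).continuous
      refine le_of_eq (Eq.trans this ?_)
      unfold Pr
      have h0 : (fun F : Finset Edg => ind False) = fun _ => (0:ℝ) := by
        funext F; exact ind_not_of (fun h => h)
      rw [h0, Ex_const])
  rw [ENNReal.ofReal_zero] at h1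
  rw [ae_iff]
  refine le_antisymm (le_trans (measure_mono ?_) h1) bot_le
  intro L hL hcon
  exact hL ⟨L.nonempty, hcon⟩

/-- The limit contains the limit of a point of the trace. -/
theorem lim_mem (hμ : Tendsto (fun i => (𝒟 i).law (δ i)) atTop (𝓝 μ)) {x : ℂ} {p : ℕ → ℂ}
    (hp : Tendsto p atTop (𝓝 x)) (h : ∀ i, ∀ F ⊆ (𝒟 i).E, p i ∈ ((𝒟 i).trace (δ i) F : Set ℂ)) :
    ∀ᵐ K : NonemptyCompacts ℂ ∂(μ : Measure (NonemptyCompacts ℂ)), x ∈ (K : Set ℂ) := by
  have h1 : ∀ᵐ K : NonemptyCompacts ℂ ∂(μ : Measure (NonemptyCompacts ℂ)),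
      ∀ m : ℕ, ((K : Set ℂ) ∩ closedBall x (1 / ((m:ℝ) + 1))).Nonempty := by
    rw [ae_all_iff]
    intro m
    have hopen : IsOpen {K : NonemptyCompacts ℂ | (K : Set ℂ) ⊆ (closedBall x (1 / ((m:ℝ) + 1)))ᶜ} :=
      NonemptyCompacts.isOpen_subsets_of_isOpen isClosed_closedBall.isOpen_compl
    have h2 := lim_open_le (S := fun i => (𝒟 i).E) (K := fun i => (𝒟 i).trace (δ i)) hμ
      hopen (q := 0) (by
        filter_upwards [(Metric.tendsto_nhds.1 hp) (1 / ((m:ℝ) + 1)) (by positivity)] with i hi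
        have : Pr Pool.Agent.H160R2.CV.P (𝒟 i).E (fun F => (𝒟 i).trace (δ i) F ∈
            {K : NonemptyCompacts ℂ | (K : Set ℂ) ⊆ (closedBall x (1 / ((m:ℝ) + 1)))ᶜ}) =
            Pr Pool.Agent.H160R2.CV.P (𝒟 i).E (fun _ => False) := by
          apply Pr_congr
          intro F hF
          rw [iff_false]
          intro h3
          exact h3 (h i F hF) (mem_closedBall.2 hi.le)
        refine le_of_eq (Eq.trans this ?_)
        unfold Pr
        have h0 : (fun F : Finset Edg => ind False) = fun _ => (0:ℝ) := by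
          funext F; exact ind_not_of (fun h => h)
        rw [h0, Ex_const])
    rw [ENNReal.ofReal_zero] at h2
    rw [ae_iff]
    refine le_antisymm (le_trans (measure_mono ?_) h2) bot_le
    intro L hL y hy hy2
    exact hL ⟨y, hy, hy2⟩
  filter_upwards [h1] with K hK
  rw [← K.isCompact.isClosed.closure_eq, Metric.mem_closure_iff]
  intro ε hε
  obtain ⟨n, hn⟩ := exists_nat_one_div_lt hε
  obtain ⟨y, hy, hy2⟩ := hK n
  refine ⟨y, hy, ?_⟩
  rw [mem_closedBall, dist_comm] at hy2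
  linarith

theorem lim_a (hap : Approx D a b 𝒟 δ)
    (hμ : Tendsto (fun i => (𝒟 i).law (δ i)) atTop (𝓝 μ)) :
    ∀ᵐ K : NonemptyCompacts ℂ ∂(μ : Measure (NonemptyCompacts ℂ)), a ∈ (K : Set ℂ) :=
  lim_mem hμ hap.start fun i F _ => mem_trace (𝒟 i) (δ i) F (Nat.zero_le _)

theorem lim_b (hap : Approx D a b 𝒟 δ)
    (hμ : Tendsto (fun i => (𝒟 i).law (δ i)) atTop (𝓝 μ)) :
    ∀ᵐ K : NonemptyCompacts ℂ ∂(μ : Measure (NonemptyCompacts ℂ)), b ∈ (K : Set ℂ) :=
  lim_mem hμ hap.stop fun i F hF => by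
    have := mem_trace (𝒟 i) (δ i) F (le_refl ((𝒟 i).len F))
    rwa [walk_len hF] at this

/-- The dimension in `D` is at most `7/4`. -/
theorem lim_upper {C2 : ℝ} (hC2 : 0 < C2) (hA : AnnUp C2) (hDo : IsOpen D)
    (hap : Approx D a b 𝒟 δ) (haD : a ∉ D)
    (hμ : Tendsto (fun i => (𝒟 i).law (δ i)) atTop (𝓝 μ)) :
    ∀ᵐ K : NonemptyCompacts ℂ ∂(μ : Measure (NonemptyCompacts ℂ)),
      dimH ((K : Set ℂ) ∩ D) ≤ ENNReal.ofReal (7/4) := by
  classical
  have h1 : ∀ᵐ K : NonemptyCompacts ℂ ∂(μ : Measure (NonemptyCompacts ℂ)), ∀ j m : ℕ,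
      ball (denseSeq ℂ j) (2 / ((m:ℝ) + 1)) ⊆ D →
        dimH ((K : Set ℂ) ∩ ball (denseSeq ℂ j) (1 / ((m:ℝ) + 1))) ≤ ENNReal.ofReal (7/4) := by
    rw [ae_all_iff]
    intro j
    rw [ae_all_iff]
    intro m
    by_cases hs : ball (denseSeq ℂ j) (2 / ((m:ℝ) + 1)) ⊆ D
    swap
    · exact Eventually.of_forall fun K h => absurd h hs
    have hm : (0:ℝ) < 1 / ((m:ℝ) + 1) := by positivity
    have e2 : (2:ℝ) / ((m:ℝ) + 1) = 2 * (1 / ((m:ℝ) + 1)) := by ring
    have key := upper_cov (μs := fun i => (𝒟 i).law (δ i)) hμ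
      (A := ball (denseSeq ℂ j) (1 / ((m:ℝ) + 1))) (s := 2) (η := 1/4)
      (C := (16 * C2 + 64) * (1 / (1 / ((m:ℝ) + 1) / 2)) ^ (1/4 : ℝ)) (r0 := 1 / ((m:ℝ) + 1) / 2)
      (by positivity) (by positivity) (cover_bounded isBounded_ball) (by
        intro z r hr hr0 hne
        obtain ⟨w, hw, hw2⟩ := hne
        have hsub : ball z (1 / ((m:ℝ) + 1) / 2) ⊆ D := by
          intro y hy
          apply hs
          rw [mem_ball] at hw hw2 hy ⊢
          have h3 := dist_triangle4 y z w (denseSeq ℂ j)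
          rw [dist_comm z w] at h3
          rw [e2]
          linarith
        have h4 := hit_int hC2 hA D a b 𝒟 δ hap haD z (1 / ((m:ℝ) + 1) / 2) r hr hr0 hsub
        refine (h4.mono ?_).frequently
        intro i hi
        refine (law_ph i hi).trans (ENNReal.ofReal_le_ofReal (le_of_eq ?_))
        rw [div_eq_mul_one_div r, Real.mul_rpow hr.le (by positivity)]
        ring)
    rw [show (2:ℝ) - 1/4 = 7/4 by norm_num] at key
    filter_upwards [key] with K hK _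
    exact hK
  filter_upwards [h1] with K hK
  have hcov : (K : Set ℂ) ∩ D ⊆ ⋃ j : ℕ, ⋃ m : ℕ,
      (if ball (denseSeq ℂ j) (2 / ((m:ℝ) + 1)) ⊆ D then
        (K : Set ℂ) ∩ ball (denseSeq ℂ j) (1 / ((m:ℝ) + 1)) else ∅) := by
    rintro x ⟨hxK, hxD⟩
    obtain ⟨ε, hε, hball⟩ := Metric.isOpen_iff.1 hDo x hxD
    obtain ⟨m, hm⟩ := exists_nat_one_div_lt (show 0 < ε / 3 by positivity)
    have hm0 : (0:ℝ) < 1 / ((m:ℝ) + 1) := by positivity
    obtain ⟨y, hy, j, rfl⟩ : ∃ y ∈ ball x (1 / ((m:ℝ) + 1)), y ∈ Set.range (denseSeq ℂ) :=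
      (denseRange_denseSeq ℂ).exists_mem_open isOpen_ball ⟨x, mem_ball_self hm0⟩ |>.imp
        (fun j hj => hj) |> fun ⟨j, hj⟩ => ⟨_, hj, j, rfl⟩
    rw [mem_ball] at hy
    refine Set.mem_iUnion.2 ⟨j, Set.mem_iUnion.2 ⟨m, ?_⟩⟩
    rw [if_pos]
    · exact ⟨hxK, by rw [mem_ball, dist_comm]; exact hy⟩
    · intro w hw
      apply hball
      rw [mem_ball] at hw ⊢
      have h3 := dist_triangle w (denseSeq ℂ j) x
      have e2 : (2:ℝ) / ((m:ℝ) + 1) = 2 * (1 / ((m:ℝ) + 1)) := by ring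
      rw [e2] at hw
      linarith
  refine (dimH_mono hcov).trans ?_
  rw [dimH_iUnion]
  refine iSup_le fun j => ?_
  rw [dimH_iUnion]
  refine iSup_le fun m => ?_
  split_ifs with h
  · exact hK j m h
  · rw [dimH_empty]; exact bot_le

theorem exp_seq (m : ℕ) : (3/4:ℝ) ≤ 7/4 - 1/((m:ℝ)+2) ∧ (7/4 - 1/((m:ℝ)+2) : ℝ) < 7/4 := by
  have h1 : (0:ℝ) < 1/((m:ℝ)+2) := by positivity
  have h2 : 1/((m:ℝ)+2) ≤ 1/2 := by
    apply one_div_le_one_div_of_le (by norm_num)
    have : (0:ℝ) ≤ m := Nat.cast_nonneg m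
    linarith
  constructor <;> linarith

/-- The dimension is at least `7/4` close to each point of `K ∩ D`. -/
theorem lim_lower {c0 C C2 : ℝ} (hc0 : 0 < c0) (hC : 0 < C) (hL : LowA c0 (1/4))
    (hU : TwoUp C (1/4)) (hC2 : 0 < C2) (hA : AnnUp C2)
    (hap : Approx D a b 𝒟 δ) (haD : a ∉ D) (hbD : b ∉ D)
    (hμ : Tendsto (fun i => (𝒟 i).law (δ i)) atTop (𝓝 μ)) :
    ∀ᵐ K : NonemptyCompacts ℂ ∂(μ : Measure (NonemptyCompacts ℂ)),
      ∀ U : Set ℂ, IsOpen U → U ⊆ D → ((K : Set ℂ) ∩ U).Nonempty →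
        ENNReal.ofReal (7/4) ≤ dimH ((K : Set ℂ) ∩ U) := by
  have h1 : ∀ᵐ K : NonemptyCompacts ℂ ∂(μ : Measure (NonemptyCompacts ℂ)), ∀ j m l : ℕ,
      closedBall (denseSeq ℂ j) (64 * (1 / ((m:ℝ) + 1))) ⊆ D →
        ((K : Set ℂ) ∩ ball (denseSeq ℂ j) (1 / ((m:ℝ) + 1))).Nonempty →
        ENNReal.ofReal (7/4 - 1/((l:ℝ)+2)) ≤
          dimH ((K : Set ℂ) ∩ closedBall (denseSeq ℂ j) (16 * (1 / ((m:ℝ) + 1)))) := by
    rw [ae_all_iff]
    intro j
    rw [ae_all_iff]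
    intro m
    rw [ae_all_iff]
    intro l
    by_cases hs : closedBall (denseSeq ℂ j) (64 * (1 / ((m:ℝ) + 1))) ⊆ D
    swap
    · exact Eventually.of_forall fun K h => absurd h hs
    have hm : (0:ℝ) < 1 / ((m:ℝ) + 1) := by positivity
    have hα := exp_seq l
    have key := lower_inter (t := 7/4 - 1/((l:ℝ)+2)) (by linarith [hα.1])
      (μs := fun i => (𝒟 i).law (δ i)) hμ
      (A := closedBall (denseSeq ℂ j) (16 * (1 / ((m:ℝ) + 1)))) isClosed_closedBall
      (V := {K : NonemptyCompacts ℂ |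
        ((K : Set ℂ) ∩ ball (denseSeq ℂ j) (1 / ((m:ℝ) + 1))).Nonempty})
      (NonemptyCompacts.isOpen_inter_nonempty_of_isOpen isOpen_ball) (by
        intro ε hε
        obtain ⟨ε', hε', hε'2⟩ : ∃ ε' : ℝ, 0 < ε' ∧ ENNReal.ofReal ε' ≤ ε := by
          by_cases ht : ε = ⊤
          · exact ⟨1, one_pos, by rw [ht]; exact le_top⟩
          · exact ⟨ε.toReal, ENNReal.toReal_pos hε.ne' ht, by rw [ENNReal.ofReal_toReal ht]⟩
        obtain ⟨c, hc, h2⟩ := low_prob hc0 hC hL hU hC2 hA hα.1 hα.2 hap haD hbD hm hs hε'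
        refine ⟨c, hc, fun δ' hδ' => ?_⟩
        refine ((h2 δ' hδ').mono ?_).frequently
        intro i hi
        have hmeas : MeasurableSet {K : NonemptyCompacts ℂ | K ∈ {K : NonemptyCompacts ℂ |
            ((K : Set ℂ) ∩ ball (denseSeq ℂ j) (1 / ((m:ℝ) + 1))).Nonempty} ∧
            ¬ Good (7/4 - 1/((l:ℝ)+2)) δ' c
              ((K : Set ℂ) ∩ closedBall (denseSeq ℂ j) (16 * (1 / ((m:ℝ) + 1))))} :=
          ((NonemptyCompacts.isOpen_inter_nonempty_of_isOpen isOpen_ball).inter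
            (isClosed_good_inter _ _ _ isClosed_closedBall).isOpen_compl).measurableSet
        have e := lawP_apply (𝒟 i).E ((𝒟 i).trace (δ i)) hmeas
        refine (le_of_eq e).trans (le_trans (ENNReal.ofReal_le_ofReal ?_) hε'2)
        exact hi)
    filter_upwards [key] with K hK _ hne
    exact hK hne
  filter_upwards [h1] with K hK U hU hUD hne
  obtain ⟨x, hxK, hxU⟩ := hne
  obtain ⟨ε, hε, hball⟩ := Metric.isOpen_iff.1 hU x hxU
  obtain ⟨m, hm⟩ := exists_nat_one_div_lt (show 0 < ε / 66 by positivity)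
  have hm0 : (0:ℝ) < 1 / ((m:ℝ) + 1) := by positivity
  obtain ⟨j, hj⟩ := (denseRange_denseSeq ℂ).exists_mem_open isOpen_ball
    ⟨x, mem_ball_self (x := x) hm0⟩
  rw [mem_ball] at hj
  have hsub : closedBall (denseSeq ℂ j) (64 * (1 / ((m:ℝ) + 1))) ⊆ U := by
    intro w hw
    apply hball
    rw [mem_closedBall] at hw
    rw [mem_ball]
    have h3 := dist_triangle w (denseSeq ℂ j) x
    linarith
  have hsub2 : closedBall (denseSeq ℂ j) (16 * (1 / ((m:ℝ) + 1))) ⊆ U :=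
    (closedBall_subset_closedBall (by linarith)).trans hsub
  have h2 : ∀ l : ℕ, ENNReal.ofReal (7/4 - 1/((l:ℝ)+2)) ≤ dimH ((K : Set ℂ) ∩ U) := by
    intro l
    refine (hK j m l (hsub.trans hUD) ⟨x, hxK, ?_⟩).trans
      (dimH_mono (Set.inter_subset_inter_right _ hsub2))
    rw [mem_ball, dist_comm]
    exact hj
  have h3 : Tendsto (fun l : ℕ => ENNReal.ofReal (7/4 - 1/((l:ℝ)+2))) atTop
      (𝓝 (ENNReal.ofReal (7/4))) := by
    apply ENNReal.tendsto_ofReal
    have h4 : Tendsto (fun l : ℕ => (7/4 - 1/((l:ℝ)+2) : ℝ)) atTop (𝓝 (7/4 - 0)) := by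
      refine tendsto_const_nhds.sub ?_
      have h : Tendsto (fun l : ℕ => (l:ℝ)+2) atTop atTop :=
        tendsto_atTop_add_const_right _ _ tendsto_natCast_atTop_atTop
      refine h.inv_tendsto_atTop.congr fun m => ?_
      rw [Pi.inv_apply, one_div]
    rwa [sub_zero] at h4
  exact le_of_tendsto' h3 h2

end

end Pool.Agent.Helper49K9.AD
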