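import Pool.Agent.Helper49K9.AD.Prob
import Pool.Agent.H984R4.NP.Bulk
import Pool.Agent.H984R4.NP.AllOkOf

/-!
The exploration path visits many states close to each point of the bulk which it visits.
-/

set_option autoImplicit false

namespace Pool.Agent.Helper49K9.AD

open H974 H342P H984P H984N Finset
open Pool.Agent.H160R2.CV (nv bx)

theorem steps_det {𝒟 : Dob} {F : Finset Edg} (hF : F ⊆ 𝒟.E) {c : Vtx} {n : ℕ} (hn : 1 ≤ n)
    {L : ℤ} (hL : 3 * (n:ℤ) ≤ L) (hI : In 𝒟 c (16 * n))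
    (hb : ¬ Bo c (16 * n) 𝒟.b.1) {k : ℕ} (hk : k ≤ 𝒟.len F) (hvis : Bo c n (𝒟.walk F k).1)
    {M : ℕ} (hM : (VS 𝒟 c (2 * n) F).card < M) :
    bulk_sq M n L (c.1 - 2 * L) (c.2 - 2 * L) F := by
  classical
  have hex : ∃ t, ¬ Bo c (2 * n) (𝒟.walk F (k + t)).1 := by
    refine ⟨𝒟.len F - k, ?_⟩
    rw [show k + (𝒟.len F - k) = 𝒟.len F by omega, walk_len hF]
    exact fun h => hb (h.mono (by omega))
  set t0 := Nat.find hex with ht0
  have ht1 : ¬ Bo c (2 * n) (𝒟.walk F (k + t0)).1 := Nat.find_spec hex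
  have ht2 : ∀ s < t0, Bo c (2 * n) (𝒟.walk F (k + s)).1 := by
    intro s hs
    have := Nat.find_min hex hs
    simpa using this
  have ht3 : t0 ≤ 𝒟.len F - k := by
    apply Nat.find_min' hex
    rw [show k + (𝒟.len F - k) = 𝒟.len F by omega, walk_len hF]
    exact fun h => hb (h.mono (by omega))
  have ht4 : t0 < M := by
    refine lt_of_le_of_lt ?_ hM
    have h1 : ((Finset.range t0).image (fun s => 𝒟.walk F (k + s))) ⊆ VS 𝒟 c (2 * n) F := by
      intro σ hσ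
      rw [Finset.mem_image] at hσ
      obtain ⟨s, hs, rfl⟩ := hσ
      rw [Finset.mem_range] at hs
      rw [mem_VS]
      refine ⟨by push_cast; exact ht2 s hs, k + s, by omega, rfl⟩
    have h2 : ((Finset.range t0).image (fun s => 𝒟.walk F (k + s))).card = t0 := by
      rw [Finset.card_image_of_injOn, Finset.card_range]
      intro i hi j hj hij
      rw [Finset.mem_coe, Finset.mem_range] at hi hj
      simp only at hij
      rcases lt_trichotomy i j with h | h | h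
      · exact absurd hij (walk_inj hF (by omega) (by omega))
      · exact h
      · exact absurd hij.symm (walk_inj hF (by omega) (by omega))
    calc t0 = _ := h2.symm
      _ ≤ _ := Finset.card_le_card h1
  have hcong : orb (↑(F ∩ RE (c.1 - 2 * L) (c.1 - 2 * L + 4 * L) (c.2 - 2 * L)
      (c.2 - 2 * L + 4 * L)) : Set Edg) (𝒟.walk F k) t0 = 𝒟.walk F (k + t0) := by
    rw [walk_add]
    refine orb_congr (T := t0) ?_ le_rfl
    intro e he
    rw [mem_Exm] at he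
    obtain ⟨s, hs, rfl⟩ := he
    have h1 := ht2 s hs
    rw [walk_add] at h1
    set w := orb (𝒟.cfg F) (𝒟.walk F k) s with hw
    have h2 : ae w ∈ 𝒟.E := by
      apply hI
      rcases ae_end w with h | h
      · left; rw [h]; exact h1.mono (by omega)
      · right; rw [h]; exact h1.mono (by omega)
    have h3 : ae w ∉ 𝒟.W := 𝒟.disj _ h2
    have h4 : ae w ∈ RE (c.1 - 2 * L) (c.1 - 2 * L + 4 * L) (c.2 - 2 * L)
      (c.2 - 2 * L + 4 * L) := by
      clear_value w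
      unfold Bo inR at h1
      obtain ⟨⟨x, y⟩, q⟩ := w
      simp only at h1
      cases q
      · rw [ae_ne, mem_RE_true]; omega
      · rw [ae_nw, mem_RE_false]; omega
      · rw [ae_sw, mem_RE_true]; omega
      · rw [ae_se, mem_RE_false]; omega
    rw [Finset.coe_inter]
    constructor
    · rintro (h | h)
      · exact ⟨h, h4⟩
      · exact absurd h h3
    · rintro ⟨h, -⟩
      exact Or.inl h
  refine ⟨𝒟.walk F k, t0, ?_, ?_, ht4⟩
  · unfold Bo inR at hvis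
    unfold inR
    omega
  · rw [hcong]
    unfold Bo inR at hvis ht1
    unfold Far
    omega

/-- Many visited states close to a visited state. -/
theorem steps_low {c0 C : ℝ} (hc0 : 0 < c0) (hC : 0 < C) (hL : LowA c0 (1/4))
    (hU : TwoUp C (1/4)) {ε : ℝ} (hε : 0 < ε) :
    ∃ (κ : ℝ) (n0 : ℕ), 0 < κ ∧ ∀ (𝒟 : Dob) (c : Vtx) (n : ℕ), n0 ≤ n → In 𝒟 c (16 * n) →
      ¬ Bo c (16 * n) 𝒟.b.1 →
      P 𝒟.E (fun F => (∃ k ≤ 𝒟.len F, Bo c n (𝒟.walk F k).1) ∧
        ((VS 𝒟 c (2 * n) F).card : ℝ) < κ * (n:ℝ) ^ (7/4 : ℝ)) ≤ ε := by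
  obtain ⟨c', δ, hc', hδ, hδ1, hall⟩ := allOk_of hc0 hC hL hU
  obtain ⟨C1, hC1, hlow⟩ := low_steps
  -- choice of `K`
  obtain ⟨K, hK⟩ : ∃ K : ℕ, C1 * (12000 * ((K + 1 : ℕ) : ℝ)) ^ 2 * (1 - δ) ^ K ≤ ε := by
    rcases eq_or_lt_of_le hδ1 with h1 | h1
    · refine ⟨1, ?_⟩
      rw [h1]
      simp only [sub_self, pow_one, mul_zero]
      exact hε.le
    · have t1 := tendsto_pow_const_mul_const_pow_of_lt_one 2 (r := 1 - δ) (by linarith) (by linarith)
      have t2 := t1.const_mul (C1 * 24000 ^ 2)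
      rw [mul_zero] at t2
      obtain ⟨K, hK1, hK2⟩ := ((t2.eventually (gt_mem_nhds hε)).and
        (Filter.eventually_ge_atTop 1)).exists
      refine ⟨K, le_trans ?_ hK1.le⟩
      have hK2' : (1:ℝ) ≤ K := by exact_mod_cast hK2
      have hq0 : 0 ≤ (1 - δ) ^ K := pow_nonneg (by linarith) _
      have h5 : (12000 * ((K + 1 : ℕ) : ℝ)) ^ 2 ≤ (24000 * (K:ℝ)) ^ 2 := by
        refine pow_le_pow_left₀ (by positivity) ?_ 2
        push_cast
        linarith
      calc C1 * (12000 * ((K + 1 : ℕ) : ℝ)) ^ 2 * (1 - δ) ^ K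
          ≤ C1 * (24000 * (K:ℝ)) ^ 2 * (1 - δ) ^ K := by gcongr
        _ = C1 * 24000 ^ 2 * ((K:ℝ) ^ 2 * (1 - δ) ^ K) := by ring
  have hK10 : (0:ℝ) < ((K + 1 : ℕ) : ℝ) := by positivity
  refine ⟨c' / (800 * ((K + 1 : ℕ) : ℝ)) ^ (7/4 : ℝ), 8000 * (K + 1), by positivity, ?_⟩
  intro 𝒟 c n hn hI hb
  set a : ℕ := n / (400 * (K + 1)) with ha
  have ha20 : 20 ≤ a := by
    rw [ha, Nat.le_div_iff_mul_le (by positivity)]
    calc 20 * (400 * (K + 1)) = 8000 * (K + 1) := by ring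
      _ ≤ n := hn
  have han : a * (400 * (K + 1)) ≤ n := Nat.div_mul_le_self _ _
  have hna : n < a * (400 * (K + 1)) + 400 * (K + 1) := by
    have h := Nat.lt_div_mul_add (a := n) (b := 400 * (K + 1)) (by positivity)
    exact h
  have han2 : n ≤ 2 * a * (400 * (K + 1)) := by
    have : 400 * (K + 1) ≤ a * (400 * (K + 1)) := Nat.le_mul_of_pos_left _ (by omega)
    calc n ≤ a * (400 * (K + 1)) + 400 * (K + 1) := hna.le
      _ ≤ a * (400 * (K + 1)) + a * (400 * (K + 1)) := Nat.add_le_add_left this _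
      _ = 2 * a * (400 * (K + 1)) := by ring
  set M : ℕ := ⌈c' * (a:ℝ) ^ (7/4 : ℝ)⌉₊ with hM
  set L : ℤ := 3 * (n:ℤ) + 60 * a with hLd
  have h400a : 400 * a ≤ n := by
    have : a * 400 ≤ a * (400 * (K + 1)) := Nat.mul_le_mul_left _ (by omega)
    omega
  have hL0 : 0 < L := by omega
  -- the event
  have hmono : P 𝒟.E (fun F => (∃ k ≤ 𝒟.len F, Bo c n (𝒟.walk F k).1) ∧
        ((VS 𝒟 c (2 * n) F).card : ℝ) < c' / (800 * ((K + 1 : ℕ) : ℝ)) ^ (7/4 : ℝ) *
          (n:ℝ) ^ (7/4 : ℝ)) ≤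
      P 𝒟.E (bulk_sq M n L (c.1 - 2 * L) (c.2 - 2 * L)) := by
    refine Pr_mono two_ok ?_
    rintro F hF ⟨⟨k, hk, hk2⟩, hcard⟩
    refine steps_det hF (by omega) (by omega) hI hb hk hk2 ?_
    have h1 : ((VS 𝒟 c (2 * n) F).card : ℝ) < c' * (a:ℝ) ^ (7/4 : ℝ) := by
      refine hcard.trans_le ?_
      rw [div_mul_eq_mul_div, mul_div_assoc, ← Real.div_rpow (by positivity) (by positivity)]
      apply mul_le_mul_of_nonneg_left _ hc'.le
      apply Real.rpow_le_rpow (by positivity) _ (by norm_num)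
      rw [div_le_iff₀ (by positivity)]
      have : (n:ℝ) ≤ ((2 * a * (400 * (K + 1)) : ℕ) : ℝ) := by exact_mod_cast han2
      push_cast at this ⊢
      linarith
    have h2 : ((VS 𝒟 c (2 * n) F).card : ℝ) < (M : ℝ) := h1.trans_le (Nat.le_ceil _)
    exact_mod_cast h2
  refine hmono.trans ?_
  have hn4 : (((4 * L).toNat : ℕ) : ℤ) = 4 * L := by omega
  have hS : RE (c.1 - 2 * L) (c.1 - 2 * L + 4 * L) (c.2 - 2 * L) (c.2 - 2 * L + 4 * L) ⊆ 𝒟.E := by
    refine Finset.Subset.trans ?_ (hI.mono (R := 2 * L) (by omega)).box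
    apply RE_subset <;> omega
  have h1 := bulk_sq_pr (S := 𝒟.E) (a := a) (M := M) (n := (4 * L).toNat) (R := n) (L := L)
    (b := c.1 - 2 * L) (c := c.2 - 2 * L) hn4 hLd hS
  refine h1.trans ?_
  have h2 := hlow (4 * L).toNat a (K + 1) M δ n (by omega) (by omega) hδ.le hδ1
    (hall _ _ (by omega)) (by
      have : 121 * a * (K + 1) + a + 2 ≤ n := by
        have h3 : a * (400 * (K + 1)) = 121 * a * (K + 1) + 279 * a * (K + 1) := by ring
        have h4 : 279 * a ≤ 279 * a * (K + 1) := Nat.le_mul_of_pos_right _ (by omega)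
        omega
      exact_mod_cast this)
  refine h2.trans (le_trans ?_ hK)
  rw [Nat.add_sub_cancel]
  have hq0 : 0 ≤ (1 - δ) ^ K := pow_nonneg (by linarith) _
  have ha0 : (0:ℝ) < a := by
    have : 0 < a := by omega
    exact_mod_cast this
  have h5 : ((((4 * L).toNat : ℕ) : ℝ) / a + 1) ≤ 12000 * ((K + 1 : ℕ) : ℝ) := by
    have e1 : (((4 * L).toNat : ℕ) : ℝ) = 4 * (3 * (n:ℝ) + 60 * a) := by
      have : (((4 * L).toNat : ℕ) : ℤ) = 4 * (3 * (n:ℤ) + 60 * a) := by rw [hn4, hLd]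
      exact_mod_cast this
    rw [e1]
    have e2 : (n:ℝ) ≤ 2 * a * (400 * ((K + 1 : ℕ) : ℝ)) := by exact_mod_cast han2
    have e3 : 4 * (3 * (n:ℝ) + 60 * a) / a ≤ 9600 * ((K + 1 : ℕ) : ℝ) + 240 := by
      rw [div_le_iff₀ ha0]
      nlinarith
    have e4 : (1:ℝ) ≤ ((K + 1 : ℕ) : ℝ) := by
      exact_mod_cast Nat.succ_le_succ (Nat.zero_le K)
    linarith
  gcongr

end Pool.Agent.Helper49K9.AD
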