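import Pool.Agent.Helper49K9.AD.Cont
import Pool.Agent.Helper49K9.AD.Steps

/-!
The trace has a large content close to each point of the domain which it visits.
-/

set_option autoImplicit false

namespace Pool.Agent.Helper49K9.AD

open H974 H342P H984P H984N Finset MeasureTheory TopologicalSpace Filter Topology Metric
open H934E (pt)
open Pool.Agent.H389R2.Dim (Good good_of_energy)
open Pool.Agent.H160R2.CV (nv bx)

theorem pos_inj {δ : ℝ} (hδ : 0 < δ) : Function.Injective (pos δ) := by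
  rintro ⟨⟨x, y⟩, q⟩ ⟨⟨x', y'⟩, q'⟩ h
  have h1 : (pos δ ((x, y), q)).re = (pos δ ((x', y'), q')).re := by rw [h]
  have h2 : (pos δ ((x, y), q)).im = (pos δ ((x', y'), q')).im := by rw [h]
  rw [ML.pos_re, ML.pos_re] at h1
  rw [ML.pos_im, ML.pos_im] at h2
  have h1' := mul_left_cancel₀ hδ.ne' h1
  have h2' := mul_left_cancel₀ hδ.ne' h2
  simp only at h1' h2'
  have a1 := abs_le.1 (ML.qx_le q)
  have a2 := abs_le.1 (ML.qx_le q')
  have a3 := abs_le.1 (ML.qy_le q)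
  have a4 := abs_le.1 (ML.qy_le q')
  have hx : x = x' := by
    have b1 : (x:ℝ) < x' + 1 := by linarith
    have b2 : (x':ℝ) < x + 1 := by linarith
    have b1' : x < x' + 1 := by exact_mod_cast b1
    have b2' : x' < x + 1 := by exact_mod_cast b2
    omega
  have hy : y = y' := by
    have b1 : (y:ℝ) < y' + 1 := by linarith
    have b2 : (y':ℝ) < y + 1 := by linarith
    have b1' : y < y' + 1 := by exact_mod_cast b1
    have b2' : y' < y + 1 := by exact_mod_cast b2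
    omega
  subst hx
  subst hy
  have c1 : ML.qx q = ML.qx q' := by linarith
  have c2 : ML.qy q = ML.qy q' := by linarith
  have : q = q' := by
    cases q <;> cases q' <;> first | rfl | (exfalso; revert c1 c2; simp only [ML.qx, ML.qy]; norm_num)
  rw [this]

theorem dist_nv {δ : ℝ} (hδ : 0 < δ) (σ τ : St) :
    δ / 2 * ((max (nv (σ.1 - τ.1)) 1 : ℕ) : ℝ) ≤ max (dist (pos δ σ) (pos δ τ)) δ := by
  have h1 := le_dist_pos hδ.le σ τ
  rw [sd_nv, Int.cast_natCast] at h1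
  rcases Nat.eq_zero_or_pos (nv (σ.1 - τ.1)) with h | h
  · rw [h]
    refine le_trans ?_ (le_max_right _ _)
    simp
    linarith
  · refine le_trans ?_ (le_max_left _ _)
    have e : max (nv (σ.1 - τ.1)) 1 = nv (σ.1 - τ.1) := by omega
    rw [e]
    have h2 : (1:ℝ) ≤ (nv (σ.1 - τ.1) : ℝ) := by exact_mod_cast h
    nlinarith

theorem good_of_VS {α κ Λ ρ δ δ' : ℝ} {n : ℕ} (hα : 0 ≤ α) (hκ : 0 < κ) (hΛ : 0 < Λ)
    (hρ : 0 < ρ) (hδ : 0 < δ) (hδδ : δ ≤ δ') (hn : ρ ≤ δ * n) (hn1 : 1 ≤ n) {T : Finset St}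
    (hT : κ * (n:ℝ) ^ (7/4 : ℝ) ≤ T.card) (hE : en α T ≤ Λ * (n:ℝ) ^ (7/2 - α)) {K : Set ℂ}
    (hK : ∀ σ ∈ T, pos δ σ ∈ K) :
    Good α δ' (2 ^ (-α) / (2 ^ α * Λ / κ ^ 2 * ρ ^ (-α))) K := by
  classical
  have hn0 : (0:ℝ) < n := by exact_mod_cast hn1
  have hTne : T.Nonempty := by
    rw [Finset.nonempty_iff_ne_empty]
    rintro rfl
    rw [Finset.card_empty, Nat.cast_zero] at hT
    have : 0 < κ * (n:ℝ) ^ (7/4 : ℝ) := by positivity
    linarith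
  have hcard : (T.image (pos δ)).card = T.card := Finset.card_image_of_injective T (pos_inj hδ)
  refine good_of_energy (S := T.image (pos δ)) (lt_of_lt_of_le hδ hδδ) hα
    (E := 2 ^ α * Λ / κ ^ 2 * ρ ^ (-α)) (by positivity) (hTne.image _) ?_ ?_
  · intro x hx
    rw [Finset.coe_image] at hx
    obtain ⟨σ, hσ, rfl⟩ := hx
    exact hK σ hσ
  rw [Finset.sum_image (fun x _ y _ h => pos_inj hδ h), hcard]
  have h1 : ∀ σ ∈ T, ∑ z ∈ T.image (pos δ), (max (dist (pos δ σ) z) δ') ^ (-α) ≤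
      (δ / 2) ^ (-α) * ∑ τ ∈ T, ((max (nv (σ.1 - τ.1)) 1 : ℕ) : ℝ) ^ (-α) := by
    intro σ _
    rw [Finset.sum_image (fun x _ y _ h => pos_inj hδ h), Finset.mul_sum]
    apply Finset.sum_le_sum
    intro τ _
    have hp : (0 : ℝ) < ((max (nv (σ.1 - τ.1)) 1 : ℕ) : ℝ) := by
      have : 0 < max (nv (σ.1 - τ.1)) 1 := lt_of_lt_of_le Nat.one_pos (le_max_right _ _)
      exact_mod_cast this
    rw [← Real.mul_rpow (by positivity) hp.le]
    apply Real.rpow_le_rpow_of_nonpos (by positivity) _ (by linarith)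
    exact (dist_nv hδ σ τ).trans (max_le_max le_rfl hδδ)
  refine (Finset.sum_le_sum h1).trans ?_
  rw [← Finset.mul_sum]
  have h2 : ∑ σ ∈ T, ∑ τ ∈ T, ((max (nv (σ.1 - τ.1)) 1 : ℕ) : ℝ) ^ (-α) ≤
      Λ * (n:ℝ) ^ (7/2 - α) := hE
  have h4 : (n:ℝ) ^ (7/2 : ℝ) ≤ (T.card : ℝ) ^ 2 / κ ^ 2 := by
    rw [le_div_iff₀ (by positivity)]
    have e : (n:ℝ) ^ (7/2 : ℝ) * κ ^ 2 = (κ * (n:ℝ) ^ (7/4 : ℝ)) ^ 2 := by
      rw [mul_pow, ← Real.rpow_natCast ((n:ℝ) ^ (7/4 : ℝ)) 2, ← Real.rpow_mul hn0.le]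
      norm_num
      ring
    rw [e]
    exact pow_le_pow_left₀ (by positivity) hT 2
  have h5 : (δ / 2) ^ (-α) * (n : ℝ) ^ (-α) ≤ 2 ^ α * ρ ^ (-α) := by
    rw [← Real.mul_rpow (by positivity) hn0.le]
    have e : (2:ℝ) ^ α * ρ ^ (-α) = (ρ / 2) ^ (-α) := by
      rw [Real.div_rpow hρ.le (by norm_num), Real.rpow_neg (by norm_num : (0:ℝ) ≤ 2), div_inv_eq_mul]
      ring
    rw [e]
    exact Real.rpow_le_rpow_of_nonpos (by positivity) (by linarith) (by linarith)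
  have h6 : (0 : ℝ) < (δ / 2) ^ (-α) := by positivity
  have h7 : (0 : ℝ) < (n : ℝ) ^ (-α) := by positivity
  have h8 : (0 : ℝ) < ρ ^ (-α) := by positivity
  have h9 : (n:ℝ) ^ (7/2 - α) = (n:ℝ) ^ (7/2 : ℝ) * (n : ℝ) ^ (-α) := by
    rw [← Real.rpow_add hn0]
    congr 1
  calc (δ / 2) ^ (-α) * ∑ σ ∈ T, ∑ τ ∈ T, ((max (nv (σ.1 - τ.1)) 1 : ℕ) : ℝ) ^ (-α)
      ≤ (δ / 2) ^ (-α) * (Λ * (n:ℝ) ^ (7/2 - α)) := mul_le_mul_of_nonneg_left h2 h6.le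
    _ = Λ * (n:ℝ) ^ (7/2 : ℝ) * ((δ / 2) ^ (-α) * (n : ℝ) ^ (-α)) := by rw [h9]; ring
    _ ≤ Λ * ((T.card : ℝ) ^ 2 / κ ^ 2) * (2 ^ α * ρ ^ (-α)) := by
        apply mul_le_mul (mul_le_mul_of_nonneg_left h4 hΛ.le) h5 (by positivity) (by positivity)
    _ = _ := by ring

/-- Markov's inequality. -/
theorem mark {S : Finset Edg} {Y : Finset Edg → ℝ} (hY0 : ∀ F, 0 ≤ Y F) {m E : ℝ} (hE : 0 < E)
    (h : Ex (fun _ => (1/2:ℝ)) S Y ≤ m) : P S (fun F => E < Y F) ≤ m / E := by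
  rw [le_div_iff₀ hE]
  refine le_trans ?_ h
  show Ex (fun _ => (1/2:ℝ)) S (fun F => ind (E < Y F)) * E ≤ _
  rw [mul_comm, ← Ex_mul_left]
  refine Ex_mono two_ok ?_
  intro F _
  by_cases h : E < Y F
  · rw [ind_of h, mul_one]; exact h.le
  · rw [ind_not_of h, mul_zero]; exact hY0 F

/-- **Lower bound.** -/
theorem low_prob {c0 C C2 : ℝ} (hc0 : 0 < c0) (hC : 0 < C) (hL : LowA c0 (1/4))
    (hU : TwoUp C (1/4)) (hC2 : 0 < C2) (hA : AnnUp C2) {α : ℝ} (hα1 : 3/4 ≤ α) (hα : α < 7/4)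
    {D : Set ℂ} {a b : ℂ} {𝒟 : ℕ → Dob} {δ : ℕ → ℝ} (hap : Approx D a b 𝒟 δ) (haD : a ∉ D)
    (hbD : b ∉ D) {z : ℂ} {ρ : ℝ} (hρ : 0 < ρ) (hball : closedBall z (64 * ρ) ⊆ D) {ε : ℝ}
    (hε : 0 < ε) :
    ∃ c : ℝ, 0 < c ∧ ∀ δ' : ℝ, 0 < δ' → ∀ᶠ i in atTop,
      P (𝒟 i).E (fun F => (((𝒟 i).trace (δ i) F : Set ℂ) ∩ ball z ρ).Nonempty ∧
        ¬ Good α δ' c (((𝒟 i).trace (δ i) F : Set ℂ) ∩ closedBall z (16 * ρ))) ≤ ε := by
  obtain ⟨κ, n0, hκ, hst⟩ := steps_low hc0 hC hL hU (show 0 < ε / 2 by positivity)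
  obtain ⟨C', hC', hen⟩ := en_moment hC hU hC2 hA hα1 hα
  set Λ : ℝ := 2 * C' / ε with hΛd
  have hΛ : 0 < Λ := by positivity
  refine ⟨2 ^ (-α) / (2 ^ α * Λ / κ ^ 2 * ρ ^ (-α)), by positivity, ?_⟩
  intro δ' hδ'
  filter_upwards [hap.inner _ (isCompact_closedBall z _) hball,
    hap.mesh.eventually_lt_const (show (0:ℝ) < min (ρ / 100) (min δ' (ρ / (n0 + 1))) by positivity),
    (Metric.tendsto_nhds.1 hap.start) ρ hρ, (Metric.tendsto_nhds.1 hap.stop) ρ hρ]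
    with i h1 h2 h3 h4
  have hδ := hap.pos i
  have hd1 : δ i < ρ / 100 := h2.trans_le (min_le_left _ _)
  have hd2 : δ i < δ' := h2.trans_le ((min_le_right _ _).trans (min_le_left _ _))
  have hd3 : δ i < ρ / (n0 + 1) := h2.trans_le ((min_le_right _ _).trans (min_le_right _ _))
  set n : ℕ := ⌈ρ / δ i⌉₊ + 2 with hn
  have n1 : (⌈ρ / δ i⌉₊ : ℝ) < ρ / δ i + 1 := Nat.ceil_lt_add_one (by positivity)
  have n2 : ρ / δ i ≤ (⌈ρ / δ i⌉₊ : ℝ) := Nat.le_ceil _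
  have nR : (n:ℝ) = (⌈ρ / δ i⌉₊ : ℝ) + 2 := by rw [hn]; push_cast; ring
  have hq : ρ / δ i * δ i = ρ := div_mul_cancel₀ _ hδ.ne'
  have hq100 : 100 < ρ / δ i := by
    rw [lt_div_iff₀ hδ]
    linarith
  have hn1 : 1 ≤ n := by omega
  have hnn0 : n0 ≤ n := by
    have : (n0 : ℝ) ≤ n := by
      have h5 : (n0:ℝ) + 1 ≤ ρ / δ i := by
        rw [le_div_iff₀ hδ]
        rw [lt_div_iff₀ (by positivity)] at hd3
        linarith
      linarith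
    exact_mod_cast this
  -- boxes
  have hbox : ∀ v : Vtx, Bo (cz (δ i) z) (16 * n) v → dist (pt (δ i) v) z ≤ 40 * ρ := by
    intro v hv
    have h5 := cz_near hδ hv
    push_cast at h5
    have h6 : 2 * δ i * (16 * (n:ℝ) + 1) ≤ 40 * ρ := by
      have : (n:ℝ) ≤ ρ / δ i + 3 := by linarith
      calc 2 * δ i * (16 * (n:ℝ) + 1) ≤ 2 * δ i * (16 * (ρ / δ i + 3) + 1) := by gcongr
        _ = 32 * (ρ / δ i * δ i) + 98 * δ i := by ring
        _ ≤ 40 * ρ := by rw [hq]; linarith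
    linarith
  have hI : In (𝒟 i) (cz (δ i) z) (16 * n) := by
    intro e he
    apply h1
    have key : ∀ v : Vtx, Bo (cz (δ i) z) (16 * n) v → pt (δ i) v ∈ closedBall z (64 * ρ) := by
      intro v hv
      rw [mem_closedBall]
      have := hbox v hv
      linarith
    exact he.imp (key _) (key _)
  have hfar : ∀ (x : ℂ) (σ : St), x ∉ D → dist (pos (δ i) σ) x < ρ →
      ¬ Bo (cz (δ i) z) (16 * n) σ.1 := by
    intro x σ hx hd hbo
    apply hx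
    apply hball
    rw [mem_closedBall]
    have h5 := hbox _ hbo
    have h6 := pos_pt hδ.le σ
    have h7 := dist_triangle4 x (pos (δ i) σ) (pt (δ i) σ.1) z
    rw [dist_comm x (pos (δ i) σ)] at h7
    linarith
  have ha0 := hfar a (𝒟 i).a haD h3
  have hb0 := hfar b (𝒟 i).b hbD h4
  have hst' := hst (𝒟 i) (cz (δ i) z) n hnn0 hI hb0
  have hen' := hen (𝒟 i) (cz (δ i) z) n hn1 hI ha0
  have hn0R : (0:ℝ) < n := by exact_mod_cast hn1
  have hmark := mark (S := (𝒟 i).E) (Y := fun F => en α (VS (𝒟 i) (cz (δ i) z) (2 * n) F))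
    (fun F => Finset.sum_nonneg fun _ _ => Finset.sum_nonneg fun _ _ => kp _ _)
    (E := Λ * (n:ℝ) ^ (7/2 - α)) (by positivity) hen'
  have hm2 : C' * (n:ℝ) ^ (7/2 - α) / (Λ * (n:ℝ) ^ (7/2 - α)) = ε / 2 := by
    rw [hΛd]
    have : (0:ℝ) < (n:ℝ) ^ (7/2 - α) := by positivity
    field_simp
  rw [hm2] at hmark
  have hfin : P (𝒟 i).E (fun F => (((𝒟 i).trace (δ i) F : Set ℂ) ∩ ball z ρ).Nonempty ∧
        ¬ Good α δ' (2 ^ (-α) / (2 ^ α * Λ / κ ^ 2 * ρ ^ (-α)))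
          (((𝒟 i).trace (δ i) F : Set ℂ) ∩ closedBall z (16 * ρ))) ≤
      P (𝒟 i).E (fun F => ((∃ k ≤ (𝒟 i).len F, Bo (cz (δ i) z) n ((𝒟 i).walk F k).1) ∧
        ((VS (𝒟 i) (cz (δ i) z) (2 * n) F).card : ℝ) < κ * (n:ℝ) ^ (7/4 : ℝ)) ∨
        Λ * (n:ℝ) ^ (7/2 - α) < en α (VS (𝒟 i) (cz (δ i) z) (2 * n) F)) := by
    refine Pr_mono two_ok ?_
    rintro F _ ⟨hne, hng⟩
    by_contra hcon
    rw [not_or] at hcon
    obtain ⟨hc1, hc2⟩ := hcon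
    have hvis : ∃ k ≤ (𝒟 i).len F, Bo (cz (δ i) z) n ((𝒟 i).walk F k).1 :=
      trace_hit (𝒟 i) hδ F (by push_cast; linarith) hne
    have hcard : κ * (n:ℝ) ^ (7/4 : ℝ) ≤ ((VS (𝒟 i) (cz (δ i) z) (2 * n) F).card : ℝ) := by
      by_contra h
      exact hc1 ⟨hvis, not_le.1 h⟩
    apply hng
    refine good_of_VS (by linarith) hκ hΛ hρ hδ hd2.le ?_ hn1 hcard (not_lt.1 hc2) ?_
    · rw [nR]
      nlinarith
    · intro σ hσ
      rw [mem_VS] at hσ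
      obtain ⟨hσ1, k, hk, hk2⟩ := hσ
      refine ⟨?_, ?_⟩
      · rw [← hk2]
        exact mem_trace (𝒟 i) (δ i) F hk
      · rw [mem_closedBall]
        have h5 := cz_near hδ hσ1
        have h6 := pos_pt hδ.le σ
        have h7 := dist_triangle (pos (δ i) σ) (pt (δ i) σ.1) z
        push_cast at h5
        have h8 : 2 * δ i * (2 * (n:ℝ) + 1) ≤ 8 * ρ := by
          have : (n:ℝ) ≤ ρ / δ i + 3 := by linarith
          calc 2 * δ i * (2 * (n:ℝ) + 1) ≤ 2 * δ i * (2 * (ρ / δ i + 3) + 1) := by gcongr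
            _ = 4 * (ρ / δ i * δ i) + 14 * δ i := by ring
            _ ≤ 8 * ρ := by rw [hq]; linarith
        linarith
  have hor := Pr_or_le two_ok (S := (𝒟 i).E)
    (A := fun F => (∃ k ≤ (𝒟 i).len F, Bo (cz (δ i) z) n ((𝒟 i).walk F k).1) ∧
        ((VS (𝒟 i) (cz (δ i) z) (2 * n) F).card : ℝ) < κ * (n:ℝ) ^ (7/4 : ℝ))
    (B := fun F => Λ * (n:ℝ) ^ (7/2 - α) < en α (VS (𝒟 i) (cz (δ i) z) (2 * n) F))
  refine hfin.trans (hor.trans ?_)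
  have : ε / 2 + ε / 2 = ε := by ring
  linarith

end Pool.Agent.Helper49K9.AD
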