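import Pool.Agent.Helper49K9.AD.Walk

/-!
Probabilities of one and two visits in the bulk, and the energy of the set of visited states.
-/

set_option autoImplicit false

namespace Pool.Agent.Helper49K9.AD

open H974 H342P H984P H984N Finset
open Pool.Agent.H160R2.CV (nv bx)

/-- The state is visited by the path. -/
def Vis (𝒟 : Dob) (F : Finset Edg) (σ : St) : Prop := ∃ k ≤ 𝒟.len F, 𝒟.walk F k = σ

theorem pr1 {C : ℝ} (hU : TwoUp C (1/4)) {S : Finset Edg} {σ : St} {k : ℤ} (h0 : 0 < k)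
    (hk : RE (σ.1.1 - k) (σ.1.1 + k) (σ.1.2 - k) (σ.1.2 + k) ⊆ S) :
    P S (fun F => Two σ.1 (face σ) k (↑F)) ≤ C * (k:ℝ) ^ (-(1/4) : ℝ) := by
  have h1 : P S (fun F => Two σ.1 (face σ) k (↑F)) =
      Pr (fun _ => (1/2:ℝ)) (RE (σ.1.1 - k) (σ.1.1 + k) (σ.1.2 - k) (σ.1.2 + k))
        (fun F => Two σ.1 (face σ) k (↑F)) := pr_two h0 hk
  rw [h1]
  exact hU _ _ _ h0 (one_inc σ)

theorem box_self (u : Vtx) {R : ℤ} (hR : 0 ≤ R) : Bo u R u := by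
  unfold Bo inR
  omega

/-- One visit. -/
theorem pr_vis1 {C : ℝ} (hU : TwoUp C (1/4)) {𝒟 : Dob} {σ : St} {m : ℕ} (hm : 1 ≤ m)
    (hI : In 𝒟 σ.1 (m + 2)) (h0 : ¬ Bo σ.1 (m + 1) 𝒟.a.1) :
    P 𝒟.E (fun F => Vis 𝒟 F σ) ≤ C * (m:ℝ) ^ (-(1/4) : ℝ) := by
  have h1 := pr1 hU (S := 𝒟.E) (σ := σ) (k := m) (by omega) (hI.mono (by omega)).box
  rw [Int.cast_natCast] at h1
  refine le_trans (Pr_mono two_ok ?_) h1
  rintro F _ ⟨k, _, rfl⟩
  exact vis_two (by omega) h0 hI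

/-- Two boxes and the annulus around them. -/
theorem pr_three {C C2 : ℝ} (hC : 0 < C) (hU : TwoUp C (1/4)) (hC2 : 0 < C2) (hA : AnnUp C2)
    {𝒟 : Dob} {σ τ : St} {r d k : ℕ} (hr : sd σ.1 τ.1 = r)
    (hk1 : 1 ≤ k) (hk : 2 * k < r) (hrd : r + k + 2 ≤ d) (hI : In 𝒟 σ.1 (d + 2))
    (h0 : ¬ Bo σ.1 (d + 1) 𝒟.a.1) :
    P 𝒟.E (fun F => Vis 𝒟 F σ ∧ Vis 𝒟 F τ) ≤
      (C * (k:ℝ) ^ (-(1/4) : ℝ)) * ((C * (k:ℝ) ^ (-(1/4) : ℝ)) *
        (C2 * (((r + k + 1 : ℕ) : ℝ) / (d : ℕ)) ^ (1/4 : ℝ))) := by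
  have hs := two_sd hr
  have hIσ : In 𝒟 σ.1 (k + 2) := hI.mono (by omega)
  have hbτ : Bo σ.1 r τ.1 := by unfold Bo inR; omega
  have hIτ : In 𝒟 τ.1 (k + 2) := In.sub hbτ (hI.mono (by omega))
  set X1 := RE (σ.1.1 - k) (σ.1.1 + k) (σ.1.2 - k) (σ.1.2 + k) with hX1
  set X2 := RE (τ.1.1 - k) (τ.1.1 + k) (τ.1.2 - k) (τ.1.2 + k) with hX2
  set Bx := RE (σ.1.1 - ((r + k : ℕ) : ℤ)) (σ.1.1 + ((r + k : ℕ) : ℤ)) (σ.1.2 - ((r + k : ℕ) : ℤ))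
    (σ.1.2 + ((r + k : ℕ) : ℤ)) with hBx
  set X3 := 𝒟.E \ Bx with hX3
  have s1 : X1 ⊆ 𝒟.E := (hIσ.mono (by omega)).box
  have s2 : X2 ⊆ 𝒟.E := (hIτ.mono (by omega)).box
  have s3 : X3 ⊆ 𝒟.E := Finset.sdiff_subset
  have b1 : X1 ⊆ Bx := RE_subset (by push_cast; omega) (by push_cast; omega)
    (by push_cast; omega) (by push_cast; omega)
  have b2 : X2 ⊆ Bx := RE_subset (by push_cast; omega) (by push_cast; omega)
    (by push_cast; omega) (by push_cast; omega)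
  have d12 : Disjoint X1 X2 := by
    rw [Finset.disjoint_left]
    rintro ⟨x, y, t⟩ h1 h2
    rw [hX1] at h1
    rw [hX2] at h2
    cases t
    · rw [mem_RE_false] at h1 h2
      omega
    · rw [mem_RE_true] at h1 h2
      omega
  have d13 : Disjoint X1 X3 := Finset.disjoint_of_subset_left b1 Finset.disjoint_sdiff
  have d23 : Disjoint X2 X3 := Finset.disjoint_of_subset_left b2 Finset.disjoint_sdiff
  have hk0 : (0:ℤ) < k := by omega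
  have i23 : P 𝒟.E (fun F => Two τ.1 (face τ) k (↑F) ∧ two_An X3 σ.1 (r + k + 1) d F) =
      P 𝒟.E (fun F => Two τ.1 (face τ) k (↑F)) * P 𝒟.E (two_An X3 σ.1 (r + k + 1) d) :=
    Pr_indep s2 s3 d23 (fun F _ => two_inter hk0 F (Finset.Subset.refl _))
      (fun F _ => two_loc _ _ _ _ F)
  have i1 : P 𝒟.E (fun F => Two σ.1 (face σ) k (↑F) ∧
      (Two τ.1 (face τ) k (↑F) ∧ two_An X3 σ.1 (r + k + 1) d F)) =
      P 𝒟.E (fun F => Two σ.1 (face σ) k (↑F)) *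
        P 𝒟.E (fun F => Two τ.1 (face τ) k (↑F) ∧ two_An X3 σ.1 (r + k + 1) d F) := by
    apply Pr_indep s1 (Finset.union_subset s2 s3) (Finset.disjoint_union_right.2 ⟨d12, d13⟩)
      (fun F _ => two_inter hk0 F (Finset.Subset.refl _))
    intro F _
    rw [two_loc' (X := X3) Finset.subset_union_right (Y := X2 ∪ X3),
      two_inter hk0 F (T := X2 ∪ X3) Finset.subset_union_left]
  have hm : P 𝒟.E (fun F => Vis 𝒟 F σ ∧ Vis 𝒟 F τ) ≤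
      P 𝒟.E (fun F => Two σ.1 (face σ) k (↑F) ∧
        (Two τ.1 (face τ) k (↑F) ∧ two_An X3 σ.1 (r + k + 1) d F)) := by
    refine Pr_mono two_ok fun F hF hv => ?_
    obtain ⟨⟨i, _, hi⟩, ⟨j, _, hj⟩⟩ := hv
    refine ⟨?_, ?_, ?_⟩
    · rw [← hi]
      apply vis_two (by omega)
      · rw [hi]
        exact fun h => h0 (Bo.mono (by omega) h)
      · rw [hi]; exact hIσ
    · rw [← hj]
      apply vis_two (by omega)
      · rw [hj]
        exact fun h => h0 (Bo.mono (by omega) (hbτ.sub h))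
      · rw [hj]; exact hIτ
    · have h3 := vis_ann (𝒟 := 𝒟) (F := F) (k := i) (c := σ.1) (r := r + k) (R := d)
        (by rw [hi]; exact box_self _ (by omega)) (by omega) h0 hI
      unfold two_An
      have e1 : F ∩ X3 = F \ Bx := by
        rw [hX3]
        ext e
        simp only [Finset.mem_inter, Finset.mem_sdiff]
        constructor
        · rintro ⟨a1, a2, a3⟩
          exact ⟨a1, a3⟩
        · rintro ⟨a1, a3⟩
          exact ⟨a1, hF a1, a3⟩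
      rw [e1]
      exact h3
  rw [i1, i23] at hm
  refine hm.trans ?_
  have g1 := pr1 hU (S := 𝒟.E) (σ := σ) hk0 s1
  have g2 := pr1 hU (S := 𝒟.E) (σ := τ) hk0 s2
  have g3 := two_pr hA s3 σ.1 (r := r + k + 1) (R := d) (by omega) (by omega)
  rw [Int.cast_natCast] at g1 g2
  have hkr : (0:ℝ) < k := by exact_mod_cast hk1
  have hpos : 0 ≤ C * (k:ℝ) ^ (-(1/4) : ℝ) := by positivity
  exact mul_le_mul g1 (mul_le_mul g2 g3 (Pr_nonneg two_ok _ _) hpos)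
    (mul_nonneg (Pr_nonneg two_ok _ _) (Pr_nonneg two_ok _ _)) hpos

theorem sd_nv (u v : Vtx) : sd u v = (nv (u - v) : ℤ) := by
  unfold sd nv
  rw [Nat.cast_max, Int.natCast_natAbs, Int.natCast_natAbs]
  rfl

/-- Two visits. -/
theorem pr_vis2 {C C2 : ℝ} (hC : 0 < C) (hU : TwoUp C (1/4)) (hC2 : 0 < C2) (hA : AnnUp C2) :
    ∃ C' : ℝ, 0 < C' ∧ ∀ (𝒟 : Dob) (c : Vtx) (n : ℕ), 1 ≤ n → In 𝒟 c (16 * n) →
      ¬ Bo c (16 * n) 𝒟.a.1 → ∀ σ τ : St, Bo c (2 * n) σ.1 → Bo c (2 * n) τ.1 →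
      P 𝒟.E (fun F => Vis 𝒟 F σ ∧ Vis 𝒟 F τ) ≤
        C' * (n:ℝ) ^ (-(1/4) : ℝ) * ((max (nv (σ.1 - τ.1)) 1 : ℕ) : ℝ) ^ (-(1/4) : ℝ) := by
  refine ⟨2 * C + 8 * C ^ 2 * C2, by positivity, ?_⟩
  intro 𝒟 c n hn hI h0 σ τ hσ hτ
  have hnR : (0:ℝ) < n := by exact_mod_cast hn
  obtain ⟨r, hr⟩ : ∃ r : ℕ, r = nv (σ.1 - τ.1) := ⟨_, rfl⟩
  have hrs : sd σ.1 τ.1 = r := by rw [hr]; exact sd_nv _ _
  rw [← hr]
  have hs := two_sd hrs
  have hr4 : r ≤ 4 * n := by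
    unfold Bo inR at hσ hτ
    omega
  have ha0 : 0 < (n:ℝ) ^ (-(1/4) : ℝ) := Real.rpow_pos_of_pos hnR _
  rcases Nat.lt_or_ge r 3 with h3 | h3
  · have h1 : P 𝒟.E (fun F => Vis 𝒟 F σ ∧ Vis 𝒟 F τ) ≤ P 𝒟.E (fun F => Vis 𝒟 F σ) :=
      Pr_mono two_ok fun F _ hv => hv.1
    have h2 := pr_vis1 hU (𝒟 := 𝒟) (σ := σ) (m := n) hn (In.sub hσ (hI.mono (by omega)))
      (fun h => h0 ((hσ.sub h).mono (by omega)))
    have hmR : (0:ℝ) < ((max r 1 : ℕ) : ℝ) := by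
      have : 0 < max r 1 := by omega
      exact_mod_cast this
    have h4 : 1 ≤ 2 * ((max r 1 : ℕ) : ℝ) ^ (-(1/4) : ℝ) := by
      have := two_inv (x := 1) (y := ((max r 1 : ℕ) : ℝ)) (M := 2) one_pos hmR (by norm_num)
        (by
          rw [mul_one]
          have : max r 1 ≤ 2 := by omega
          exact_mod_cast this)
      rwa [Real.one_rpow] at this
    refine (h1.trans h2).trans ?_
    have h5 : 0 ≤ 8 * C ^ 2 * C2 * ((n:ℝ) ^ (-(1/4) : ℝ) * ((max r 1 : ℕ) : ℝ) ^ (-(1/4) : ℝ)) := by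
      positivity
    calc C * (n:ℝ) ^ (-(1/4) : ℝ) = C * (n:ℝ) ^ (-(1/4) : ℝ) * 1 := (mul_one _).symm
      _ ≤ C * (n:ℝ) ^ (-(1/4) : ℝ) * (2 * ((max r 1 : ℕ) : ℝ) ^ (-(1/4) : ℝ)) :=
          mul_le_mul_of_nonneg_left h4 (by positivity)
      _ ≤ _ := by linarith
  · have hmax : max r 1 = r := by omega
    rw [hmax]
    have hrR : (0:ℝ) < r := by
      have : 0 < r := by omega
      exact_mod_cast this
    obtain ⟨k, hk1, hk2⟩ : ∃ k : ℕ, 2 * k < r ∧ r ≤ 4 * k := ⟨(r - 1) / 2, by omega, by omega⟩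
    have hk0 : 1 ≤ k := by omega
    have hkR : (0:ℝ) < k := by exact_mod_cast hk0
    have h1 := pr_three hC hU hC2 hA (𝒟 := 𝒟) (σ := σ) (τ := τ) (r := r) (d := 8 * n) (k := k)
      hrs hk0 hk1 (by omega) (In.sub hσ (hI.mono (by push_cast; omega)))
      (fun h => h0 ((hσ.sub h).mono (by push_cast; omega)))
    refine h1.trans ?_
    set b := (r:ℝ) ^ (-(1/4) : ℝ) with hb
    set a := (n:ℝ) ^ (-(1/4) : ℝ) with ha
    have hb0 : 0 < b := Real.rpow_pos_of_pos hrR _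
    have hkb : (k:ℝ) ^ (-(1/4) : ℝ) ≤ 2 * b := by
      have h5 : (k:ℝ) ^ (-(1/4) : ℝ) ≤ ((r:ℝ) / 4) ^ (-(1/4) : ℝ) := by
        apply Real.rpow_le_rpow_of_nonpos (by positivity) _ (by norm_num)
        rw [div_le_iff₀ (by norm_num)]
        have : r ≤ k * 4 := by omega
        exact_mod_cast this
      refine h5.trans ?_
      rw [Real.div_rpow hrR.le (by norm_num), div_eq_mul_inv, mul_comm]
      apply mul_le_mul_of_nonneg_right _ hb0.le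
      rw [← Real.rpow_neg (by norm_num)]
      have : (4:ℝ) ^ (- -(1/4) : ℝ) ≤ 4 ^ (1/2 : ℝ) :=
        Real.rpow_le_rpow_of_exponent_le (by norm_num) (by norm_num)
      refine this.trans (le_of_eq ?_)
      rw [← Real.sqrt_eq_rpow, show (4:ℝ) = 2 ^ 2 by norm_num, Real.sqrt_sq (by norm_num)]
    have hq : (((r + k + 1 : ℕ) : ℝ) / ((8 * n : ℕ) : ℝ)) ^ (1/4 : ℝ) ≤ b⁻¹ * a := by
      have hq2 : ((r:ℝ) / n) ^ (1/4 : ℝ) = b⁻¹ * a := by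
        rw [Real.div_rpow hrR.le hnR.le, ha, hb, Real.rpow_neg hrR.le, Real.rpow_neg hnR.le,
          inv_inv, div_eq_mul_inv]
      rw [← hq2]
      apply Real.rpow_le_rpow (by positivity) _ (by norm_num)
      have e1 : ((r + k + 1 : ℕ) : ℝ) ≤ 2 * r := by
        have : r + k + 1 ≤ 2 * r := by omega
        exact_mod_cast this
      push_cast at e1 ⊢
      rw [div_le_div_iff₀ (by positivity) hnR]
      nlinarith
    calc (C * (k:ℝ) ^ (-(1/4) : ℝ)) * ((C * (k:ℝ) ^ (-(1/4) : ℝ)) *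
          (C2 * (((r + k + 1 : ℕ) : ℝ) / ((8 * n : ℕ) : ℝ)) ^ (1/4 : ℝ)))
        ≤ (C * (2 * b)) * ((C * (2 * b)) * (C2 * (b⁻¹ * a))) := by
          gcongr
      _ = 4 * C ^ 2 * C2 * (a * b) := by
          field_simp
          ring
      _ ≤ (2 * C + 8 * C ^ 2 * C2) * a * b := by
          have : 0 < a * b := mul_pos ha0 hb0
          have h6 : 0 < C ^ 2 * C2 := by positivity
          have h7 : 4 * C ^ 2 * C2 ≤ 2 * C + 8 * C ^ 2 * C2 := by nlinarith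
          calc 4 * C ^ 2 * C2 * (a * b) ≤ (2 * C + 8 * C ^ 2 * C2) * (a * b) :=
                mul_le_mul_of_nonneg_right h7 this.le
            _ = _ := by ring

open Classical in
/-- The visited states over the box of radius `m` around `c`. -/
noncomputable def VS (𝒟 : Dob) (c : Vtx) (m : ℕ) (F : Finset Edg) : Finset St :=
  (((bx m).image (fun x => c + x)) ×ˢ (Finset.univ : Finset Q4)).filter (Vis 𝒟 F)

theorem mem_VS {𝒟 : Dob} {c : Vtx} {m : ℕ} {F : Finset Edg} {σ : St} :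
    σ ∈ VS 𝒟 c m F ↔ Bo c m σ.1 ∧ Vis 𝒟 F σ := by
  classical
  unfold VS
  rw [Finset.mem_filter, Finset.mem_product, Finset.mem_image]
  constructor
  · rintro ⟨⟨⟨x, hx, hx2⟩, _⟩, h2⟩
    refine ⟨?_, h2⟩
    unfold bx at hx
    rw [Finset.mem_product, Finset.mem_Icc, Finset.mem_Icc] at hx
    rw [← hx2]
    unfold Bo inR
    simp only [Prod.fst_add, Prod.snd_add]
    omega
  · rintro ⟨h1, h2⟩
    refine ⟨⟨⟨σ.1 - c, ?_, by abel⟩, Finset.mem_univ _⟩, h2⟩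
    unfold bx
    rw [Finset.mem_product, Finset.mem_Icc, Finset.mem_Icc]
    unfold Bo inR at h1
    simp only [Prod.fst_sub, Prod.snd_sub]
    omega

/-- The energy of the visited states. -/
noncomputable def en (α : ℝ) (T : Finset St) : ℝ :=
  ∑ σ ∈ T, ∑ τ ∈ T, ((max (nv (σ.1 - τ.1)) 1 : ℕ) : ℝ) ^ (-α)

theorem kp (α : ℝ) (k : ℕ) : 0 ≤ ((max k 1 : ℕ) : ℝ) ^ (-α) := by positivity

/-- First moment of the energy. -/
theorem en_moment {C C2 : ℝ} (hC : 0 < C) (hU : TwoUp C (1/4)) (hC2 : 0 < C2) (hA : AnnUp C2)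
    {α : ℝ} (hα1 : 3/4 ≤ α) (hα : α < 7/4) :
    ∃ C' : ℝ, 0 < C' ∧ ∀ (𝒟 : Dob) (c : Vtx) (n : ℕ), 1 ≤ n → In 𝒟 c (16 * n) →
      ¬ Bo c (16 * n) 𝒟.a.1 →
      Ex (fun _ => (1/2:ℝ)) 𝒟.E (fun F => en α (VS 𝒟 c (2 * n) F)) ≤ C' * (n:ℝ) ^ (7/2 - α) := by
  classical
  obtain ⟨C1, hC1, h1⟩ := pr_vis2 hC hU hC2 hA
  set b : ℝ := α + 1/4 - 1 with hb
  have hb0 : 0 ≤ b := by rw [hb]; linarith
  have hb1 : b < 1 := by rw [hb]; linarith
  have h1b : 0 < 1 - b := by linarith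
  set K : ℝ := 1 + 4 / (1 - b) with hK
  have hK0 : 0 < K := by positivity
  refine ⟨25 * 16 * C1 * (8 * (2 * K)), by positivity, ?_⟩
  intro 𝒟 c n hn hI h0
  have hn1 : (1:ℝ) ≤ n := by exact_mod_cast hn
  have hn0 : (0:ℝ) < n := by linarith
  set f : ℕ → ℝ := fun k => ((max k 1 : ℕ) : ℝ) ^ (-(α + 1/4)) with hf
  have hf0 : ∀ k, 0 ≤ f k := fun k => kp _ k
  -- one-dimensional sum
  have hsum : ∑ k ∈ range (2 * (2 * n) + 1), ((k : ℝ) + 1) * f k ≤ 2 * K * (n : ℝ) ^ (1 - b) := by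
    have h2 : ∀ k ∈ range (2 * (2 * n) + 1), ((k : ℝ) + 1) * f k ≤
        2 * ((max k 1 : ℕ) : ℝ) ^ (-b) := by
      intro k _
      have hm1 : (1:ℝ) ≤ ((max k 1 : ℕ) : ℝ) := by
        exact_mod_cast le_max_right k 1
      have hm0 : (0:ℝ) < ((max k 1 : ℕ) : ℝ) := by linarith
      have e2 : ((max k 1 : ℕ) : ℝ) ^ (-b) =
          ((max k 1 : ℕ) : ℝ) * ((max k 1 : ℕ) : ℝ) ^ (-(α + 1/4)) := by
        nth_rewrite 2 [← Real.rpow_one ((max k 1 : ℕ) : ℝ)]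
        rw [← Real.rpow_add hm0]
        congr 1
        rw [hb]; ring
      rw [e2, hf]
      simp only
      have h3 : (k:ℝ) + 1 ≤ 2 * ((max k 1 : ℕ) : ℝ) := by
        have : k + 1 ≤ 2 * max k 1 := by omega
        exact_mod_cast this
      have h4 := kp (α + 1/4) k
      nlinarith
    refine (Finset.sum_le_sum h2).trans ?_
    rw [← Finset.mul_sum, mul_assoc]
    apply mul_le_mul_of_nonneg_left _ (by norm_num)
    refine (Pool.Agent.H389R2.CD.sum_pow_le hb0 hb1 (2 * (2 * n))).trans ?_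
    have h3 : (1 : ℝ) ≤ (n : ℝ) ^ (1 - b) := Real.one_le_rpow hn1 h1b.le
    have h4 : ((2 * (2 * n) : ℕ) : ℝ) ^ (1 - b) ≤ 4 * (n : ℝ) ^ (1 - b) := by
      push_cast
      rw [show (2:ℝ) * (2 * n) = 4 * n by ring, Real.mul_rpow (by norm_num) hn0.le]
      apply mul_le_mul_of_nonneg_right _ (by positivity)
      calc (4 : ℝ) ^ (1 - b) ≤ (4 : ℝ) ^ (1 : ℝ) :=
            Real.rpow_le_rpow_of_exponent_le (by norm_num) (by linarith)
        _ = 4 := Real.rpow_one _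
    have h5 : ((2 * (2 * n) : ℕ) : ℝ) ^ (1 - b) / (1 - b) ≤ 4 / (1 - b) * (n : ℝ) ^ (1 - b) := by
      rw [div_mul_eq_mul_div]
      exact div_le_div_of_nonneg_right h4 h1b.le
    calc 1 + ((2 * (2 * n) : ℕ) : ℝ) ^ (1 - b) / (1 - b)
        ≤ (n : ℝ) ^ (1 - b) + 4 / (1 - b) * (n : ℝ) ^ (1 - b) := add_le_add h3 h5
      _ = K * (n : ℝ) ^ (1 - b) := by rw [hK]; ring
  -- energy as a double sum
  set T : Finset St := ((bx (2 * n)).image (fun x => c + x)) ×ˢ (Finset.univ : Finset Q4) with hT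
  have hTm : ∀ σ ∈ T, Bo c (2 * n) σ.1 := by
    intro σ hσ
    rw [hT, Finset.mem_product, Finset.mem_image] at hσ
    obtain ⟨⟨x, hx, hx2⟩, _⟩ := hσ
    unfold bx at hx
    rw [Finset.mem_product, Finset.mem_Icc, Finset.mem_Icc] at hx
    rw [← hx2]
    unfold Bo inR
    simp only [Prod.fst_add, Prod.snd_add]
    push_cast at hx
    omega
  have e0 : ∀ F, en α (VS 𝒟 c (2 * n) F) = ∑ σ ∈ T, ∑ τ ∈ T,
      ((max (nv (σ.1 - τ.1)) 1 : ℕ) : ℝ) ^ (-α) * ind (Vis 𝒟 F σ ∧ Vis 𝒟 F τ) := by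
    intro F
    unfold en VS
    rw [← hT, Finset.sum_filter]
    apply Finset.sum_congr rfl
    intro σ _
    by_cases hσ : Vis 𝒟 F σ
    · rw [if_pos hσ, Finset.sum_filter]
      apply Finset.sum_congr rfl
      intro τ _
      by_cases hτ : Vis 𝒟 F τ
      · rw [if_pos hτ, ind_of ⟨hσ, hτ⟩, mul_one]
      · rw [if_neg hτ, ind_not_of (fun h => hτ h.2), mul_zero]
    · rw [if_neg hσ]
      symm
      apply Finset.sum_eq_zero
      intro τ _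
      rw [ind_not_of (fun h => hσ h.1), mul_zero]
  have e1 : Ex (fun _ => (1/2:ℝ)) 𝒟.E (fun F => en α (VS 𝒟 c (2 * n) F)) =
      ∑ σ ∈ T, ∑ τ ∈ T, ((max (nv (σ.1 - τ.1)) 1 : ℕ) : ℝ) ^ (-α) *
        P 𝒟.E (fun F => Vis 𝒟 F σ ∧ Vis 𝒟 F τ) := by
    have e2 : (fun F => en α (VS 𝒟 c (2 * n) F)) = fun F => ∑ σ ∈ T, ∑ τ ∈ T,
      ((max (nv (σ.1 - τ.1)) 1 : ℕ) : ℝ) ^ (-α) * ind (Vis 𝒟 F σ ∧ Vis 𝒟 F τ) := funext e0
    rw [e2, Ex_sum]
    apply Finset.sum_congr rfl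
    intro σ _
    rw [Ex_sum]
    apply Finset.sum_congr rfl
    intro τ _
    rw [Ex_mul_left]
    rfl
  rw [e1]
  have e3 : ∀ σ ∈ T, ∀ τ ∈ T, ((max (nv (σ.1 - τ.1)) 1 : ℕ) : ℝ) ^ (-α) *
        P 𝒟.E (fun F => Vis 𝒟 F σ ∧ Vis 𝒟 F τ) ≤
        C1 * (n:ℝ) ^ (-(1/4) : ℝ) * f (nv (τ.1 - σ.1)) := by
    intro σ hσ τ hτ
    have h2 := h1 𝒟 c n hn hI h0 σ τ (hTm σ hσ) (hTm τ hτ)
    rw [Pool.Agent.H160R2.CV.w_nv_comm τ.1 σ.1, hf]
    simp only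
    have hm0 : (0:ℝ) < ((max (nv (σ.1 - τ.1)) 1 : ℕ) : ℝ) := by
      have : 0 < max (nv (σ.1 - τ.1)) 1 := by omega
      exact_mod_cast this
    have e4 : ((max (nv (σ.1 - τ.1)) 1 : ℕ) : ℝ) ^ (-(α + 1/4)) =
        ((max (nv (σ.1 - τ.1)) 1 : ℕ) : ℝ) ^ (-α) *
          ((max (nv (σ.1 - τ.1)) 1 : ℕ) : ℝ) ^ (-(1/4) : ℝ) := by
      rw [← Real.rpow_add hm0]
      congr 1
      ring
    rw [e4]
    calc _ ≤ ((max (nv (σ.1 - τ.1)) 1 : ℕ) : ℝ) ^ (-α) * (C1 * (n:ℝ) ^ (-(1/4) : ℝ) *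
          ((max (nv (σ.1 - τ.1)) 1 : ℕ) : ℝ) ^ (-(1/4) : ℝ)) :=
          mul_le_mul_of_nonneg_left h2 (kp _ _)
      _ = _ := by ring
  refine (Finset.sum_le_sum fun σ hσ => Finset.sum_le_sum fun τ hτ => e3 σ hσ τ hτ).trans ?_
  -- evaluate
  have e5 : ∀ g : Vtx → ℝ, ∑ σ ∈ T, g σ.1 = 4 * ∑ x ∈ bx (2 * n), g (c + x) := by
    intro g
    rw [hT, Finset.sum_product, Finset.sum_image (fun x _ y _ h => add_left_cancel h),
      Finset.mul_sum]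
    apply Finset.sum_congr rfl
    intro x _
    show ∑ _y : Q4, g (c + x) = 4 * g (c + x)
    rw [Finset.sum_const, nsmul_eq_mul]
    rfl
  have e6 : ∀ σ ∈ T, ∑ τ ∈ T, C1 * (n:ℝ) ^ (-(1/4) : ℝ) * f (nv (τ.1 - σ.1)) ≤
      C1 * (n:ℝ) ^ (-(1/4) : ℝ) * (4 * (8 * (2 * K * (n : ℝ) ^ (1 - b)))) := by
    intro σ hσ
    rw [← Finset.mul_sum]
    apply mul_le_mul_of_nonneg_left _ (by positivity)
    rw [e5 (fun v => f (nv (v - σ.1)))]
    apply mul_le_mul_of_nonneg_left _ (by norm_num)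
    have hσ' : σ.1 - c ∈ bx (2 * n) := by
      have := hTm σ hσ
      unfold Bo inR at this
      unfold bx
      rw [Finset.mem_product, Finset.mem_Icc, Finset.mem_Icc]
      simp only [Prod.fst_sub, Prod.snd_sub]
      push_cast
      omega
    have h2 := Pool.Agent.H160R2.CV.sum_bx_shift (2 * n) (σ.1 - c) hσ' f hf0
    have h3 : ∀ x : Vtx, c + x - σ.1 = x - (σ.1 - c) := fun x => by abel
    simp only [h3]
    exact h2.trans (mul_le_mul_of_nonneg_left hsum (by norm_num))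
  refine (Finset.sum_le_sum e6).trans ?_
  rw [e5 (fun _ => C1 * (n:ℝ) ^ (-(1/4) : ℝ) * (4 * (8 * (2 * K * (n : ℝ) ^ (1 - b)))))]
  rw [Finset.sum_const, nsmul_eq_mul, Pool.Agent.H160R2.CV.w_card_bx]
  have e7 : (2 * ((2 * n : ℕ) : ℝ) + 1) ^ 2 ≤ 25 * (n:ℝ) ^ 2 := by
    push_cast
    nlinarith
  have e8 : (n:ℝ) ^ (7/2 - α) = (n:ℝ) ^ 2 * ((n:ℝ) ^ (-(1/4) : ℝ) * (n : ℝ) ^ (1 - b)) := by
    rw [← Real.rpow_natCast (n : ℝ) 2, ← Real.rpow_add hn0, ← Real.rpow_add hn0]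
    congr 1
    rw [hb]; push_cast; ring
  rw [e8]
  have p1 : 0 < (n:ℝ) ^ (-(1/4) : ℝ) := by positivity
  have p2 : 0 < (n : ℝ) ^ (1 - b) := by positivity
  calc 4 * ((2 * ((2 * n : ℕ) : ℝ) + 1) ^ 2 *
        (C1 * (n:ℝ) ^ (-(1/4) : ℝ) * (4 * (8 * (2 * K * (n : ℝ) ^ (1 - b))))))
      ≤ 4 * ((25 * (n:ℝ) ^ 2) *
        (C1 * (n:ℝ) ^ (-(1/4) : ℝ) * (4 * (8 * (2 * K * (n : ℝ) ^ (1 - b)))))) := by
        gcongr
    _ = _ := by ring

end Pool.Agent.Helper49K9.AD
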