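import Pool.Agent.Helper49K9.AD.Defs
import Pool.Agent.H984R4.NP.Two

/-!
Elementary properties of the exploration path, and its arms.
-/

set_option autoImplicit false

namespace Pool.Agent.Helper49K9.AD

open H974 H342P H984P H984N Finset

variable {𝒟 : Dob} {F : Finset Edg}

theorem walk_zero (𝒟 : Dob) (F : Finset Edg) : 𝒟.walk F 0 = 𝒟.a := rfl

theorem walk_succ (𝒟 : Dob) (F : Finset Edg) (k : ℕ) :
    𝒟.walk F (k + 1) = nxt (𝒟.cfg F) (𝒟.walk F k) := orb_succ _ _ _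

theorem walk_add (𝒟 : Dob) (F : Finset Edg) (k t : ℕ) :
    𝒟.walk F (k + t) = orb (𝒟.cfg F) (𝒟.walk F k) t := by
  unfold Dob.walk
  rw [add_comm k t, orb_add]

theorem walk_len (hF : F ⊆ 𝒟.E) : 𝒟.walk F (𝒟.len F) = 𝒟.b := Nat.sInf_mem (𝒟.ends F hF)

theorem walk_inj (hF : F ⊆ 𝒟.E) {i j : ℕ} (hij : i < j) (hj : j ≤ 𝒟.len F) :
    𝒟.walk F i ≠ 𝒟.walk F j := by
  intro he
  have h1 : ∀ s : ℕ, 𝒟.walk F (i + s) = 𝒟.walk F (j + s) := by
    intro s
    rw [walk_add, walk_add, he]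
  have h4 := h1 (𝒟.len F - j)
  rw [show j + (𝒟.len F - j) = 𝒟.len F by omega, walk_len hF] at h4
  have h5 : 𝒟.len F ≤ i + (𝒟.len F - j) := Nat.sInf_le h4
  omega

theorem walk_step (𝒟 : Dob) (F : Finset Edg) (k : ℕ) :
    |(𝒟.walk F (k + 1)).1.1 - (𝒟.walk F k).1.1| ≤ 1 ∧
      |(𝒟.walk F (k + 1)).1.2 - (𝒟.walk F k).1.2| ≤ 1 := by
  rw [walk_succ]
  exact nxt_fst _ _

/-- The box of radius `R` around `c`. -/
def Bo (c : Vtx) (R : ℤ) (v : Vtx) : Prop := inR (c.1 - R) (c.1 + R) (c.2 - R) (c.2 + R) v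

/-- The last visit outside of a box. -/
theorem last_exit {c : Vtx} {R : ℤ} {k : ℕ} (h0 : ¬ Bo c R (𝒟.walk F 0).1)
    (hk : Bo c R (𝒟.walk F k).1) :
    ∃ j < k, ¬ Bo c R (𝒟.walk F j).1 ∧ Bo c (R + 1) (𝒟.walk F j).1 ∧
      ∀ s, j < s → s ≤ k → Bo c R (𝒟.walk F s).1 := by
  classical
  set j := Nat.findGreatest (fun j => ¬ Bo c R (𝒟.walk F j).1) k with hj
  have h1 : ¬ Bo c R (𝒟.walk F j).1 :=
    Nat.findGreatest_spec (P := fun j => ¬ Bo c R (𝒟.walk F j).1) (Nat.zero_le k) h0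
  have h2 : j ≤ k := Nat.findGreatest_le k
  have h3 : j < k := by
    rcases Nat.lt_or_ge j k with h | h
    · exact h
    · have : j = k := le_antisymm h2 h
      rw [this] at h1
      exact absurd hk h1
  have h4 : ∀ s, j < s → s ≤ k → Bo c R (𝒟.walk F s).1 := by
    intro s hs hsk
    have := Nat.findGreatest_is_greatest (P := fun j => ¬ Bo c R (𝒟.walk F j).1) hs hsk
    simpa using this
  refine ⟨j, h3, h1, ?_, h4⟩
  have h5 := h4 (j + 1) (by omega) (by omega)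
  have h6 := walk_step 𝒟 F j
  unfold Bo inR at h5 ⊢
  rw [abs_le, abs_le] at h6
  omega

theorem ae_end (σ : St) : src (ae σ) = σ.1 ∨ tgt (ae σ) = σ.1 := by
  rcases p2_ends σ with ⟨h, -⟩ | ⟨-, h⟩
  · exact Or.inl h
  · exact Or.inr h

/-- Arms of the exploration path between two times, if the examined edges are in a window. -/
theorem arms_gen {j k : ℕ} (hjk : j ≤ k) {W : Set Edg}
    (hW : ∀ s, j ≤ s → s < k → ae (𝒟.walk F s) ∈ W) :
    Reach (𝒟.cfg F ∩ W) (𝒟.walk F j).1 (𝒟.walk F k).1 ∧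
      DReach (W \ 𝒟.cfg F) (face (𝒟.walk F j)) (face (𝒟.walk F k)) := by
  have h : ∀ s < k - j, ae (orb (𝒟.cfg F) (𝒟.walk F j) s) ∈ W := by
    intro s hs
    rw [← walk_add]
    exact hW _ (by omega) (by omega)
  have h1 := orb_reach h (le_refl (k - j))
  have h2 := orb_dreach h (le_refl (k - j))
  rw [← walk_add, show j + (k - j) = k by omega] at h1 h2
  exact ⟨h1, h2⟩

/-- All edges close to the box of radius `R` around `c` are random. -/
def In (𝒟 : Dob) (c : Vtx) (R : ℤ) : Prop := ∀ e : Edg, Bo c R (src e) ∨ Bo c R (tgt e) → e ∈ 𝒟.E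

theorem Bo.mono {c : Vtx} {R R' : ℤ} (h : R ≤ R') {v : Vtx} (hv : Bo c R v) : Bo c R' v := by
  unfold Bo inR at hv ⊢
  omega

theorem Bo.sub {c c' : Vtx} {R R' : ℤ} {v : Vtx} (hc : Bo c R c') (hv : Bo c' R' v) :
    Bo c (R + R') v := by
  unfold Bo inR at hv hc ⊢
  omega

theorem In.mono {c : Vtx} {R R' : ℤ} (h : R ≤ R') (hI : In 𝒟 c R') : In 𝒟 c R := by
  intro e he
  exact hI e (he.imp (fun h1 => h1.mono h) (fun h1 => h1.mono h))

theorem In.sub {c c' : Vtx} {R R' : ℤ} (hc : Bo c R c') (hI : In 𝒟 c (R + R')) : In 𝒟 c' R' := by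
  intro e he
  exact hI e (he.imp (fun h1 => hc.sub h1) (fun h1 => hc.sub h1))

theorem In.box {c : Vtx} {R : ℤ} (hI : In 𝒟 c R) :
    RE (c.1 - R) (c.1 + R) (c.2 - R) (c.2 + R) ⊆ 𝒟.E := by
  intro e he
  have := H973.mem_RE_ends he
  exact hI e (Or.inl this.1)

/-- Two arms from a visited state to the outside of a box, in the bulk. -/
theorem arms_bulk {c : Vtx} {R : ℤ} {k : ℕ} (h0 : ¬ Bo c R (𝒟.walk F 0).1)
    (hk : Bo c R (𝒟.walk F k).1) (hI : In 𝒟 c (R + 1)) :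
    ∃ j < k, ¬ Bo c R (𝒟.walk F j).1 ∧ Bo c (R + 1) (𝒟.walk F j).1 ∧
      Reach (↑F) (𝒟.walk F j).1 (𝒟.walk F k).1 ∧
      DReach (↑(𝒟.E \ F) : Set Edg) (face (𝒟.walk F j)) (face (𝒟.walk F k)) := by
  obtain ⟨j, hj, h1, h2, h3⟩ := last_exit h0 hk
  have hW : ∀ s, j ≤ s → s < k → ae (𝒟.walk F s) ∈ (↑𝒟.E : Set Edg) := by
    intro s hs hsk
    have h4 : Bo c (R + 1) (𝒟.walk F s).1 := by
      rcases Nat.lt_or_ge j s with h | h
      · exact (h3 s h hsk.le).mono (by omega)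
      · have : s = j := by omega
        rw [this]; exact h2
    apply hI
    rcases ae_end (𝒟.walk F s) with h5 | h5
    · left; rw [h5]; exact h4
    · right; rw [h5]; exact h4
  obtain ⟨g1, g2⟩ := arms_gen hj.le hW
  refine ⟨j, hj, h1, h2, g1.mono ?_, g2.mono ?_⟩
  · rintro e ⟨he | he, he2⟩
    · exact he
    · exact absurd he (𝒟.disj e he2)
  · rintro e ⟨he, he2⟩
    rw [Finset.coe_sdiff]
    exact ⟨he, fun h => he2 (Or.inl h)⟩

/-- A visited state in the bulk has two arms. -/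
theorem vis_two {k : ℕ} {m : ℤ} (hm : 0 ≤ m) (h0 : ¬ Bo (𝒟.walk F k).1 (m + 1) (𝒟.walk F 0).1)
    (hI : In 𝒟 (𝒟.walk F k).1 (m + 2)) :
    Two (𝒟.walk F k).1 (face (𝒟.walk F k)) m ↑F := by
  obtain ⟨j, hj, h1, h2, h3, h4⟩ := arms_bulk (c := (𝒟.walk F k).1) (R := m + 1) (k := k) h0
    (by unfold Bo inR; omega) (by rw [show m + 1 + 1 = m + 2 by ring]; exact hI)
  refine ⟨⟨(𝒟.walk F j).1, ?_, h3.symm⟩, face (𝒟.walk F j), ?_, ?_⟩
  rotate_left 2
  · refine DReach.mono ?_ h4.symm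
    rw [Finset.coe_sdiff]
    exact fun e he => he.2
  · unfold Far
    unfold Bo inR at h1
    omega
  · have hf := arms_face (𝒟.walk F j)
    unfold FarF inF
    unfold Bo inR at h1
    omega

/-- The annulus event for the edges outside of the inner box. -/
theorem vis_ann {k : ℕ} {c : Vtx} {r R : ℕ} (hk : Bo c r (𝒟.walk F k).1) (hrR : r + 2 ≤ R)
    (h0 : ¬ Bo c (R + 1) (𝒟.walk F 0).1) (hI : In 𝒟 c (R + 2)) :
    H12S.Crs c.1 c.2 (r + 1) R (↑(F \ RE (c.1 - r) (c.1 + r) (c.2 - r) (c.2 + r)) : Set Edg) ∧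
    H12S.DCrs c.1 c.2 (r + 1) R
      (↑((𝒟.E \ RE (c.1 - r) (c.1 + r) (c.2 - r) (c.2 + r)) \ F) : Set Edg) := by
  obtain ⟨j, hj, h1, h2, h3, h4⟩ := arms_bulk (c := c) (R := R + 1) (k := k) h0
    (hk.mono (by omega)) (by rw [show (R:ℤ) + 1 + 1 = R + 2 by ring]; exact hI)
  have hf := arms_face (𝒟.walk F j)
  have hfk := arms_face (𝒟.walk F k)
  unfold Bo inR at h1 hk
  constructor
  · obtain ⟨x, hx, hq⟩ := arms_reach
      (X := ((↑(RE (c.1 - r) (c.1 + r) (c.2 - r) (c.2 + r)) : Set Edg))ᶜ)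
      (G := (↑(F \ RE (c.1 - r) (c.1 + r) (c.2 - r) (c.2 + r)) : Set Edg))
      (fun z => ¬ ((c.1 - r ≤ z.1 ∧ z.1 ≤ c.1 + r) ∧ (c.2 - r ≤ z.2 ∧ z.2 ≤ c.2 + r)))
      (fun e _ hB => by
        intro hcon
        have hcon' : e ∈ RE (c.1 - r) (c.1 + r) (c.2 - r) (c.2 + r) := hcon
        obtain ⟨x, y, _ | _⟩ := e
        · simp only [mem_RE_false] at hcon'
          simp only [src_mk, tgt_false] at hB
          omega
        · simp only [mem_RE_true] at hcon'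
          simp only [src_mk, tgt_true] at hB
          omega)
      (by
        rw [Finset.coe_sdiff]
        exact fun e he => he) h3 (by rw [not_not]; exact hk)
    refine ⟨x, _, ?_, ?_, hq.symm⟩
    · unfold inR
      push_cast
      omega
    · omega
  · obtain ⟨x, hx, hq⟩ := arms_dreach
      (X := ((↑(RE (c.1 - r) (c.1 + r) (c.2 - r) (c.2 + r)) : Set Edg))ᶜ)
      (G := (↑((𝒟.E \ RE (c.1 - r) (c.1 + r) (c.2 - r) (c.2 + r)) \ F) : Set Edg))
      (fun z => ¬ ((c.1 - r - 1 ≤ z.1 ∧ z.1 ≤ c.1 + r) ∧ (c.2 - r - 1 ≤ z.2 ∧ z.2 ≤ c.2 + r)))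
      (fun e _ hB => by
        intro hcon
        have hcon' : e ∈ RE (c.1 - r) (c.1 + r) (c.2 - r) (c.2 + r) := hcon
        obtain ⟨x, y, _ | _⟩ := e
        · simp only [mem_RE_false] at hcon'
          simp only [dsrc_false, dtgt_mk] at hB
          omega
        · simp only [mem_RE_true] at hcon'
          simp only [dsrc_true, dtgt_mk] at hB
          omega)
      (by
        rw [Finset.coe_sdiff, Finset.coe_sdiff, Finset.coe_sdiff]
        intro e he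
        exact ⟨⟨he.1.1, he.2⟩, he.1.2⟩) h4 (by
        rw [not_not]
        omega)
    refine ⟨x, _, ?_, ?_, hq.symm⟩
    · unfold inR
      push_cast
      omega
    · omega

end Pool.Agent.Helper49K9.AD
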